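import Mathlib
import Pool.Agent.Helper44.RO2.Defs

/-!
# Project RO3: counting all abc triples by radical. Keys of natural numbers.
-/

set_option autoImplicit false

open Finset
open Pool.Agent.Helper42.RO Pool.Agent.Helper44.RO2

namespace Pool.Agent.Helper42.RT

/-- The signs of the entries in `a + b - c = 0`. -/
def sg : Fin 3 → ℤ := ![1, 1, -1]

/-- The key of `x` at the scale `X`: its prime divisors together with the rounded quantities
`32 * v_p(x) * log p * ω(x) / log X`. -/
noncomputable def key (X : ℝ) (x : ℕ) : ℕ →₀ ℕ :=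
  Finsupp.onFinset x.primeFactors
    (fun p => if p ∈ x.primeFactors then
      1 + ⌊(x.factorization p : ℝ) * Real.log p * x.primeFactors.card / (Real.log X / 32)⌋₊ else 0)
    (by
      intro p hp
      by_contra h
      simp [h] at hp)

lemma key_apply (X : ℝ) (x p : ℕ) : key X x p = if p ∈ x.primeFactors then
      1 + ⌊(x.factorization p : ℝ) * Real.log p * x.primeFactors.card / (Real.log X / 32)⌋₊ else 0 :=
  rfl

lemma key_support (X : ℝ) (x : ℕ) : (key X x).support = x.primeFactors := by
  ext p
  rw [Finsupp.mem_support_iff, key_apply]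
  split_ifs with h
  · exact ⟨fun _ => h, fun _ => by omega⟩
  · exact ⟨fun h2 => absurd rfl h2, fun h2 => absurd h2 h⟩

/-- Equal keys: the same prime divisors. -/
lemma primeFactors_of_key {X : ℝ} {x y : ℕ} (h : key X x = key X y) :
    x.primeFactors = y.primeFactors := by
  rw [← key_support X x, ← key_support X y, h]

lemma rad_of_key {X : ℝ} {x y : ℕ} (h : key X x = key X y) : rad x = rad y := by
  unfold rad
  rw [primeFactors_of_key h]

/-- Equal keys: nearly equal valuations. -/
lemma val_of_key {X : ℝ} (hX : 1 < X) {x y : ℕ} (h : key X x = key X y) {p : ℕ}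
    (hp : p ∈ x.primeFactors) :
    (x.factorization p : ℝ) * Real.log p ≤ (y.factorization p : ℝ) * Real.log p +
      Real.log X / 32 / x.primeFactors.card := by
  have hP := primeFactors_of_key h
  have h1 : key X x p = key X y p := by rw [h]
  rw [key_apply, key_apply, if_pos hp, if_pos (hP ▸ hp), ← hP] at h1
  have hs : (0 : ℝ) < x.primeFactors.card := by
    have : 0 < x.primeFactors.card := Finset.card_pos.2 ⟨p, hp⟩
    exact_mod_cast this
  have hL : 0 < Real.log X / 32 := by
    have := Real.log_pos hX
    positivity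
  set s : ℝ := (x.primeFactors.card : ℝ) with hsdef
  set A : ℝ := (x.factorization p : ℝ) * Real.log p with hA
  set B : ℝ := (y.factorization p : ℝ) * Real.log p with hB
  have hB0 : 0 ≤ B := mul_nonneg (Nat.cast_nonneg _) (Real.log_natCast_nonneg p)
  have h2 : ⌊A * s / (Real.log X / 32)⌋₊ = ⌊B * s / (Real.log X / 32)⌋₊ := by omega
  have h3 : A * s / (Real.log X / 32) < (⌊A * s / (Real.log X / 32)⌋₊ : ℝ) + 1 :=
    Nat.lt_floor_add_one _
  have h4 : ((⌊B * s / (Real.log X / 32)⌋₊ : ℕ) : ℝ) ≤ B * s / (Real.log X / 32) :=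
    Nat.floor_le (by positivity)
  rw [h2] at h3
  have h5 : A * s / (Real.log X / 32) < B * s / (Real.log X / 32) + 1 := by linarith
  have h6 : A * s < B * s + Real.log X / 32 := by
    have h7 := (div_lt_iff₀ hL).1 h5
    rw [add_mul, div_mul_cancel₀ _ hL.ne', one_mul] at h7
    exact h7
  have h8 : A < B + Real.log X / 32 / s := by
    have h9 : B + Real.log X / 32 / s = (B * s + Real.log X / 32) / s := by field_simp
    rw [h9, lt_div_iff₀ hs]
    exact h6
  exact h8.le

/-- The signed sum of the entries vanishes. -/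
lemma sg_sum (t : ℕ × ℕ) {k j l : Fin 3} (h1 : k ≠ j) (h2 : l ≠ k) (h3 : l ≠ j) :
    sg k * (ent t k : ℤ) + sg j * (ent t j : ℤ) + sg l * (ent t l : ℤ) = 0 := by
  unfold sg
  fin_cases k <;> fin_cases j <;> fin_cases l <;>
    first
    | exact absurd rfl h1
    | exact absurd rfl h2
    | exact absurd rfl h3
    | (simp [ent]; try ring)

lemma sg_sq (k : Fin 3) : sg k * sg k = 1 := by
  unfold sg
  fin_cases k <;> simp

/-- A pair is determined by two of its entries. -/
lemma ent_inj {t s : ℕ × ℕ} {k j : Fin 3} (h : k ≠ j) (e1 : ent t k = ent s k)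
    (e2 : ent t j = ent s j) : t = s := by
  fin_cases k <;> fin_cases j <;>
    first
    | exact absurd rfl h
    | (simp only [Fin.zero_eta, Fin.mk_one, Fin.reduceFinMk, ent_zero, ent_one, ent_two] at e1 e2
       apply Prod.ext <;> omega)

end Pool.Agent.Helper42.RT
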