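import Mathlib
import Pool.Agent.Helper42.RT.Defs

set_option autoImplicit false

open Finset
open Pool.Agent.Helper42.RO Pool.Agent.Helper44.RO2

namespace Pool.Agent.Helper42.RT

/-- RT-B1. The divisibility in the four-cycle lemma.
PROOF. Multiply the four equations: with `w1 = G11 G22 F12 F21`, `w2 = G12 G21 F22 F11` (`G = ent t j`,
`F = ent t l`): `w1 * (v1 v2 v3 v4) = w2 * (u1 u2 u3 u4)`. By `sg_sum`, modulo `D` (which divides
`ent t k`) `sg j * G = - sg l * F`, i.e. `G = σ F` with `σ = - sg j * sg l`, `σ ^ 2 = 1` (`sg_sq`). So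
`w1 ≡ w ≡ w2 (mod D)` with `w = F11 F12 F21 F22`, and `D ∣ w * (u* - v*)`. As `D ∣ ent t k` is coprime
to every `F` (`ent_coprime`), `D` is coprime to `w`, so `D ∣ u* - v*` (work in `ℤ`, `IsCoprime`). -/
theorem core_dvd {k j l : Fin 3} (h1 : k ≠ j) (h2 : l ≠ k) (h3 : l ≠ j) {D : ℕ}
    {t11 t12 t21 t22 : ℕ × ℕ} (c11 : Cop t11) (c12 : Cop t12) (c21 : Cop t21) (c22 : Cop t22)
    (d11 : D ∣ ent t11 k) (d12 : D ∣ ent t12 k) (d21 : D ∣ ent t21 k) (d22 : D ∣ ent t22 k)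
    {u1 v1 u2 v2 u3 v3 u4 v4 : ℕ}
    (e1 : ent t11 j * v1 = ent t12 j * u1) (e2 : ent t22 j * v2 = ent t21 j * u2)
    (e3 : ent t12 l * v3 = ent t22 l * u3) (e4 : ent t21 l * v4 = ent t11 l * u4) :
    (D : ℤ) ∣ ((u1 * u2 * u3 * u4 : ℕ) : ℤ) - ((v1 * v2 * v3 * v4 : ℕ) : ℤ) := by
  have key : ∀ t : ℕ × ℕ, D ∣ ent t k →
      (D : ℤ) ∣ (ent t j : ℤ) + sg j * sg l * (ent t l : ℤ) := by
    intro t hd
    have hs := sg_sum t h1 h2 h3
    have hj := sg_sq j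
    have e : (ent t j : ℤ) + sg j * sg l * (ent t l : ℤ) = (ent t k : ℤ) * (-(sg j * sg k)) := by
      linear_combination sg j * hs - (ent t j : ℤ) * hj
    rw [e]
    exact Dvd.dvd.mul_right (by exact_mod_cast hd) _
  have k11 := key t11 d11
  have k12 := key t12 d12
  have k21 := key t21 d21
  have k22 := key t22 d22
  have hσ : (sg j * sg l) * (sg j * sg l) = 1 := by
    have a := sg_sq j
    have b := sg_sq l
    linear_combination b + (sg l * sg l) * a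
  set σ : ℤ := sg j * sg l with hσdef
  have pr : ∀ x y a b : ℤ, (D : ℤ) ∣ x + σ * a → (D : ℤ) ∣ y + σ * b →
      (D : ℤ) ∣ x * y - a * b := by
    intro x y a b hx hy
    have e : x * y - a * b = (x + σ * a) * y - σ * a * (y + σ * b) := by
      linear_combination (a * b) * hσ
    rw [e]
    exact dvd_sub (Dvd.dvd.mul_right hx _) (Dvd.dvd.mul_left hy _)
  have w1 := pr _ _ _ _ k11 k22
  have w2 := pr _ _ _ _ k12 k21
  have hcop : IsCoprime (D : ℤ)
      ((ent t11 l : ℤ) * ent t22 l * ((ent t12 l : ℤ) * ent t21 l)) := by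
    have hc : ∀ t : ℕ × ℕ, Cop t → D ∣ ent t k → IsCoprime (D : ℤ) (ent t l : ℤ) := by
      intro t ht hd
      exact Nat.isCoprime_iff_coprime.2 ((ent_coprime ht (Ne.symm h2)).coprime_dvd_left hd)
    exact (((hc _ c11 d11).mul_right (hc _ c22 d22)).mul_right
      ((hc _ c12 d12).mul_right (hc _ c21 d21)))
  apply hcop.dvd_of_dvd_mul_left
  have hprod : ((ent t11 j : ℤ) * ent t22 j) * ((ent t12 l : ℤ) * ent t21 l) *
      ((v1 * v2 * v3 * v4 : ℕ) : ℤ) =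
      ((ent t12 j : ℤ) * ent t21 j) * ((ent t11 l : ℤ) * ent t22 l) *
      ((u1 * u2 * u3 * u4 : ℕ) : ℤ) := by
    have f1 : (ent t11 j : ℤ) * v1 = ent t12 j * u1 := by exact_mod_cast e1
    have f2 : (ent t22 j : ℤ) * v2 = ent t21 j * u2 := by exact_mod_cast e2
    have f3 : (ent t12 l : ℤ) * v3 = ent t22 l * u3 := by exact_mod_cast e3
    have f4 : (ent t21 l : ℤ) * v4 = ent t11 l * u4 := by exact_mod_cast e4
    push_cast
    calc ((ent t11 j : ℤ) * ent t22 j) * ((ent t12 l : ℤ) * ent t21 l) *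
          ((v1 : ℤ) * v2 * v3 * v4)
        = ((ent t11 j : ℤ) * v1) * ((ent t22 j : ℤ) * v2) *
          (((ent t12 l : ℤ) * v3) * ((ent t21 l : ℤ) * v4)) := by ring
      _ = ((ent t12 j : ℤ) * u1) * ((ent t21 j : ℤ) * u2) *
          (((ent t22 l : ℤ) * u3) * ((ent t11 l : ℤ) * u4)) := by rw [f1, f2, f3, f4]
      _ = _ := by ring
  obtain ⟨a, ha⟩ := w1
  obtain ⟨b, hb⟩ := w2
  set U : ℤ := ((u1 * u2 * u3 * u4 : ℕ) : ℤ) with hU
  set V : ℤ := ((v1 * v2 * v3 * v4 : ℕ) : ℤ) with hV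
  refine ⟨a * ((ent t12 l : ℤ) * ent t21 l) * V - b * ((ent t11 l : ℤ) * ent t22 l) * U, ?_⟩
  linear_combination ((ent t12 l : ℤ) * ent t21 l) * V * ha -
    ((ent t11 l : ℤ) * ent t22 l) * U * hb - hprod

end Pool.Agent.Helper42.RT
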