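import Mathlib
import Pool.Agent.Helper42.RT.Defs

set_option autoImplicit false

open Finset
open Pool.Agent.Helper42.RO Pool.Agent.Helper44.RO2

namespace Pool.Agent.Helper42.RT

private lemma core_abs {P Q U V x M : ℝ} (hU : 0 ≤ U) (hV : 0 ≤ V) (hUM : U ≤ M) (hVM : V ≤ M)
    (hx : 0 ≤ x) (hP : 1 - 2 * x ≤ P) (hP1 : P ≤ 1) (hQ : 1 - 2 * x ≤ Q) (hQ1 : Q ≤ 1)
    (h : P * U = Q * V) : |U - V| ≤ 2 * x * M := by
  have hxU : x * U ≤ x * M := mul_le_mul_of_nonneg_left hUM hx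
  have hxV : x * V ≤ x * M := mul_le_mul_of_nonneg_left hVM hx
  have h1 : (1 - 2 * x) * U ≤ P * U := mul_le_mul_of_nonneg_right hP hU
  have h2 : P * U ≤ 1 * U := mul_le_mul_of_nonneg_right hP1 hU
  have h3 : (1 - 2 * x) * V ≤ Q * V := mul_le_mul_of_nonneg_right hQ hV
  have h4 : Q * V ≤ 1 * V := mul_le_mul_of_nonneg_right hQ1 hV
  rw [abs_le]
  constructor <;> nlinarith

private lemma core_ratio {S c E x : ℝ} (hc : 0 < c) (hE : 0 ≤ E) (hEc : E ≤ x * c)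
    (hs : E + S = c) : 1 - x ≤ S / c ∧ S / c ≤ 1 := by
  constructor
  · rw [le_div_iff₀ hc]
    nlinarith
  · rw [div_le_one hc]
    linarith

private lemma core_two {a b x : ℝ} (hx1 : x ≤ 1) (ha : 1 - x ≤ a ∧ a ≤ 1)
    (hb : 1 - x ≤ b ∧ b ≤ 1) : 1 - 2 * x ≤ a * b ∧ a * b ≤ 1 := by
  obtain ⟨a1, a2⟩ := ha
  obtain ⟨b1, b2⟩ := hb
  have hx0 : 0 ≤ x := by linarith
  have h1 : (1 - x) * (1 - x) ≤ a * b := mul_le_mul a1 b1 (by linarith) (by linarith)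
  have h2 : a * b ≤ 1 * 1 := mul_le_mul a2 b2 (by linarith) (by linarith)
  constructor <;> nlinarith

/-- The estimate in the second case: `c` are the largest entries, `S` the second largest ones. -/
private lemma core_main {x M : ℝ} (hx0 : 0 ≤ x) (hx1 : x ≤ 1)
    {c11 c12 c21 c22 S11 S12 S21 S22 E11 E12 E21 E22 : ℝ}
    (p11 : 0 < c11) (p12 : 0 < c12) (p21 : 0 < c21) (p22 : 0 < c22)
    (n11 : 0 ≤ E11) (n12 : 0 ≤ E12) (n21 : 0 ≤ E21) (n22 : 0 ≤ E22)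
    (q11 : E11 ≤ x * c11) (q12 : E12 ≤ x * c12) (q21 : E21 ≤ x * c21) (q22 : E22 ≤ x * c22)
    (s11 : E11 + S11 = c11) (s12 : E12 + S12 = c12) (s21 : E21 + S21 = c21) (s22 : E22 + S22 = c22)
    {u1 v1 u2 v2 u3 v3 u4 v4 : ℝ}
    (hU : 0 ≤ u1 * u2 * u3 * u4) (hV : 0 ≤ v1 * v2 * v3 * v4)
    (hUM : u1 * u2 * u3 * u4 ≤ M) (hVM : v1 * v2 * v3 * v4 ≤ M)
    (e1 : c11 * v1 = c12 * u1) (e2 : c22 * v2 = c21 * u2)
    (e3 : S12 * v3 = S22 * u3) (e4 : S21 * v4 = S11 * u4) :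
    |u1 * u2 * u3 * u4 - v1 * v2 * v3 * v4| ≤ 2 * x * M := by
  have r11 := core_ratio p11 n11 q11 s11
  have r12 := core_ratio p12 n12 q12 s12
  have r21 := core_ratio p21 n21 q21 s21
  have r22 := core_ratio p22 n22 q22 s22
  have hP := core_two hx1 r11 r22
  have hQ := core_two hx1 r12 r21
  refine core_abs hU hV hUM hVM hx0 hP.1 hP.2 hQ.1 hQ.2 ?_
  have f1 : u1 / c11 = v1 / c12 := by
    rw [div_eq_div_iff p11.ne' p12.ne']
    linarith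
  have f2 : u2 / c22 = v2 / c21 := by
    rw [div_eq_div_iff p22.ne' p21.ne']
    linarith
  calc S11 / c11 * (S22 / c22) * (u1 * u2 * u3 * u4)
      = (u1 / c11) * (u2 / c22) * (S22 * u3) * (S11 * u4) := by ring
    _ = (v1 / c12) * (v2 / c21) * (S12 * v3) * (S21 * v4) := by rw [f1, f2, e3, e4]
    _ = S12 / c12 * (S21 / c21) * (v1 * v2 * v3 * v4) := by ring

private lemma sum_two (t : ℕ × ℕ) {k l : Fin 3} (h : l ≠ k) (hk : k ≠ 2) (hl : l ≠ 2) :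
    ent t k + ent t l = t.1 + t.2 := by
  fin_cases k <;> fin_cases l <;>
    first
    | exact absurd rfl h
    | exact absurd rfl hk
    | exact absurd rfl hl
    | (simp only [Fin.zero_eta, Fin.mk_one, ent_zero, ent_one]; done)
    | (simp only [Fin.zero_eta, Fin.mk_one, ent_zero, ent_one]; omega)

private lemma prod_four {a b c d y : ℝ} (ha : 0 ≤ a) (hb : 0 ≤ b) (hc : 0 ≤ c) (hd : 0 ≤ d)
    (h1 : a ≤ y) (h2 : b ≤ y) (h3 : c ≤ y) (h4 : d ≤ y) : a * b * c * d ≤ y ^ 4 := by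
  have hy : 0 ≤ y := ha.trans h1
  calc a * b * c * d ≤ y * y * y * y := by gcongr
    _ = y ^ 4 := by ring

/-- RT-B2. The size estimate in the four-cycle lemma.
PROOF. Let `U = u1 u2 u3 u4`, `V = v1 v2 v3 v4`, `1 ≤ U, V ≤ X ^ (1 / 8)`.
Case 1: some `E = ent t k ≥ X ^ (1 / 2)`. Then `D ≥ X ^ (1 / 2 - 1 / 32) > X ^ (1 / 8)`, and
`|U - V| < max U V ≤ X ^ (1 / 8) < D`.
Case 2: all four `E < X ^ (1 / 2)`. Then `k ≠ 2` (`ent t 2 = c t > X`), so one of `G = ent t j`,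
`F = ent t l` is `c t` and the other is `c t - E` (use `fin_cases`), hence `|G - F| = E < X ^ (1 / 2)` and
`G, F ≥ X - X ^ (1 / 2) ≥ X / 2`. So `(1 - δ) F ≤ G ≤ (1 + δ) F` with `δ = 2 X ^ (-1 / 2) ≤ 1 / 32`.
The product of the four equations is `G11 G22 F12 F21 * V = G12 G21 F22 F11 * U`, so
`U / V = (G11 / F11) (G22 / F22) / ((G12 / F12) (G21 / F21))` lies between `((1 - δ) / (1 + δ)) ^ 2` and
`((1 + δ) / (1 - δ)) ^ 2`, so `|U - V| ≤ 4.4 δ V ≤ 8.8 X ^ (1 / 8 - 1 / 2) < 1 ≤ D`, as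
`X ^ (3 / 8) ≥ 4096 ^ (3 / 8) = 2 ^ 4.5 > 22`. -/
theorem core_size {k j l : Fin 3} (h1 : k ≠ j) (h2 : l ≠ k) (h3 : l ≠ j) {X : ℝ} (hX : 4096 ≤ X)
    {D : ℕ} (hD : 0 < D)
    {t11 t12 t21 t22 : ℕ × ℕ} (c11 : Cop t11) (c12 : Cop t12) (c21 : Cop t21) (c22 : Cop t22)
    (x11 : X < c t11) (x12 : X < c t12) (x21 : X < c t21) (x22 : X < c t22)
    (m11 : (ent t11 k : ℝ) ≤ D * X ^ (1 / 32 : ℝ)) (m12 : (ent t12 k : ℝ) ≤ D * X ^ (1 / 32 : ℝ))
    (m21 : (ent t21 k : ℝ) ≤ D * X ^ (1 / 32 : ℝ)) (m22 : (ent t22 k : ℝ) ≤ D * X ^ (1 / 32 : ℝ))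
    {u1 v1 u2 v2 u3 v3 u4 v4 : ℕ}
    (pu1 : 0 < u1) (pv1 : 0 < v1) (pu2 : 0 < u2) (pv2 : 0 < v2)
    (pu3 : 0 < u3) (pv3 : 0 < v3) (pu4 : 0 < u4) (pv4 : 0 < v4)
    (bu1 : (u1 : ℝ) ≤ X ^ (1 / 32 : ℝ)) (bv1 : (v1 : ℝ) ≤ X ^ (1 / 32 : ℝ))
    (bu2 : (u2 : ℝ) ≤ X ^ (1 / 32 : ℝ)) (bv2 : (v2 : ℝ) ≤ X ^ (1 / 32 : ℝ))
    (bu3 : (u3 : ℝ) ≤ X ^ (1 / 32 : ℝ)) (bv3 : (v3 : ℝ) ≤ X ^ (1 / 32 : ℝ))
    (bu4 : (u4 : ℝ) ≤ X ^ (1 / 32 : ℝ)) (bv4 : (v4 : ℝ) ≤ X ^ (1 / 32 : ℝ))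
    (e1 : ent t11 j * v1 = ent t12 j * u1) (e2 : ent t22 j * v2 = ent t21 j * u2)
    (e3 : ent t12 l * v3 = ent t22 l * u3) (e4 : ent t21 l * v4 = ent t11 l * u4) :
    |((u1 * u2 * u3 * u4 : ℕ) : ℤ) - ((v1 * v2 * v3 * v4 : ℕ) : ℤ)| < (D : ℤ) := by
  have hX0 : (0 : ℝ) < X := by linarith
  set y : ℝ := X ^ (1 / 32 : ℝ) with hy
  have hy32 : y ^ 32 = X := by
    rw [hy, ← Real.rpow_natCast, ← Real.rpow_mul hX0.le]
    norm_num
  have hy1 : 1 ≤ y := Real.one_le_rpow (by linarith) (by norm_num)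
  have hy0 : 0 < y := by linarith
  have hy12 : 2 < y ^ 12 := by
    by_contra hcon
    push Not at hcon
    have h4 : y ^ 36 ≤ 8 := by
      calc y ^ 36 = (y ^ 12) ^ 3 := by ring
        _ ≤ 2 ^ 3 := pow_le_pow_left₀ (by positivity) hcon 3
        _ = 8 := by norm_num
    have h5 : y ^ 32 ≤ y ^ 36 := pow_le_pow_right₀ hy1 (by norm_num)
    linarith
  have hD1 : (1 : ℝ) ≤ D := by exact_mod_cast hD
  have hUr : ((u1 : ℝ) * u2 * u3 * u4) ≤ y ^ 4 :=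
    prod_four (Nat.cast_nonneg _) (Nat.cast_nonneg _) (Nat.cast_nonneg _) (Nat.cast_nonneg _)
      bu1 bu2 bu3 bu4
  have hVr : ((v1 : ℝ) * v2 * v3 * v4) ≤ y ^ 4 :=
    prod_four (Nat.cast_nonneg _) (Nat.cast_nonneg _) (Nat.cast_nonneg _) (Nat.cast_nonneg _)
      bv1 bv2 bv3 bv4
  have hU0 : (0 : ℝ) < (u1 : ℝ) * u2 * u3 * u4 := by
    have : 0 < u1 * u2 * u3 * u4 := by positivity
    exact_mod_cast this
  have hV0 : (0 : ℝ) < (v1 : ℝ) * v2 * v3 * v4 := by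
    have : 0 < v1 * v2 * v3 * v4 := by positivity
    exact_mod_cast this
  -- it is enough to bound the real absolute value
  suffices hreal : |(u1 : ℝ) * u2 * u3 * u4 - (v1 : ℝ) * v2 * v3 * v4| < D by
    have hcast : ((|((u1 * u2 * u3 * u4 : ℕ) : ℤ) - ((v1 * v2 * v3 * v4 : ℕ) : ℤ)| : ℤ) : ℝ) =
        |(u1 : ℝ) * u2 * u3 * u4 - (v1 : ℝ) * v2 * v3 * v4| := by
      push_cast
      rfl
    have h6 : ((|((u1 * u2 * u3 * u4 : ℕ) : ℤ) - ((v1 * v2 * v3 * v4 : ℕ) : ℤ)| : ℤ) : ℝ) <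
        ((D : ℤ) : ℝ) := by
      rw [hcast]
      exact_mod_cast hreal
    exact_mod_cast h6
  -- the first case
  have case1 : ∀ t : ℕ × ℕ, (ent t k : ℝ) ≤ D * y → y ^ 16 ≤ (ent t k : ℝ) →
      |(u1 : ℝ) * u2 * u3 * u4 - (v1 : ℝ) * v2 * v3 * v4| < D := by
    intro t h7 h8
    have h9 : y ^ 15 ≤ D := by
      have h10 : y ^ 15 * y ≤ D * y := by
        calc y ^ 15 * y = y ^ 16 := by ring
          _ ≤ D * y := h8.trans h7
      exact le_of_mul_le_mul_right h10 hy0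
    have h11 : y ^ 4 ≤ y ^ 15 := pow_le_pow_right₀ hy1 (by norm_num)
    rw [abs_lt]
    constructor <;> linarith
  by_cases g11 : y ^ 16 ≤ (ent t11 k : ℝ)
  · exact case1 t11 m11 g11
  by_cases g12 : y ^ 16 ≤ (ent t12 k : ℝ)
  · exact case1 t12 m12 g12
  by_cases g21 : y ^ 16 ≤ (ent t21 k : ℝ)
  · exact case1 t21 m21 g21
  by_cases g22 : y ^ 16 ≤ (ent t22 k : ℝ)
  · exact case1 t22 m22 g22
  push Not at g11 g12 g21 g22
  -- the second case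
  have hk2 : k ≠ 2 := by
    rintro rfl
    have h7 : (ent t11 2 : ℝ) = c t11 := rfl
    have h8 : y ^ 16 ≤ y ^ 32 := pow_le_pow_right₀ hy1 (by norm_num)
    rw [h7] at g11
    linarith
  set x : ℝ := 1 / y ^ 16 with hx
  have hx0 : 0 ≤ x := by positivity
  have hx1 : x ≤ 1 := by
    rw [hx, div_le_one (by positivity)]
    exact one_le_pow₀ hy1
  have hE : ∀ t : ℕ × ℕ, X < c t → (ent t k : ℝ) < y ^ 16 → (ent t k : ℝ) ≤ x * c t := by
    intro t h7 h8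
    have h9 : x * X ≤ x * c t := mul_le_mul_of_nonneg_left h7.le hx0
    have h10 : x * X = y ^ 16 := by
      rw [hx, ← hy32]
      field_simp
    linarith
  have hfin : 2 * x * y ^ 4 < D := by
    have h7 : 2 * x * y ^ 4 = 2 / y ^ 12 := by
      rw [hx]
      field_simp
    have h8 : 2 / y ^ 12 < 1 := by
      rw [div_lt_one (by positivity)]
      exact hy12
    linarith
  have hcr : ∀ t : ℕ × ℕ, X < c t → 0 < c t := fun t h7 => hX0.trans h7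
  rcases eq_of_three (i := 2) h1 h2 h3 with h | h | h
  · exact absurd h.symm hk2
  · -- the entry `j` is the largest one
    subst h
    have hs : ∀ t : ℕ × ℕ, (ent t k : ℝ) + (ent t l : ℝ) = c t := by
      intro t
      have := sum_two t h2 hk2 h3
      unfold c
      exact_mod_cast this
    have hj : ∀ t : ℕ × ℕ, (ent t 2 : ℝ) = c t := fun t => rfl
    have e1' : c t11 * v1 = c t12 * u1 := by
      rw [← hj, ← hj]
      exact_mod_cast e1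
    have e2' : c t22 * v2 = c t21 * u2 := by
      rw [← hj, ← hj]
      exact_mod_cast e2
    have e3' : (ent t12 l : ℝ) * v3 = ent t22 l * u3 := by exact_mod_cast e3
    have e4' : (ent t21 l : ℝ) * v4 = ent t11 l * u4 := by exact_mod_cast e4
    refine lt_of_le_of_lt (core_main hx0 hx1 (hcr _ x11) (hcr _ x12) (hcr _ x21) (hcr _ x22)
      (Nat.cast_nonneg _) (Nat.cast_nonneg _) (Nat.cast_nonneg _) (Nat.cast_nonneg _)
      (hE _ x11 g11) (hE _ x12 g12) (hE _ x21 g21) (hE _ x22 g22) (hs _) (hs _) (hs _) (hs _)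
      hU0.le hV0.le hUr hVr e1' e2' e3' e4') hfin
  · -- the entry `l` is the largest one
    subst h
    have hs : ∀ t : ℕ × ℕ, (ent t k : ℝ) + (ent t j : ℝ) = c t := by
      intro t
      have := sum_two t (Ne.symm h1) hk2 (Ne.symm h3)
      unfold c
      exact_mod_cast this
    have hj : ∀ t : ℕ × ℕ, (ent t 2 : ℝ) = c t := fun t => rfl
    have e1' : (ent t11 j : ℝ) * v1 = ent t12 j * u1 := by exact_mod_cast e1
    have e2' : (ent t22 j : ℝ) * v2 = ent t21 j * u2 := by exact_mod_cast e2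
    have e3' : c t12 * v3 = c t22 * u3 := by
      rw [← hj, ← hj]
      exact_mod_cast e3
    have e4' : c t21 * v4 = c t11 * u4 := by
      rw [← hj, ← hj]
      exact_mod_cast e4
    have hpu : (u3 : ℝ) * u4 * u2 * u1 = (u1 : ℝ) * u2 * u3 * u4 := by ring
    have hpv : (v3 : ℝ) * v4 * v2 * v1 = (v1 : ℝ) * v2 * v3 * v4 := by ring
    have hcm := core_main (M := y ^ 4) hx0 hx1 (hcr _ x12) (hcr _ x22) (hcr _ x11) (hcr _ x21)
      (Nat.cast_nonneg _) (Nat.cast_nonneg _) (Nat.cast_nonneg _) (Nat.cast_nonneg _)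
      (hE _ x12 g12) (hE _ x22 g22) (hE _ x11 g11) (hE _ x21 g21) (hs _) (hs _) (hs _) (hs _)
      (by rw [hpu]; exact hU0.le) (by rw [hpv]; exact hV0.le)
      (by rw [hpu]; exact hUr) (by rw [hpv]; exact hVr) e3' e4' e2' e1'
    rw [hpu, hpv] at hcm
    exact lt_of_le_of_lt hcm hfin

end Pool.Agent.Helper42.RT
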