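import Mathlib
import Pool.Agent.Helper42.RT.Defs

set_option autoImplicit false

open Finset
open Pool.Agent.Helper42.RO Pool.Agent.Helper44.RO2

namespace Pool.Agent.Helper42.RT

/-- The bound for one of the two numbers. -/
private lemma K1_bound {X : ℝ} (hX : 1 < X) {x y : ℕ} (h : key X x = key X y) :
    0 < ∏ p ∈ x.primeFactors, p ^ (x.factorization p - y.factorization p) ∧
    ((∏ p ∈ x.primeFactors, p ^ (x.factorization p - y.factorization p) : ℕ) : ℝ) ≤
      X ^ (1 / 32 : ℝ) := by
  have hX0 : 0 < X := by linarith
  have hL : 0 < Real.log X := Real.log_pos hX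
  have hpos : 0 < ∏ p ∈ x.primeFactors, p ^ (x.factorization p - y.factorization p) :=
    Finset.prod_pos fun p hp => pow_pos (Nat.prime_of_mem_primeFactors hp).pos _
  refine ⟨hpos, ?_⟩
  have hpos' : (0 : ℝ) <
      ((∏ p ∈ x.primeFactors, p ^ (x.factorization p - y.factorization p) : ℕ) : ℝ) := by
    exact_mod_cast hpos
  rw [← Real.log_le_log_iff hpos' (by positivity), Real.log_rpow hX0]
  push_cast
  rw [Real.log_prod (fun p hp => by
    have := (Nat.prime_of_mem_primeFactors hp).pos
    positivity)]
  have hterm : ∀ p ∈ x.primeFactors,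
      Real.log ((p : ℝ) ^ (x.factorization p - y.factorization p)) ≤
        Real.log X / 32 / x.primeFactors.card := by
    intro p hp
    rw [Real.log_pow]
    have h1 := val_of_key hX h hp
    have hlog : 0 ≤ Real.log (p : ℝ) := Real.log_natCast_nonneg p
    rcases le_total (x.factorization p) (y.factorization p) with hle | hle
    · rw [Nat.sub_eq_zero_of_le hle, Nat.cast_zero, zero_mul]
      positivity
    · rw [Nat.cast_sub hle, sub_mul]
      linarith
  refine (Finset.sum_le_sum hterm).trans ?_
  rw [Finset.sum_const, nsmul_eq_mul]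
  rcases Nat.eq_zero_or_pos x.primeFactors.card with h0 | h0
  · rw [h0, Nat.cast_zero, zero_mul]
    positivity
  · have h0' : (0 : ℝ) < x.primeFactors.card := by exact_mod_cast h0
    have h2 : (x.primeFactors.card : ℝ) * (Real.log X / 32 / x.primeFactors.card) =
        1 / 32 * Real.log X := by field_simp
    rw [h2]

/-- RT-K1. Numbers with the same key have a quotient of small height.
PROOF. Let `P` be the common set of prime divisors (`primeFactors_of_key`), `L = log X > 0`.
Put `u = ∏ p ∈ P, p ^ (x.factorization p - y.factorization p)` and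
`v = ∏ p ∈ P, p ^ (y.factorization p - x.factorization p)` (truncated subtraction).
`x = ∏ p ∈ P, p ^ x.factorization p` (`Nat.prod_factorization_pow_eq_self`), so `x * v = y * u`
because `a + (b - a) = b + (a - b)` in `ℕ`. By `val_of_key`,
`log u = ∑ p ∈ P, (x.factorization p - y.factorization p) * log p ≤ ∑ p ∈ P, L / 32 / P.card ≤ L / 32`
(each truncated term is `0` or at most `L / 32 / P.card`, and `P.card * (L / 32 / P.card) ≤ L / 32`);
the same for `v`. So `u, v ≤ exp (L / 32) = X ^ (1 / 32)`. -/
theorem near_of_key {X : ℝ} (hX : 1 < X) {x y : ℕ} (hx : x ≠ 0) (hy : y ≠ 0)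
    (h : key X x = key X y) : ∃ u v : ℕ, 0 < u ∧ 0 < v ∧ (u : ℝ) ≤ X ^ (1 / 32 : ℝ) ∧
      (v : ℝ) ≤ X ^ (1 / 32 : ℝ) ∧ x * v = y * u := by
  have hP := primeFactors_of_key h
  obtain ⟨hu0, hu⟩ := K1_bound hX h
  obtain ⟨hv0, hv⟩ := K1_bound hX h.symm
  refine ⟨_, _, hu0, hv0, hu, hv, ?_⟩
  have ex : x = ∏ p ∈ x.primeFactors, p ^ x.factorization p :=
    (Nat.prod_factorization_pow_eq_self hx).symm
  have ey : y = ∏ p ∈ y.primeFactors, p ^ y.factorization p :=
    (Nat.prod_factorization_pow_eq_self hy).symm
  calc x * ∏ p ∈ y.primeFactors, p ^ (y.factorization p - x.factorization p)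
      = (∏ p ∈ x.primeFactors, p ^ x.factorization p) *
          ∏ p ∈ x.primeFactors, p ^ (y.factorization p - x.factorization p) := by
        rw [← ex, hP]
    _ = ∏ p ∈ x.primeFactors,
          p ^ (x.factorization p + (y.factorization p - x.factorization p)) := by
        rw [← Finset.prod_mul_distrib]
        exact Finset.prod_congr rfl fun p _ => (pow_add _ _ _).symm
    _ = ∏ p ∈ x.primeFactors,
          p ^ (y.factorization p + (x.factorization p - y.factorization p)) := by
        refine Finset.prod_congr rfl fun p _ => ?_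
        congr 1
        omega
    _ = (∏ p ∈ y.primeFactors, p ^ y.factorization p) *
          ∏ p ∈ x.primeFactors, p ^ (x.factorization p - y.factorization p) := by
        rw [← hP, ← Finset.prod_mul_distrib]
        exact Finset.prod_congr rfl fun p _ => pow_add _ _ _
    _ = y * ∏ p ∈ x.primeFactors, p ^ (x.factorization p - y.factorization p) := by
        rw [← ey]

end Pool.Agent.Helper42.RT
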