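import Mathlib
import Pool.Agent.Helper42.RT.Defs

set_option autoImplicit false

open Finset
open Pool.Agent.Helper42.RO Pool.Agent.Helper44.RO2

namespace Pool.Agent.Helper42.RT

/-- RT-K2. Numbers with the same key have a large common divisor.
PROOF. Fix `x0 ∈ S` and `P = x0.primeFactors`, the set of prime divisors of every `x ∈ S`. Let
`D = ∏ p ∈ P, p ^ (S.inf' hS fun x => x.factorization p)`. It divides every `x ∈ S`. For `x ∈ S` and
`p ∈ P` let `y ∈ S` attain the minimum at `p` (`Finset.exists_mem_eq_inf'`); by `val_of_key`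
`v_p(x) log p ≤ v_p(y) log p + log X / 32 / P.card`. Sum over `p ∈ P`:
`log x ≤ log D + log X / 32`, so `x ≤ D * X ^ (1 / 32)`. -/
theorem common_of_key {X : ℝ} (hX : 1 < X) (S : Finset ℕ) (hS : S.Nonempty)
    (h0 : ∀ x ∈ S, x ≠ 0) (hk : ∀ x ∈ S, ∀ y ∈ S, key X x = key X y) :
    ∃ D : ℕ, 0 < D ∧ ∀ x ∈ S, D ∣ x ∧ (x : ℝ) ≤ D * X ^ (1 / 32 : ℝ) := by
  classical
  obtain ⟨x0, hx0⟩ := id hS
  have hP : ∀ x ∈ S, x.primeFactors = x0.primeFactors := fun x hx =>
    primeFactors_of_key (hk x hx x0 hx0)
  have hpos : ∀ p ∈ x0.primeFactors, 0 < p := fun p hp => (Nat.prime_of_mem_primeFactors hp).pos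
  have hfac : ∀ x ∈ S, ∏ p ∈ x0.primeFactors, p ^ x.factorization p = x := by
    intro x hx
    rw [← hP x hx]
    exact Nat.prod_factorization_pow_eq_self (h0 x hx)
  refine ⟨∏ p ∈ x0.primeFactors, p ^ (S.inf' hS fun x => x.factorization p),
    Finset.prod_pos fun p hp => pow_pos (hpos p hp) _, fun x hx => ⟨?_, ?_⟩⟩
  · have h1 : (∏ p ∈ x0.primeFactors, p ^ (S.inf' hS fun x => x.factorization p)) ∣
        ∏ p ∈ x0.primeFactors, p ^ x.factorization p := by
      refine Finset.prod_dvd_prod_of_dvd _ _ fun p _ => pow_dvd_pow p ?_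
      exact Finset.inf'_le _ hx
    rwa [hfac x hx] at h1
  · set c : ℝ := Real.exp (Real.log X / 32 / x0.primeFactors.card) with hc
    have hterm : ∀ p ∈ x0.primeFactors, (p : ℝ) ^ x.factorization p ≤
        (p : ℝ) ^ (S.inf' hS fun x => x.factorization p) * c := by
      intro p hp
      have hp0 : (0 : ℝ) < p := by exact_mod_cast hpos p hp
      obtain ⟨y, hy, hyv⟩ := Finset.exists_mem_eq_inf' hS (fun x : ℕ => x.factorization p)
      rw [hyv]
      have hpx : p ∈ x.primeFactors := by rw [hP x hx]; exact hp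
      have h1 := val_of_key hX (hk x hx y hy) hpx
      rw [hP x hx] at h1
      have h2 := Real.exp_le_exp.2 h1
      rw [Real.exp_add, Real.exp_nat_mul, Real.exp_nat_mul, Real.exp_log hp0] at h2
      exact h2
    have hx1 : (x : ℝ) = ∏ p ∈ x0.primeFactors, (p : ℝ) ^ x.factorization p := by
      have h1 := hfac x hx
      have h2 : ((∏ p ∈ x0.primeFactors, p ^ x.factorization p : ℕ) : ℝ) = (x : ℝ) := by
        rw [h1]
      rw [← h2]
      push_cast
      rfl
    have hD : ((∏ p ∈ x0.primeFactors, p ^ (S.inf' hS fun x => x.factorization p) : ℕ) : ℝ) =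
        ∏ p ∈ x0.primeFactors, (p : ℝ) ^ (S.inf' hS fun x => x.factorization p) := by
      push_cast
      rfl
    have hcc : c ^ x0.primeFactors.card ≤ X ^ (1 / 32 : ℝ) := by
      rw [hc, ← Real.exp_nat_mul, Real.rpow_def_of_pos (by linarith)]
      apply Real.exp_le_exp.2
      have hL := Real.log_pos hX
      rcases Nat.eq_zero_or_pos x0.primeFactors.card with h | h
      · rw [h]
        simp only [Nat.cast_zero, zero_mul]
        positivity
      · have h' : (x0.primeFactors.card : ℝ) ≠ 0 := by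
          exact_mod_cast h.ne'
        have e : (x0.primeFactors.card : ℝ) * (Real.log X / 32 / x0.primeFactors.card) =
            Real.log X / 32 := by
          field_simp
        rw [e]
        linarith
    calc (x : ℝ) = ∏ p ∈ x0.primeFactors, (p : ℝ) ^ x.factorization p := hx1
      _ ≤ ∏ p ∈ x0.primeFactors,
          ((p : ℝ) ^ (S.inf' hS fun x => x.factorization p) * c) :=
        Finset.prod_le_prod (fun p _ => by positivity) hterm
      _ = (∏ p ∈ x0.primeFactors, (p : ℝ) ^ (S.inf' hS fun x => x.factorization p)) *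
          c ^ x0.primeFactors.card := by
        rw [Finset.prod_mul_distrib, Finset.prod_const]
      _ ≤ (∏ p ∈ x0.primeFactors, (p : ℝ) ^ (S.inf' hS fun x => x.factorization p)) *
          X ^ (1 / 32 : ℝ) := by
        refine mul_le_mul_of_nonneg_left hcc ?_
        exact Finset.prod_nonneg fun p _ => by positivity
      _ = _ := by rw [hD]

end Pool.Agent.Helper42.RT
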