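import Mathlib
import Pool.Agent.Helper42.RT.K1
import Pool.Agent.Helper42.RT.K2
import Pool.Agent.Helper42.RT.B1
import Pool.Agent.Helper42.RT.B2

set_option autoImplicit false

open Finset
open Pool.Agent.Helper42.RO Pool.Agent.Helper44.RO2

namespace Pool.Agent.Helper42.RT

/-- RT-B3a. The four-cycle lemma. -/
theorem four_cycle {k j l : Fin 3} (h1 : k ≠ j) (h2 : l ≠ k) (h3 : l ≠ j) {X : ℝ} (hX : 4096 ≤ X)
    {t11 t12 t21 t22 : ℕ × ℕ} (c11 : Cop t11) (c12 : Cop t12) (c21 : Cop t21) (c22 : Cop t22)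
    (x11 : X < c t11) (x12 : X < c t12) (x21 : X < c t21) (x22 : X < c t22)
    (k12 : key X (ent t12 k) = key X (ent t11 k)) (k21 : key X (ent t21 k) = key X (ent t11 k))
    (k22 : key X (ent t22 k) = key X (ent t11 k))
    (j1 : key X (ent t11 j) = key X (ent t12 j)) (j2 : key X (ent t21 j) = key X (ent t22 j))
    (l1 : key X (ent t11 l) = key X (ent t21 l)) (l2 : key X (ent t12 l) = key X (ent t22 l)) :
    ent t11 j * ent t22 j * (ent t12 l * ent t21 l) =
      ent t12 j * ent t21 j * (ent t11 l * ent t22 l) := by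
  classical
  have hX1 : 1 < X := by linarith
  obtain ⟨u1, v1, pu1, pv1, bu1, bv1, e1⟩ := near_of_key hX1 (ent_ne c11 j) (ent_ne c12 j) j1
  obtain ⟨u2, v2, pu2, pv2, bu2, bv2, e2⟩ := near_of_key hX1 (ent_ne c22 j) (ent_ne c21 j) j2.symm
  obtain ⟨u3, v3, pu3, pv3, bu3, bv3, e3⟩ := near_of_key hX1 (ent_ne c12 l) (ent_ne c22 l) l2
  obtain ⟨u4, v4, pu4, pv4, bu4, bv4, e4⟩ := near_of_key hX1 (ent_ne c21 l) (ent_ne c11 l) l1.symm
  obtain ⟨D, hD, hDx⟩ := common_of_key hX1
    ({ent t11 k, ent t12 k, ent t21 k, ent t22 k} : Finset ℕ) (by simp)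
    (by
      intro x hx
      simp only [mem_insert, mem_singleton] at hx
      rcases hx with rfl | rfl | rfl | rfl
      · exact ent_ne c11 k
      · exact ent_ne c12 k
      · exact ent_ne c21 k
      · exact ent_ne c22 k)
    (by
      have key1 : ∀ x ∈ ({ent t11 k, ent t12 k, ent t21 k, ent t22 k} : Finset ℕ),
          key X x = key X (ent t11 k) := by
        intro x hx
        simp only [mem_insert, mem_singleton] at hx
        rcases hx with rfl | rfl | rfl | rfl
        · rfl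
        · exact k12
        · exact k21
        · exact k22
      intro x hx y hy
      rw [key1 x hx, key1 y hy])
  obtain ⟨d11, m11⟩ := hDx (ent t11 k) (by simp)
  obtain ⟨d12, m12⟩ := hDx (ent t12 k) (by simp)
  obtain ⟨d21, m21⟩ := hDx (ent t21 k) (by simp)
  obtain ⟨d22, m22⟩ := hDx (ent t22 k) (by simp)
  have hdvd := core_dvd h1 h2 h3 c11 c12 c21 c22 d11 d12 d21 d22 e1 e2 e3 e4
  have hsize := core_size h1 h2 h3 hX hD c11 c12 c21 c22 x11 x12 x21 x22 m11 m12 m21 m22
    pu1 pv1 pu2 pv2 pu3 pv3 pu4 pv4 bu1 bv1 bu2 bv2 bu3 bv3 bu4 bv4 e1 e2 e3 e4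
  have hzero := Int.eq_zero_of_abs_lt_dvd hdvd hsize
  have huv : u1 * u2 * u3 * u4 = v1 * v2 * v3 * v4 := by
    have : ((u1 * u2 * u3 * u4 : ℕ) : ℤ) = ((v1 * v2 * v3 * v4 : ℕ) : ℤ) := by linarith
    exact_mod_cast this
  have hpos : 0 < v1 * v2 * v3 * v4 := by positivity
  apply Nat.eq_of_mul_eq_mul_right hpos
  calc ent t11 j * ent t22 j * (ent t12 l * ent t21 l) * (v1 * v2 * v3 * v4)
      = (ent t11 j * v1) * (ent t22 j * v2) * ((ent t12 l * v3) * (ent t21 l * v4)) := by ring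
    _ = (ent t12 j * u1) * (ent t21 j * u2) * ((ent t22 l * u3) * (ent t11 l * u4)) := by
        rw [e1, e2, e3, e4]
    _ = ent t12 j * ent t21 j * (ent t11 l * ent t22 l) * (u1 * u2 * u3 * u4) := by ring
    _ = ent t12 j * ent t21 j * (ent t11 l * ent t22 l) * (v1 * v2 * v3 * v4) := by rw [huv]

/-- Two pairs with `G F' = F G'` coincide. -/
lemma eq_of_ratio {k j l : Fin 3} (_h1 : k ≠ j) (_h2 : l ≠ k) (h3 : l ≠ j) {t t' : ℕ × ℕ}
    (ht : Cop t) (ht' : Cop t') (h : ent t j * ent t' l = ent t l * ent t' j) : t = t' := by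
  have hc := ent_coprime ht (Ne.symm h3)
  have hc' := ent_coprime ht' (Ne.symm h3)
  have d1 : ent t j ∣ ent t' j := by
    have : ent t j ∣ ent t l * ent t' j := ⟨ent t' l, h.symm⟩
    exact hc.dvd_of_dvd_mul_left this
  have d2 : ent t' j ∣ ent t j := by
    have : ent t' j ∣ ent t j * ent t' l := ⟨ent t l, by rw [h]; ring⟩
    exact hc'.dvd_of_dvd_mul_right this
  have e1 : ent t j = ent t' j := Nat.dvd_antisymm d1 d2
  have e2 : ent t l = ent t' l := by
    rw [e1] at h
    have h4 : ent t' j * ent t' l = ent t' j * ent t l := by rw [h]; ring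
    exact (Nat.eq_of_mul_eq_mul_left (ent_pos ht' j) h4).symm
  exact ent_inj (Ne.symm h3) e1 e2

/-- RT-B3b. Pairs with the same three keys coincide. -/
theorem key_unique {k j l : Fin 3} (h1 : k ≠ j) (h2 : l ≠ k) (h3 : l ≠ j) {X : ℝ} (hX : 4096 ≤ X)
    {t t' : ℕ × ℕ} (ht : Cop t) (ht' : Cop t') (x : X < c t) (x' : X < c t')
    (hk : key X (ent t k) = key X (ent t' k)) (hj : key X (ent t j) = key X (ent t' j))
    (hl : key X (ent t l) = key X (ent t' l)) : t = t' := by
  have h := four_cycle h1 h2 h3 hX ht ht' ht' ht' x x' x' x' hk.symm hk.symm hk.symm hj rfl hl rfl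
  apply eq_of_ratio h1 h2 h3 ht ht'
  have hp : 0 < ent t' j * ent t' l := Nat.mul_pos (ent_pos ht' j) (ent_pos ht' l)
  apply Nat.eq_of_mul_eq_mul_right hp
  calc ent t j * ent t' l * (ent t' j * ent t' l)
      = ent t j * ent t' j * (ent t' l * ent t' l) := by ring
    _ = ent t' j * ent t' j * (ent t l * ent t' l) := h
    _ = ent t l * ent t' j * (ent t' j * ent t' l) := by ring

end Pool.Agent.Helper42.RT
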