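import Mathlib
import Pool.Agent.Helper42.RT.Defs
import Pool.Agent.Helper42.RO.A2

set_option autoImplicit false

open Finset
open Pool.Agent.Helper42.RO Pool.Agent.Helper44.RO2

namespace Pool.Agent.Helper42.RT

private theorem C1_log_part (m n : ℕ) :
    Real.log (part m n) = ∑ p ∈ m.primeFactors, (n.factorization p : ℝ) * Real.log p := by
  unfold part
  rw [Nat.cast_prod, Real.log_prod]
  · refine Finset.sum_congr rfl fun p _ => ?_
    rw [Nat.cast_pow, Real.log_pow]
  · intro p hp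
    have h1 := (Nat.prime_of_mem_primeFactors hp).pos
    positivity

private theorem C1_sum_le (m : ℕ) {n : ℕ} (hn : n ≠ 0) :
    ∑ p ∈ m.primeFactors, (n.factorization p : ℝ) * Real.log p ≤ Real.log n := by
  have h1 := C1_log_part (rad n) n
  rw [part_self hn, rad_primeFactors] at h1
  rw [h1]
  have h2 : ∑ p ∈ m.primeFactors, (n.factorization p : ℝ) * Real.log p =
      ∑ p ∈ m.primeFactors.filter (fun p => p ∈ n.primeFactors),
        (n.factorization p : ℝ) * Real.log p := by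
    rw [Finset.sum_filter_of_ne]
    intro p _ hne
    by_contra hp
    rw [← Nat.support_factorization, Finsupp.notMem_support_iff] at hp
    rw [hp] at hne
    simp at hne
  rw [h2]
  refine Finset.sum_le_sum_of_subset_of_nonneg (fun p hp => (Finset.mem_filter.1 hp).2) ?_
  intro p _ _
  exact mul_nonneg (Nat.cast_nonneg _) (Real.log_natCast_nonneg p)

private theorem C1_floor {x y z : ℝ} (hz : 0 < z) (hy : 0 ≤ y) (h : ⌊x / z⌋₊ = ⌊y / z⌋₊) :
    x ≤ y + z := by
  have h1 : x / z < (⌊x / z⌋₊ : ℝ) + 1 := Nat.lt_floor_add_one _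
  have h2 : ((⌊y / z⌋₊ : ℕ) : ℝ) ≤ y / z := Nat.floor_le (div_nonneg hy hz.le)
  rw [h] at h1
  have h3 : x / z < y / z + 1 := by linarith
  have h4 : y / z + 1 = (y + z) / z := by field_simp
  rw [h4] at h3
  exact ((div_lt_div_iff_of_pos_right hz).1 h3).le

private theorem C1_core {η ℓ : ℝ} {m s Δ : ℕ} (h0 : 0 < η) (h1' : η ≤ 1) (hℓ : 0 < ℓ) (hs : 1 ≤ s)
    (hs' : m.primeFactors.card ≤ s) (hΔ : Δ.Coprime m) {t t' : ℕ × ℕ} (ht : Cop t) (ht' : Cop t')
    (hc : ℓ < Real.log (c t)) (hd : Δ ∣ t.2) (hd' : Δ ∣ t'.2) (hp : T t = Δ * part m (T t))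
    (hl : ∀ p ∈ m.primeFactors, (p ∣ t.1 ↔ p ∣ t'.1) ∧ (p ∣ t.2 ↔ p ∣ t'.2) ∧
      (p ∣ t.1 + t.2 ↔ p ∣ t'.1 + t'.2))
    (hk : ∀ p ∈ m.primeFactors, ((T t).factorization p : ℝ) * Real.log p ≤
      ((T t').factorization p : ℝ) * Real.log p + η / 8 * ℓ / s)
    (ha : Real.log t'.1 ≤ Real.log t.1 + η / 8 * ℓ)
    (hb : Real.log t'.2 ≤ Real.log t.2 + η / 8 * ℓ) : t = t' := by
  by_contra hne
  have hs0 : (0 : ℝ) < s := by exact_mod_cast hs
  have hD := det_ne ht ht' hne
  have hG := G_dvd m ht ht' hl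
  set G : ℕ := ∏ p ∈ m.primeFactors,
    p ^ (min ((T t).factorization p) ((T t').factorization p)) with hGdef
  have hGpos : 0 < G := Finset.prod_pos fun p hp => pow_pos (Nat.prime_of_mem_primeFactors hp).pos _
  have hΔpos : 0 < Δ := by
    rcases Nat.eq_zero_or_pos Δ with h | h
    · exfalso
      rw [h, zero_mul] at hp
      exact ht.T_ne hp
    · exact h
  have hcop : Nat.Coprime Δ G := by
    rw [hGdef]
    refine Nat.Coprime.prod_right fun p hp => ?_
    exact (Nat.Coprime.coprime_dvd_right (Nat.dvd_of_mem_primeFactors hp) hΔ).pow_right _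
  have hΔd : (Δ : ℤ) ∣ (t.1 : ℤ) * t'.2 - t'.1 * t.2 := by
    refine dvd_sub ?_ ?_
    · exact Dvd.dvd.mul_left (Int.natCast_dvd_natCast.2 hd') _
    · exact Dvd.dvd.mul_left (Int.natCast_dvd_natCast.2 hd) _
  have hGd2 : ((Δ * G : ℕ) : ℤ) ∣ (t.1 : ℤ) * t'.2 - t'.1 * t.2 := by
    rw [Nat.cast_mul]
    exact (Nat.isCoprime_iff_coprime.2 hcop).mul_dvd hΔd hG
  have hGle : ((Δ * G : ℕ) : ℤ) ≤ |(t.1 : ℤ) * t'.2 - t'.1 * t.2| :=
    Int.le_of_dvd (abs_pos.2 hD) ((dvd_abs _ _).2 hGd2)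
  have p1 : (0 : ℝ) < t.1 := by exact_mod_cast ht.pos1
  have p2 : (0 : ℝ) < t.2 := by exact_mod_cast ht.pos2
  have p1' : (0 : ℝ) < t'.1 := by exact_mod_cast ht'.pos1
  have p2' : (0 : ℝ) < t'.2 := by exact_mod_cast ht'.pos2
  have hG0 : (0 : ℝ) < G := by exact_mod_cast hGpos
  have hΔ0 : (0 : ℝ) < Δ := by exact_mod_cast hΔpos
  have hGR : (Δ : ℝ) * G ≤ |(t.1 : ℝ) * t'.2 - t'.1 * t.2| := by
    have h := hGle
    exact_mod_cast h
  have hlogD : Real.log Δ + Real.log G ≤ Real.log t.1 + Real.log t.2 + η / 8 * ℓ := by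
    rw [← Real.log_mul hΔ0.ne' hG0.ne']
    have hDG0 : (0 : ℝ) < (Δ : ℝ) * G := mul_pos hΔ0 hG0
    have h1 : (Δ : ℝ) * G ≤ (t.1 : ℝ) * t'.2 ∨ (Δ : ℝ) * G ≤ (t'.1 : ℝ) * t.2 := by
      rcases abs_cases ((t.1 : ℝ) * t'.2 - t'.1 * t.2) with h | h
      · left
        have := mul_pos p1' p2
        linarith
      · right
        have := mul_pos p1 p2'
        linarith
    rcases h1 with h1 | h1
    · have h2 := Real.log_le_log hDG0 h1
      rw [Real.log_mul p1.ne' p2'.ne'] at h2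
      linarith
    · have h2 := Real.log_le_log hDG0 h1
      rw [Real.log_mul p1'.ne' p2.ne'] at h2
      linarith
  have hlogG : Real.log (part m (T t)) - η / 8 * ℓ ≤ Real.log G := by
    rw [C1_log_part, hGdef, Nat.cast_prod, Real.log_prod]
    · have h2 : ∑ p ∈ m.primeFactors, (((T t).factorization p : ℝ) * Real.log p -
          η / 8 * ℓ / s) ≤ ∑ p ∈ m.primeFactors, Real.log
          ((p ^ (min ((T t).factorization p) ((T t').factorization p)) : ℕ) : ℝ) := by
        refine Finset.sum_le_sum fun p hp => ?_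
        have hlp : 0 ≤ Real.log p := Real.log_natCast_nonneg p
        rw [Nat.cast_pow, Real.log_pow]
        rcases le_total ((T t).factorization p) ((T t').factorization p) with h | h
        · rw [min_eq_left h]
          have : 0 ≤ η / 8 * ℓ / s := by positivity
          linarith
        · rw [min_eq_right h]
          have := hk p hp
          linarith
      rw [Finset.sum_sub_distrib, Finset.sum_const, nsmul_eq_mul] at h2
      have h3 : (m.primeFactors.card : ℝ) * (η / 8 * ℓ / s) ≤ η / 8 * ℓ := by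
        have h4 : (m.primeFactors.card : ℝ) ≤ s := by exact_mod_cast hs'
        calc (m.primeFactors.card : ℝ) * (η / 8 * ℓ / s) ≤ s * (η / 8 * ℓ / s) :=
              mul_le_mul_of_nonneg_right h4 (by positivity)
          _ = η / 8 * ℓ := by field_simp
      linarith
    · intro p hp
      have h1 := (Nat.prime_of_mem_primeFactors hp).pos
      positivity
  have hlogp : Real.log Δ + Real.log (part m (T t)) =
      Real.log t.1 + Real.log t.2 + Real.log (c t) := by
    have hc0 := ht.c_pos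
    have hpp : (0 : ℝ) < (part m (T t) : ℕ) := by exact_mod_cast part_pos m (T t)
    rw [← Real.log_mul hΔ0.ne' hpp.ne', ← Real.log_mul p1.ne' p2.ne',
      ← Real.log_mul (mul_pos p1 p2).ne' hc0.ne']
    congr 1
    have h1 : ((T t : ℕ) : ℝ) = ((Δ * part m (T t) : ℕ) : ℝ) := by
      rw [← hp]
    rw [Nat.cast_mul] at h1
    rw [← h1]
    unfold T c
    push_cast
    ring
  have h6 : η / 8 * ℓ ≤ 1 / 8 * ℓ := mul_le_mul_of_nonneg_right (by linarith) hℓ.le
  linarith

private theorem C1_count (w s M N : ℕ) (hs : s ≤ w + 1) :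
    2 ^ (M * s + w) * (2 ^ w * (2 ^ w * (2 ^ w * ((N + 1) * (N + 1))))) ≤
      (16 * (N + 1) ^ 2 * 2 ^ M) ^ (w + 1) := by
  have h1 : 2 ^ (M * s + w) ≤ (2 ^ M) ^ (w + 1) * 2 ^ w := by
    rw [← pow_mul, ← pow_add]
    exact Nat.pow_le_pow_right (by norm_num) (Nat.add_le_add_right (Nat.mul_le_mul_left M hs) w)
  have h2 : (N + 1) * (N + 1) ≤ ((N + 1) ^ 2) ^ (w + 1) := by
    calc (N + 1) * (N + 1) = ((N + 1) ^ 2) ^ 1 := by ring
      _ ≤ _ := Nat.pow_le_pow_right (by positivity) (by omega)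
  have h3 : 2 ^ w * (2 ^ w * (2 ^ w * 2 ^ w)) ≤ 16 ^ (w + 1) := by
    calc 2 ^ w * (2 ^ w * (2 ^ w * 2 ^ w)) = 16 ^ w := by
          rw [← mul_pow, ← mul_pow, ← mul_pow]
          norm_num
      _ ≤ _ := Nat.pow_le_pow_right (by norm_num) (by omega)
  calc 2 ^ (M * s + w) * (2 ^ w * (2 ^ w * (2 ^ w * ((N + 1) * (N + 1)))))
      ≤ ((2 ^ M) ^ (w + 1) * 2 ^ w) *
        (2 ^ w * (2 ^ w * (2 ^ w * (((N + 1) ^ 2) ^ (w + 1))))) :=
        Nat.mul_le_mul h1 (Nat.mul_le_mul_left _ (Nat.mul_le_mul_left _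
          (Nat.mul_le_mul_left _ h2)))
    _ = (2 ^ w * (2 ^ w * (2 ^ w * 2 ^ w))) * (((N + 1) ^ 2) ^ (w + 1) * (2 ^ M) ^ (w + 1)) := by
        ring
    _ ≤ 16 ^ (w + 1) * (((N + 1) ^ 2) ^ (w + 1) * (2 ^ M) ^ (w + 1)) :=
        Nat.mul_le_mul_right _ h3
    _ = _ := by rw [mul_pow, mul_pow, mul_assoc]

/-- The labels of a pair. -/
private noncomputable def C1_lab (m : ℕ) (z : ℝ) (t : ℕ × ℕ) :
    Finset ℕ × Finset ℕ × Finset ℕ × ℕ × ℕ :=
  (m.primeFactors.filter (fun p => p ∣ t.1), m.primeFactors.filter (fun p => p ∣ t.2),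
    m.primeFactors.filter (fun p => p ∣ t.1 + t.2), ⌊Real.log t.1 / z⌋₊, ⌊Real.log t.2 / z⌋₊)

/-- RT-C1. The gap principle with a fixed divisor `Δ`, in one range `X < c ≤ X ^ (9 / 8)`.
PROOF. Copy the proof of `Pool.Agent.Helper42.RO.gp_cell` (file `Helper42/RO/A2.lean`) with `η = 1`. The only
change is in `A2_core`: there `G = ∏ p ∈ m.primeFactors, p ^ min (v_p, v_p')` divides the determinant
`t.1 t'.2 - t'.1 t.2`; now `Δ` divides `t.2` and `t'.2`, so `Δ` divides the determinant too, and `Δ` is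
coprime to `G` (`Δ.Coprime m`), so `Δ * G` divides it. And `Δ * part m (T t) = T t = a b c`, so (cells of
`v_p log p` as before) `Δ G ≥ a b c X ^ (-1 / 8)`, while `|t.1 t'.2 - t'.1 t.2| ≤ a b X ^ (1 / 8)`,
contradicting `c > X`. -/
theorem gp_cell_delta : ∃ K : ℝ, 1 ≤ K ∧ ∀ (m Δ : ℕ) (X : ℝ), 1 < X → Δ.Coprime m →
    ∀ S : Finset (ℕ × ℕ), (∀ t ∈ S, Cop t ∧ X < c t ∧ c t ≤ X ^ (9 / 8 : ℝ) ∧ Δ ∣ t.2 ∧
      T t = Δ * part m (T t)) → (S.card : ℝ) ≤ K ^ (m.primeFactors.card + 1) := by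
  classical
  obtain ⟨ε, hε⟩ : ∃ ε : ℝ, ε = 1 / 8 := ⟨_, rfl⟩
  have hε0 : 0 < ε := by rw [hε]; norm_num
  have hε1 : ε ≤ 1 / 8 := hε.le
  set N : ℕ := ⌊(1 + ε) / ε⌋₊ with hN
  set M : ℕ := ⌈4 / ε⌉₊ with hM
  refine ⟨((16 * (N + 1) ^ 2 * 2 ^ M : ℕ) : ℝ), ?_, ?_⟩
  · have : 1 ≤ 16 * (N + 1) ^ 2 * 2 ^ M := Nat.succ_le_of_lt (by positivity)
    exact_mod_cast this
  intro m Δ X hX hΔ S hS
  set w : ℕ := m.primeFactors.card with hw
  set s : ℕ := max 1 w with hs
  have hs1 : 1 ≤ s := le_max_left _ _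
  have hws : w ≤ s := le_max_right _ _
  have hsw : s ≤ w + 1 := max_le (by omega) (by omega)
  have hs0 : (0 : ℝ) < s := by exact_mod_cast hs1
  have hX0 : 0 < X := by linarith
  set l : ℝ := Real.log X with hl
  have hl0 : 0 < l := Real.log_pos hX
  have hεl : 0 < ε * l := mul_pos hε0 hl0
  have hεls : 0 < ε * l / s := div_pos hεl hs0
  have hlc : ∀ t ∈ S, l < Real.log (c t) ∧ Real.log (c t) ≤ (1 + ε) * l := by
    intro t ht
    obtain ⟨_, h2, h3, _, _⟩ := hS t ht
    refine ⟨Real.log_lt_log hX0 h2, ?_⟩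
    have h4 := Real.log_le_log (lt_trans hX0 h2) h3
    rw [Real.log_rpow hX0] at h4
    have h5 : (9 / 8 : ℝ) * Real.log X = (1 + ε) * l := by rw [hε, hl]; ring
    rwa [h5] at h4
  have hmaps : ∀ t ∈ S, C1_lab m (ε * l) t ∈ m.primeFactors.powerset ×ˢ
      (m.primeFactors.powerset ×ˢ (m.primeFactors.powerset ×ˢ
        (Finset.range (N + 1) ×ˢ Finset.range (N + 1)))) := by
    intro t ht
    obtain ⟨hcop, _, _, _, _⟩ := hS t ht
    have hfl : ∀ x : ℕ, 0 < x → (x : ℝ) ≤ c t → ⌊Real.log x / (ε * l)⌋₊ < N + 1 := by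
      intro x hx hxc
      rw [Nat.lt_add_one_iff, hN]
      apply Nat.floor_le_floor
      rw [div_le_div_iff₀ hεl hε0]
      have h5 : Real.log x ≤ (1 + ε) * l :=
        (Real.log_le_log (by exact_mod_cast hx) hxc).trans (hlc t ht).2
      calc Real.log x * ε ≤ (1 + ε) * l * ε := mul_le_mul_of_nonneg_right h5 hε0.le
        _ = (1 + ε) * (ε * l) := by ring
    simp only [C1_lab, Finset.mem_product, Finset.mem_powerset, Finset.filter_subset,
      Finset.mem_range, true_and]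
    refine ⟨hfl _ hcop.pos1 ?_, hfl _ hcop.pos2 ?_⟩
    · unfold c
      exact_mod_cast Nat.le_add_right _ _
    · unfold c
      exact_mod_cast Nat.le_add_left _ _
  have hfib : ∀ b ∈ m.primeFactors.powerset ×ˢ
      (m.primeFactors.powerset ×ˢ (m.primeFactors.powerset ×ˢ
        (Finset.range (N + 1) ×ˢ Finset.range (N + 1)))),
      (S.filter fun t => C1_lab m (ε * l) t = b).card ≤ 2 ^ (M * s + w) := by
    intro b _
    refine card_le_of_sum_le m.primeFactors (M * s) _
      (fun t p => ⌊((T t).factorization p : ℝ) * Real.log p / (ε * l / s)⌋₊) ?_ ?_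
    · intro t ht
      rw [Finset.mem_filter] at ht
      have hcop := (hS t ht.1).1
      have h2 : ((∑ p ∈ m.primeFactors,
          ⌊((T t).factorization p : ℝ) * Real.log p / (ε * l / s)⌋₊ : ℕ) : ℝ) ≤ (M * s : ℕ) := by
        rw [Nat.cast_sum]
        calc ∑ p ∈ m.primeFactors,
            ((⌊((T t).factorization p : ℝ) * Real.log p / (ε * l / s)⌋₊ : ℕ) : ℝ)
            ≤ ∑ p ∈ m.primeFactors, ((T t).factorization p : ℝ) * Real.log p / (ε * l / s) := by
              refine Finset.sum_le_sum fun p _ => Nat.floor_le ?_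
              exact div_nonneg (mul_nonneg (Nat.cast_nonneg _) (Real.log_natCast_nonneg p))
                hεls.le
          _ = (∑ p ∈ m.primeFactors, ((T t).factorization p : ℝ) * Real.log p) / (ε * l / s) := by
              rw [Finset.sum_div]
          _ ≤ (3 * ((1 + ε) * l)) / (ε * l / s) := by
              refine div_le_div_of_nonneg_right ?_ hεls.le
              have h3 := C1_sum_le m hcop.T_ne
              have h4 := log_T_le hcop
              have h5 := (hlc t ht.1).2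
              linarith
          _ = 3 * (1 + ε) / ε * s := by
              field_simp
          _ ≤ 4 / ε * s := by
              refine mul_le_mul_of_nonneg_right ?_ hs0.le
              refine div_le_div_of_nonneg_right ?_ hε0.le
              linarith
          _ ≤ M * s := mul_le_mul_of_nonneg_right (Nat.le_ceil _) hs0.le
          _ = _ := by push_cast; ring
      exact_mod_cast h2
    · intro t ht t' ht' hk
      rw [Finset.mem_filter] at ht ht'
      obtain ⟨hcop, _, _, hd, hp⟩ := hS t ht.1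
      have hcop' := (hS t' ht'.1).1
      have hd' := (hS t' ht'.1).2.2.2.1
      have hL : C1_lab m (ε * l) t' = C1_lab m (ε * l) t := ht'.2.trans ht.2.symm
      simp only [C1_lab, Prod.mk.injEq] at hL
      obtain ⟨e1, e2, e3, e4, e5⟩ := hL
      rw [Finset.filter_inj'] at e1 e2 e3
      refine C1_core (η := 1) (s := s) one_pos le_rfl hl0 hs1 hws hΔ hcop hcop' (hlc t ht.1).1 hd hd' hp
        ?_ ?_ ?_ ?_
      · intro p hp
        exact ⟨(e1 hp).symm, (e2 hp).symm, (e3 hp).symm⟩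
      · intro p hp
        rw [← hε]
        exact C1_floor hεls (mul_nonneg (Nat.cast_nonneg _) (Real.log_natCast_nonneg p)) (hk p hp)
      · rw [← hε]
        exact C1_floor hεl (Real.log_natCast_nonneg _) e4
      · rw [← hε]
        exact C1_floor hεl (Real.log_natCast_nonneg _) e5
  have hcard := Finset.card_le_mul_card_image_of_maps_to hmaps _ hfib
  rw [Finset.card_product, Finset.card_product, Finset.card_product, Finset.card_product,
    Finset.card_powerset, Finset.card_range, ← hw] at hcard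
  have hfin := hcard.trans (C1_count w s M N hsw)
  exact_mod_cast hfin


end Pool.Agent.Helper42.RT
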