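import Mathlib
import Pool.Agent.Helper42.RT.Defs

set_option autoImplicit false

open Finset
open Pool.Agent.Helper42.RO Pool.Agent.Helper44.RO2

namespace Pool.Agent.Helper42.RT

/-- The reduced numerator of `F' E / (F E')` (`E = ent t k`, `F = ent t l`, dashes for `t'`). -/
def aa (k l : Fin 3) (t t' : ℕ × ℕ) : ℕ :=
  ent t' l * ent t k / Nat.gcd (ent t' l * ent t k) (ent t l * ent t' k)

/-- The reduced denominator of `F' E / (F E')`. -/
def bb (k l : Fin 3) (t t' : ℕ × ℕ) : ℕ :=
  ent t l * ent t' k / Nat.gcd (ent t' l * ent t k) (ent t l * ent t' k)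

/-- The auxiliary pair of the codegree argument. -/
def tau (k l : Fin 3) (t t' : ℕ × ℕ) : ℕ × ℕ :=
  (min (aa k l t t') (bb k l t t'),
    max (aa k l t t') (bb k l t t') - min (aa k l t t') (bb k l t t'))

/-- The part of `n` prime to `m`. -/
def freep (m n : ℕ) : ℕ := n / part m n

lemma part_dvd (m : ℕ) {n : ℕ} (hn : n ≠ 0) : part m n ∣ n := by
  unfold part
  rw [← Nat.prod_factorization_pow_eq_self hn]
  conv_rhs => rw [Finsupp.prod, Nat.support_factorization]
  have h1 : ∏ p ∈ m.primeFactors, p ^ (n.factorization.prod fun p k => p ^ k).factorization p =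
      ∏ p ∈ m.primeFactors.filter (fun p => p ∈ n.primeFactors), p ^ n.factorization p := by
    rw [Nat.prod_factorization_pow_eq_self hn, Finset.prod_filter_of_ne]
    intro p _ hne
    by_contra hp
    rw [← Nat.support_factorization, Finsupp.notMem_support_iff] at hp
    rw [hp] at hne
    simp at hne
  rw [h1]
  exact Finset.prod_dvd_prod_of_subset _ _ _ fun p hp => (Finset.mem_filter.1 hp).2

lemma freep_mul_part (m : ℕ) {n : ℕ} (hn : n ≠ 0) : freep m n * part m n = n :=
  Nat.div_mul_cancel (part_dvd m hn)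

lemma freep_coprime {m n : ℕ} (hm : m ≠ 0) (hn : n ≠ 0) : (freep m n).Coprime m := by
  rw [Nat.coprime_iff_gcd_eq_one]
  by_contra hne
  obtain ⟨p, hp, hpd⟩ := Nat.exists_prime_and_dvd hne
  have h1 : p ∣ freep m n := hpd.trans (Nat.gcd_dvd_left _ _)
  have h2 : p ∣ m := hpd.trans (Nat.gcd_dvd_right _ _)
  have hpm : p ∈ m.primeFactors := Nat.mem_primeFactors.2 ⟨hp, h2, hm⟩
  have h3 : p ^ (n.factorization p + 1) ∣ n := by
    have h4 : p ^ n.factorization p ∣ part m n := by
      unfold part
      exact Finset.dvd_prod_of_mem (fun p => p ^ n.factorization p) hpm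
    calc p ^ (n.factorization p + 1) = p * p ^ n.factorization p := by ring
      _ ∣ freep m n * part m n := Nat.mul_dvd_mul h1 h4
      _ = n := freep_mul_part m hn
  exact absurd ((hp.pow_dvd_iff_le_factorization hn).1 h3) (by omega)

end Pool.Agent.Helper42.RT
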