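import Mathlib
import Pool.Agent.Helper42.RT.Defs

set_option autoImplicit false

open Finset
open Pool.Agent.Helper42.RO Pool.Agent.Helper44.RO2

namespace Pool.Agent.Helper42.RT

/-- RT-D1. The basic identity of the codegree argument. Write `E, G, F` for `ent t k, ent t j, ent t l` and
`E', G', F'` for `t'`.
PROOF. `sg_sum` for `t` and `t'` and `sg_sq`: `F = s1 E + s2 G`, `F' = s1 E' + s2 G'` with
`s1 = - sg l sg k`, `s2 = - sg l sg j`. So `F' E - F E' = s2 (G' E - G E')` and
`F' G - F G' = s1 (E' G - E G')`, hence `F' E - F E' = - s1 s2 (F' G - F G') = - sg k sg j (F' G - F G')`.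
By hypothesis `Q (F' G - F G') = F G' P - F G' Q = F G' (P - Q)`. (Or `fin_cases` on `k, j, l`, unfold
`sg`, `ent`, and `linear_combination` of the cast hypothesis.) -/
theorem star_id {k j l : Fin 3} (h1 : k ≠ j) (h2 : l ≠ k) (h3 : l ≠ j) (t t' : ℕ × ℕ) (P Q : ℕ)
    (h : ent t j * ent t' l * Q = ent t l * ent t' j * P) :
    (Q : ℤ) * ((ent t' l : ℤ) * ent t k - ent t l * ent t' k) =
      -(sg k * sg j) * ((ent t l : ℤ) * ent t' j) * ((P : ℤ) - Q) := by
  have S := sg_sum t h1 h2 h3
  have S' := sg_sum t' h1 h2 h3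
  have hq := sg_sq k
  have H : (ent t j : ℤ) * ent t' l * Q = (ent t l : ℤ) * ent t' j * P := by exact_mod_cast h
  have e1 : sg k * ((ent t' l : ℤ) * ent t k - ent t l * ent t' k) =
      -sg j * ((ent t' l : ℤ) * ent t j - ent t l * ent t' j) := by
    linear_combination (ent t' l : ℤ) * S - (ent t l : ℤ) * S'
  linear_combination (Q : ℤ) * sg k * e1 - sg k * sg j * H -
    (Q : ℤ) * ((ent t' l : ℤ) * ent t k - ent t l * ent t' k) * hq

end Pool.Agent.Helper42.RT
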