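import Mathlib
import Pool.Agent.Helper42.RT.D0
import Pool.Agent.Helper42.RT.D1

set_option autoImplicit false

open Finset
open Pool.Agent.Helper42.RO Pool.Agent.Helper44.RO2

namespace Pool.Agent.Helper42.RT

private theorem D2_part_fact (m n : ℕ) {p : ℕ} (_hp : p.Prime) :
    (part m n).factorization p = if p ∈ m.primeFactors then n.factorization p else 0 := by
  unfold part
  rw [Nat.factorization_prod fun q hq =>
    pow_ne_zero _ (Nat.prime_of_mem_primeFactors hq).ne_zero, Finsupp.finsetSum_apply]
  have h1 : ∀ q ∈ m.primeFactors, (q ^ n.factorization q).factorization p =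
      if q = p then n.factorization q else 0 := by
    intro q hq
    rw [Nat.factorization_pow, Finsupp.smul_apply,
      (Nat.prime_of_mem_primeFactors hq).factorization, Finsupp.single_apply, smul_eq_mul]
    split_ifs <;> simp
  rw [Finset.sum_congr rfl h1, Finset.sum_ite_eq']

private theorem D2_freep_fact {m n : ℕ} (hm : m ≠ 0) (hn : n ≠ 0) {p : ℕ} (hp : p.Prime) :
    (freep m n).factorization p = if p ∈ m.primeFactors then 0 else n.factorization p := by
  split_ifs with h
  · have h2 := freep_coprime hm hn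
    exact Nat.factorization_eq_zero_of_not_dvd fun h3 =>
      hp.one_lt.ne' (Nat.dvd_one.1 (h2 ▸ Nat.dvd_gcd h3 (Nat.dvd_of_mem_primeFactors h)))
  · have h0 : freep m n ≠ 0 := by
      intro h0
      have := freep_mul_part m hn
      rw [h0, zero_mul] at this
      exact hn this.symm
    have h1 := congrArg (fun x => x.factorization p) (freep_mul_part m hn)
    change (freep m n * part m n).factorization p = _ at h1
    rw [Nat.factorization_mul h0 (part_pos m n).ne', Finsupp.add_apply, D2_part_fact m n hp,
      if_neg h, add_zero] at h1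
    exact h1

private theorem D2_val_zero {x m p : ℕ} (hx : x.primeFactors ⊆ m.primeFactors)
    (hp : p ∉ m.primeFactors) : x.factorization p = 0 := by
  by_contra h
  exact hp (hx (Nat.support_factorization x ▸ Finsupp.mem_support_iff.2 h))

/-- RT-D2. The auxiliary pair `tau`.
PROOF. Write `E, G, F` for `ent t k, ent t j, ent t l`, `E', G', F'` for `t'`, `A = F' E`, `B = F E'`,
`g = gcd A B`, `a = A / g = aa`, `b = B / g = bb` (coprime, positive), `R = |P - Q| > 0`,
`Δ = freep N0 R`. `star_id` in absolute values: `Q * g * |a - b| = F * G' * R` (all positive), so `a ≠ b` and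
`Cop (tau ..)`: `min > 0`, `max - min > 0`, coprime because `a, b` are coprime; `c (tau ..) = max a b ≤
max A B ≤ c t * c t'` (`ent_le_c`). Valuations: let `p` be a prime not dividing `N0`. Then `p` divides none of
`E, E', G, G', P, Q`, so `v_p(F) = v_p(F')` by the hypothesis `h`, so `v_p(A) = v_p(B) = v_p(g) = v_p(F)`,
`v_p(a) = v_p(b) = 0`, and from `Q g |a - b| = F G' R`: `v_p(|a - b|) = v_p(R) = v_p(Δ)`. So (i) `Δ ∣ |a - b|`:
for `p ∤ N0` by the above, for `p ∣ N0` because `v_p(Δ) = 0` (`freep_coprime`); (ii) with `n = T (tau ..) =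
min a b * |a - b| * max a b` the quotient `n / part N0 n = freep N0 n` has `v_p = 0 = v_p(Δ)` for `p ∣ N0` and
`v_p = v_p(Δ)` for `p ∤ N0`, i.e. `n = Δ * part N0 n` (compare factorizations:
`Nat.eq_of_factorization_eq`; `v_p (part N0 n)` is `v_p(n)` for `p ∣ N0` and `0` otherwise). -/
theorem tau_props {k j l : Fin 3} (h1 : k ≠ j) (h2 : l ≠ k) (h3 : l ≠ j) {t t' : ℕ × ℕ}
    (ht : Cop t) (ht' : Cop t') {P Q : ℕ} (hP : P ≠ 0) (hQ : Q ≠ 0) (hPQ : P ≠ Q)
    (h : ent t j * ent t' l * Q = ent t l * ent t' j * P) (N0 : ℕ) (hN0 : N0 ≠ 0)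
    (s1 : (ent t k).primeFactors ⊆ N0.primeFactors) (s2 : (ent t' k).primeFactors ⊆ N0.primeFactors)
    (s3 : (ent t j).primeFactors ⊆ N0.primeFactors) (s4 : (ent t' j).primeFactors ⊆ N0.primeFactors)
    (s5 : P.primeFactors ⊆ N0.primeFactors) (s6 : Q.primeFactors ⊆ N0.primeFactors) :
    Cop (tau k l t t') ∧ freep N0 ((P : ℤ) - Q).natAbs ∣ (tau k l t t').2 ∧
    T (tau k l t t') = freep N0 ((P : ℤ) - Q).natAbs * part N0 (T (tau k l t t')) ∧
    c (tau k l t t') ≤ c t * c t' := by
  have hE := ent_ne ht k
  have hG := ent_ne ht j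
  have hF := ent_ne ht l
  have hE' := ent_ne ht' k
  have hG' := ent_ne ht' j
  have hF' := ent_ne ht' l
  have hstar := star_id h1 h2 h3 t t' P Q h
  have hck := ent_le_c t k
  have hcl := ent_le_c t l
  have hck' := ent_le_c t' k
  have hcl' := ent_le_c t' l
  obtain ⟨R, hR⟩ : ∃ R : ℕ, R = ((P : ℤ) - Q).natAbs := ⟨_, rfl⟩
  have hR0 : R ≠ 0 := by omega
  rw [← hR]
  unfold tau aa bb
  generalize ent t k = E at *
  generalize ent t j = G at *
  generalize ent t l = F at *
  generalize ent t' k = E' at *
  generalize ent t' j = G' at *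
  generalize ent t' l = F' at *
  obtain ⟨g, hg⟩ : ∃ g : ℕ, g = Nat.gcd (F' * E) (F * E') := ⟨_, rfl⟩
  have hA0 : F' * E ≠ 0 := mul_ne_zero hF' hE
  have hB0 : F * E' ≠ 0 := mul_ne_zero hF hE'
  have hgA : g ∣ F' * E := hg ▸ Nat.gcd_dvd_left _ _
  have hgB : g ∣ F * E' := hg ▸ Nat.gcd_dvd_right _ _
  have hg0 : 0 < g := Nat.pos_of_dvd_of_pos hgA (Nat.pos_of_ne_zero hA0)
  rw [← hg]
  obtain ⟨a, ha⟩ := hgA
  obtain ⟨b, hb⟩ := hgB
  have haa : F' * E / g = a := by rw [ha, Nat.mul_div_cancel_left _ hg0]
  have hbb : F * E' / g = b := by rw [hb, Nat.mul_div_cancel_left _ hg0]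
  rw [haa, hbb]
  have ha0 : a ≠ 0 := by rintro rfl; exact hA0 (by rw [ha, mul_zero])
  have hb0 : b ≠ 0 := by rintro rfl; exact hB0 (by rw [hb, mul_zero])
  have hab : Nat.Coprime a b := by
    have h4 : Nat.gcd (g * a) (g * b) = g := by rw [← ha, ← hb, ← hg]
    rw [Nat.gcd_mul_left] at h4
    exact Nat.eq_of_mul_eq_mul_left hg0 (by rw [h4, mul_one])
  obtain ⟨d, hd⟩ : ∃ d : ℕ, d = max a b - min a b := ⟨_, rfl⟩
  have hdabs : d = ((a : ℤ) - b).natAbs := by omega
  -- the identity in absolute values
  have hid : Q * (g * d) = F * G' * R := by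
    have h5 := congrArg Int.natAbs hstar
    have hsg : (sg k * sg j).natAbs = 1 := by
      have e1 := sg_sq k
      have e2 := sg_sq j
      have e3 : (sg k * sg j) * (sg k * sg j) = 1 := by
        linear_combination (sg j * sg j) * e1 + e2
      exact Int.isUnit_iff_natAbs_eq.1 (IsUnit.of_mul_eq_one _ e3)
    have hAB : ((F' : ℤ) * E - F * E') = g * ((a : ℤ) - b) := by
      have e1 : ((F' : ℤ) * E) = g * a := by exact_mod_cast ha
      have e2 : ((F : ℤ) * E') = g * b := by exact_mod_cast hb
      rw [e1, e2]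
      ring
    rw [hAB, Int.natAbs_mul, Int.natAbs_mul, Int.natAbs_mul, Int.natAbs_mul, Int.natAbs_neg, hsg,
      Int.natAbs_mul, ← hR, ← hdabs, Int.natAbs_natCast, Int.natAbs_natCast, Int.natAbs_natCast,
      Int.natAbs_natCast, one_mul] at h5
    exact h5
  have hd0 : d ≠ 0 := by
    rintro rfl
    rw [mul_zero, mul_zero] at hid
    exact (mul_ne_zero (mul_ne_zero hF hG') hR0) hid.symm
  rw [← hd]
  have hsum : min a b + d = max a b := by omega
  have hT : T (min a b, d) = a * b * d := by
    unfold T
    change min a b * d * (min a b + d) = a * b * d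
    rw [hsum]
    rcases le_total a b with h6 | h6
    · rw [min_eq_left h6, max_eq_right h6]
      ring
    · rw [min_eq_right h6, max_eq_left h6]
      ring
  -- valuations outside `N0`
  have hval : ∀ p : ℕ, p.Prime → p ∉ N0.primeFactors →
      a.factorization p = 0 ∧ b.factorization p = 0 ∧ d.factorization p = R.factorization p := by
    intro p hp hpN
    have vE := D2_val_zero s1 hpN
    have vE' := D2_val_zero s2 hpN
    have vG := D2_val_zero s3 hpN
    have vG' := D2_val_zero s4 hpN
    have vP := D2_val_zero s5 hpN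
    have vQ := D2_val_zero s6 hpN
    have e1 := congrArg (fun x => x.factorization p) h
    change (G * F' * Q).factorization p = (F * G' * P).factorization p at e1
    rw [Nat.factorization_mul (mul_ne_zero hG hF') hQ, Nat.factorization_mul hG hF',
      Nat.factorization_mul (mul_ne_zero hF hG') hP, Nat.factorization_mul hF hG'] at e1
    simp only [Finsupp.add_apply, vG, vG', vP, vQ] at e1
    have e2 := congrArg (fun x => x.factorization p) ha
    change (F' * E).factorization p = (g * a).factorization p at e2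
    rw [Nat.factorization_mul hF' hE, Nat.factorization_mul hg0.ne' ha0] at e2
    simp only [Finsupp.add_apply, vE] at e2
    have e3 := congrArg (fun x => x.factorization p) hb
    change (F * E').factorization p = (g * b).factorization p at e3
    rw [Nat.factorization_mul hF hE', Nat.factorization_mul hg0.ne' hb0] at e3
    simp only [Finsupp.add_apply, vE'] at e3
    have e4 := congrArg (fun x => x.factorization p) hid
    change (Q * (g * d)).factorization p = (F * G' * R).factorization p at e4
    rw [Nat.factorization_mul hQ (mul_ne_zero hg0.ne' hd0), Nat.factorization_mul hg0.ne' hd0,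
      Nat.factorization_mul (mul_ne_zero hF hG') hR0, Nat.factorization_mul hF hG'] at e4
    simp only [Finsupp.add_apply, vQ, vG'] at e4
    have e5 : a.factorization p = 0 ∨ b.factorization p = 0 := by
      by_contra hne
      rw [not_or] at hne
      have d1 := Nat.dvd_of_factorization_pos hne.1
      have d2 := Nat.dvd_of_factorization_pos hne.2
      exact hp.one_lt.ne' (Nat.dvd_one.1 (hab ▸ Nat.dvd_gcd d1 d2))
    omega
  have hmin0 : 0 < min a b := by omega
  refine ⟨⟨hmin0, Nat.pos_of_ne_zero hd0, ?_⟩, ?_, ?_, ?_⟩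
  · change Nat.Coprime (min a b) d
    have h7 : Nat.Coprime (min a b) (max a b) := by
      rcases le_total a b with h6 | h6
      · rw [min_eq_left h6, max_eq_right h6]
        exact hab
      · rw [min_eq_right h6, max_eq_left h6]
        exact hab.symm
    rw [← hsum, Nat.coprime_self_add_right] at h7
    exact h7
  · change freep N0 R ∣ d
    have hf0 : freep N0 R ≠ 0 := by
      intro h0
      have := freep_mul_part N0 hR0
      rw [h0, zero_mul] at this
      exact hR0 this.symm
    rw [← Nat.factorization_prime_le_iff_dvd hf0 hd0]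
    intro p hp
    rw [D2_freep_fact hN0 hR0 hp]
    split_ifs with h8
    · exact Nat.zero_le _
    · exact (hval p hp h8).2.2.ge
  · rw [hT]
    have hf0 : freep N0 R ≠ 0 := by
      intro h0
      have := freep_mul_part N0 hR0
      rw [h0, zero_mul] at this
      exact hR0 this.symm
    have habd : a * b * d ≠ 0 := mul_ne_zero (mul_ne_zero ha0 hb0) hd0
    refine Nat.eq_of_factorization_eq habd (mul_ne_zero hf0 (part_pos _ _).ne') fun p => ?_
    by_cases hp : p.Prime
    · rw [Nat.factorization_mul hf0 (part_pos _ _).ne', Finsupp.add_apply,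
        D2_freep_fact hN0 hR0 hp, D2_part_fact _ _ hp]
      split_ifs with h8
      · rw [zero_add]
      · obtain ⟨v1, v2, v3⟩ := hval p hp h8
        rw [Nat.factorization_mul (mul_ne_zero ha0 hb0) hd0, Nat.factorization_mul ha0 hb0]
        simp only [Finsupp.add_apply, v1, v2, v3]
        omega
    · rw [Nat.factorization_eq_zero_of_not_prime _ hp, Nat.factorization_eq_zero_of_not_prime _ hp]
  · unfold c
    change ((min a b + d : ℕ) : ℝ) ≤ _
    rw [hsum]
    have hA : ((F' * E : ℕ) : ℝ) ≤ c t * c t' := by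
      push_cast
      rw [mul_comm (c t)]
      exact mul_le_mul hcl' hck (Nat.cast_nonneg _) (le_trans (Nat.cast_nonneg _) hcl')
    have hB : ((F * E' : ℕ) : ℝ) ≤ c t * c t' := by
      push_cast
      exact mul_le_mul hcl hck' (Nat.cast_nonneg _) (le_trans (Nat.cast_nonneg _) hcl)
    have haA : a ≤ F' * E := by
      rw [ha]
      exact Nat.le_mul_of_pos_left a hg0
    have hbB : b ≤ F * E' := by
      rw [hb]
      exact Nat.le_mul_of_pos_left b hg0
    have hcc : c t * c t' = ((t.1 + t.2 : ℕ) : ℝ) * ((t'.1 + t'.2 : ℕ) : ℝ) := rfl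
    rw [← hcc]
    rcases le_total a b with h6 | h6
    · rw [max_eq_right h6]
      exact le_trans (by exact_mod_cast hbB) hB
    · rw [max_eq_left h6]
      exact le_trans (by exact_mod_cast haA) hA

end Pool.Agent.Helper42.RT
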