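import Mathlib
import Pool.Agent.Helper42.RT.D0
import Pool.Agent.Helper42.RT.D1

set_option autoImplicit false

open Finset
open Pool.Agent.Helper42.RO Pool.Agent.Helper44.RO2

namespace Pool.Agent.Helper42.RT

/-- The identity (1): `Q (a - b) E' = σ (P - Q) b G'`. -/
private lemma one_id {k j l : Fin 3} (h1 : k ≠ j) (h2 : l ≠ k) (h3 : l ≠ j) {t t' : ℕ × ℕ}
    (ht : Cop t) (ht' : Cop t') {P Q : ℕ}
    (h : ent t j * ent t' l * Q = ent t l * ent t' j * P) :
    0 < bb k l t t' ∧
    (Q : ℤ) * ((aa k l t t' : ℤ) - bb k l t t') * ent t' k =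
      -(sg k * sg j) * ((P : ℤ) - Q) * bb k l t t' * ent t' j := by
  have hst := star_id h1 h2 h3 t t' P Q h
  set g : ℕ := Nat.gcd (ent t' l * ent t k) (ent t l * ent t' k) with hg
  have hBpos : 0 < ent t l * ent t' k := Nat.mul_pos (ent_pos ht l) (ent_pos ht' k)
  have hgpos : 0 < g := Nat.gcd_pos_of_pos_right _ hBpos
  have hA : aa k l t t' * g = ent t' l * ent t k := Nat.div_mul_cancel (Nat.gcd_dvd_left _ _)
  have hB : bb k l t t' * g = ent t l * ent t' k := Nat.div_mul_cancel (Nat.gcd_dvd_right _ _)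
  have hb : 0 < bb k l t t' := by
    rcases Nat.eq_zero_or_pos (bb k l t t') with h0 | h0
    · rw [h0, Nat.zero_mul] at hB
      omega
    · exact h0
  refine ⟨hb, ?_⟩
  have hA' : (aa k l t t' : ℤ) * g = (ent t' l : ℤ) * ent t k := by exact_mod_cast hA
  have hB' : (bb k l t t' : ℤ) * g = (ent t l : ℤ) * ent t' k := by exact_mod_cast hB
  have hg0 : (g : ℤ) ≠ 0 := by exact_mod_cast hgpos.ne'
  apply mul_left_cancel₀ hg0
  linear_combination (ent t' k : ℤ) * hst + (Q : ℤ) * ent t' k * hA' - (Q : ℤ) * ent t' k * hB' +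
    (sg k * sg j) * ((P : ℤ) - Q) * ent t' j * hB'

private lemma eq_of_cross {k j : Fin 3} (h1 : k ≠ j) {t s : ℕ × ℕ}
    (ht : Cop t) (hs : Cop s) (h : ent t k * ent s j = ent s k * ent t j) : t = s := by
  have d1 : ent t k ∣ ent s k :=
    (ent_coprime ht h1).dvd_of_dvd_mul_right ⟨ent s j, h.symm⟩
  have d2 : ent s k ∣ ent t k :=
    (ent_coprime hs h1).dvd_of_dvd_mul_right ⟨ent t j, h⟩
  have e1 : ent t k = ent s k := Nat.dvd_antisymm d1 d2
  have e2 : ent t j = ent s j := by
    rw [e1] at h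
    exact (Nat.eq_of_mul_eq_mul_left (ent_pos hs k) h).symm
  exact ent_inj h1 e1 e2

/-- RT-D3. The second pair can be recovered from `tau`.
PROOF. Notation of RT-D2, `a = aa`, `b = bb` for `(t, t')`; `σ = - sg k sg j = ± 1`. From `star_id` and
`F E' = g b`: `Q g (a - b) E' = σ F G' (P - Q) E' = σ (P - Q) G' g b`, so (cancel `g > 0`)
`Q (a - b) E' = σ (P - Q) b G'` (1). Also `Q g (a - b) = σ F G' (P - Q)` shows that the sign of `a - b` is
that of `σ (P - Q)`, the same for `(t, t')` and `(s, s')`; so `tau k l t t' = tau k l s s'` gives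
`aa k l t t' = aa k l s s'` and `bb k l t t' = bb k l s s'` (`min`, `max` and the sign), call them `a, b`, `a ≠ b`,
`b > 0`. By (1) for both, `E' * G'_s = E'_s * G'` (cross multiply; `Q (a - b) ≠ 0`, `(P - Q) b ≠ 0`), i.e.
`ent t' k * ent s' j = ent s' k * ent t' j`. As `ent t' k, ent t' j` are coprime, and likewise for `s'`, the
entries agree (`Nat.dvd_antisymm` as in `eq_of_ratio` of file `B3`), and `ent_inj` gives `t' = s'`. -/
theorem tau_inj {k j l : Fin 3} (h1 : k ≠ j) (h2 : l ≠ k) (h3 : l ≠ j) {t t' s s' : ℕ × ℕ}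
    (ht : Cop t) (ht' : Cop t') (hs : Cop s) (hs' : Cop s') {P Q : ℕ} (hQ : Q ≠ 0) (hPQ : P ≠ Q)
    (h : ent t j * ent t' l * Q = ent t l * ent t' j * P)
    (h' : ent s j * ent s' l * Q = ent s l * ent s' j * P)
    (he : tau k l t t' = tau k l s s') : t' = s' := by
  obtain ⟨hb, e1⟩ := one_id h1 h2 h3 ht ht' h
  obtain ⟨hb', e2⟩ := one_id h1 h2 h3 hs hs' h'
  have hQ' : (0 : ℤ) < Q := by exact_mod_cast Nat.pos_of_ne_zero hQ
  have hPQ' : (P : ℤ) - Q ≠ 0 := by
    intro h0
    apply hPQ
    have : (P : ℤ) = Q := by linarith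
    exact_mod_cast this
  have hk := sg_sq k
  have hj := sg_sq j
  set S : ℤ := -(sg k * sg j) * ((P : ℤ) - Q) with hS
  have hS0 : S ≠ 0 := by
    intro h0
    apply hPQ'
    have : S * (sg k * sg j) = -((P : ℤ) - Q) := by
      rw [hS]
      linear_combination -((P : ℤ) - Q) * (sg j * sg j) * hk - ((P : ℤ) - Q) * hj
    rw [h0, zero_mul] at this
    linarith
  have pE : (0 : ℤ) < ent t' k := by exact_mod_cast ent_pos ht' k
  have pG : (0 : ℤ) < ent t' j := by exact_mod_cast ent_pos ht' j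
  have pE' : (0 : ℤ) < ent s' k := by exact_mod_cast ent_pos hs' k
  have pG' : (0 : ℤ) < ent s' j := by exact_mod_cast ent_pos hs' j
  have hbz : (0 : ℤ) < bb k l t t' := by exact_mod_cast hb
  have hbz' : (0 : ℤ) < bb k l s s' := by exact_mod_cast hb'
  unfold tau at he
  rw [Prod.mk.injEq] at he
  obtain ⟨m1, m2⟩ := he
  generalize aa k l t t' = a at *
  generalize bb k l t t' = b at *
  generalize aa k l s s' = a' at *
  generalize bb k l s s' = b' at *
  have hab : a = a' ∧ b = b' := by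
    rcases lt_or_gt_of_ne hS0 with hneg | hpos
    · have r1 : (a : ℤ) < b := by
        by_contra hc
        push Not at hc
        have l1 : 0 ≤ (Q : ℤ) * ((a : ℤ) - b) * ent t' k :=
          mul_nonneg (mul_nonneg hQ'.le (by linarith)) pE.le
        have l2 : S * b * ent t' j < 0 :=
          mul_neg_of_neg_of_pos (mul_neg_of_neg_of_pos hneg hbz) pG
        rw [e1] at l1
        linarith
      have r2 : (a' : ℤ) < b' := by
        by_contra hc
        push Not at hc
        have l1 : 0 ≤ (Q : ℤ) * ((a' : ℤ) - b') * ent s' k :=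
          mul_nonneg (mul_nonneg hQ'.le (by linarith)) pE'.le
        have l2 : S * b' * ent s' j < 0 :=
          mul_neg_of_neg_of_pos (mul_neg_of_neg_of_pos hneg hbz') pG'
        rw [e2] at l1
        linarith
      omega
    · have r1 : (b : ℤ) < a := by
        by_contra hc
        push Not at hc
        have l1 : (Q : ℤ) * ((a : ℤ) - b) * ent t' k ≤ 0 :=
          mul_nonpos_of_nonpos_of_nonneg
            (mul_nonpos_of_nonneg_of_nonpos hQ'.le (by linarith)) pE.le
        have l2 : 0 < S * b * ent t' j := mul_pos (mul_pos hpos hbz) pG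
        rw [e1] at l1
        linarith
      have r2 : (b' : ℤ) < a' := by
        by_contra hc
        push Not at hc
        have l1 : (Q : ℤ) * ((a' : ℤ) - b') * ent s' k ≤ 0 :=
          mul_nonpos_of_nonpos_of_nonneg
            (mul_nonpos_of_nonneg_of_nonpos hQ'.le (by linarith)) pE'.le
        have l2 : 0 < S * b' * ent s' j := mul_pos (mul_pos hpos hbz') pG'
        rw [e2] at l1
        linarith
      omega
  obtain ⟨ea, eb⟩ := hab
  subst ea eb
  have hR : (Q : ℤ) * ((a : ℤ) - b) ≠ 0 := by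
    intro h0
    rw [h0, zero_mul] at e1
    exact (mul_ne_zero (mul_ne_zero hS0 hbz.ne') pG.ne') e1.symm
  have hcross : (ent t' k : ℤ) * ent s' j = (ent s' k : ℤ) * ent t' j := by
    apply mul_left_cancel₀ hR
    linear_combination (ent s' j : ℤ) * e1 - (ent t' j : ℤ) * e2
  exact eq_of_cross h1 ht' hs' (by exact_mod_cast hcross)

end Pool.Agent.Helper42.RT
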