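import Mathlib
import Pool.Agent.Helper42.RT.B3
import Pool.Agent.Helper42.RT.C2
import Pool.Agent.Helper42.RT.D2
import Pool.Agent.Helper42.RT.D3

set_option autoImplicit false

open Finset
open Pool.Agent.Helper42.RO Pool.Agent.Helper44.RO2

namespace Pool.Agent.Helper42.RT

private lemma D4_sub {a N : ℕ} (ha : rad a ∣ N) (hN : N ≠ 0) : a.primeFactors ⊆ N.primeFactors := by
  rw [← rad_primeFactors a]
  exact Nat.primeFactors_mono ha hN

private lemma D4_sub_mul {a b N : ℕ} (ha : a ≠ 0) (hb : b ≠ 0) (h1 : a.primeFactors ⊆ N.primeFactors)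
    (h2 : b.primeFactors ⊆ N.primeFactors) : (a * b).primeFactors ⊆ N.primeFactors := by
  rw [Nat.primeFactors_mul ha hb]
  exact Finset.union_subset h1 h2

private lemma D4_log {Λ : ℝ} (hΛ : 1 ≤ Λ) : 1 + Real.log (2 * Λ) ≤ 2 * (1 + Real.log Λ) := by
  rw [Real.log_mul (by norm_num) (by linarith)]
  have h1 := Real.log_nonneg hΛ
  have h2 := Real.log_two_lt_d9
  linarith

private lemma D4_num {ε M N1 N2 : ℝ} (hε : 0 < ε) (hM : 1 ≤ M) (h1 : 1 ≤ N1) (h2 : 1 ≤ N2) {N : ℝ}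
    (hN0 : 0 ≤ N) (hN : N ≤ M * N1 * N1 * N2) : N ^ (ε / 2) ≤ (M * N1 * N2) ^ ε := by
  have hp : 0 < M * N1 * N2 := by positivity
  have h3 : N ≤ (M * N1 * N2) ^ (2 : ℝ) := by
    have h4 : (M * N1 * N2) ^ (2 : ℝ) = (M * N2) * (M * N1 * N1 * N2) := by
      rw [Real.rpow_two]
      ring
    rw [h4]
    have h5 : 1 ≤ M * N2 := one_le_mul_of_one_le_of_one_le hM h2
    have h6 : 0 ≤ M * N1 * N1 * N2 := by positivity
    calc N ≤ M * N1 * N1 * N2 := hN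
      _ ≤ (M * N2) * (M * N1 * N1 * N2) := le_mul_of_one_le_left h6 h5
  calc N ^ (ε / 2) ≤ ((M * N1 * N2) ^ (2 : ℝ)) ^ (ε / 2) :=
        Real.rpow_le_rpow hN0 h3 (by positivity)
    _ = (M * N1 * N2) ^ ε := by
        rw [← Real.rpow_mul hp.le]
        congr 1
        ring

/-- RT-D4. The codegree bound.
PROOF. Let `K` be from `gp_total_delta` and `C0` from `pow_omega K (ε / 2)`. Let `𝒲` be the filtered set,
assume it is nonempty, and choose for every `w ∈ 𝒲` pairs `t_w, t'_w ∈ S` with keys `(v, w)` and `(v', w)`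
(choice functions). Fix `w1 ∈ 𝒲` and put `P = ent t_{w1} j * ent t'_{w1} l`, `Q = ent t_{w1} l * ent t'_{w1} j`.
`P ≠ Q` since otherwise `eq_of_ratio` gives `t_{w1} = t'_{w1}`, so `v = v'`. For every `w ∈ 𝒲`,
`four_cycle` for `t11 = t_w, t12 = t_{w1}, t21 = t'_w, t22 = t'_{w1}` gives
`ent t_w j * ent t'_w l * Q = ent t_w l * ent t'_w j * P` (up to reordering). Let
`N0 = rad (ent t_{w1} k) * rad (ent t_{w1} j) * rad (ent t'_{w1} j) * rad (ent t_{w1} l)`. All primes of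
`ent t_w k, ent t'_w k` (key of the class), `ent t_w j` (key `v`), `ent t'_w j` (key `v'`), `P`, `Q` divide `N0`
(`primeFactors_of_key`, `rad_primeFactors`; `ent t'_{w1} l` has the key `w1` of `ent t_{w1} l`).
`w ↦ tau k l t_w t'_w` is injective on `𝒲` (`tau_inj` gives `t'_w`, and `w` is the key of `ent t'_w l`), and its
image satisfies the hypotheses of `gp_total_delta` with `m = N0`, `Δ = freep N0 |P - Q|`
(`freep_coprime`), `Λ := 2 Λ` (`log (c tau) ≤ log (c t) + log (c t')`), by `tau_props`. So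
`|𝒲| ≤ K ^ (ω(N0) + 1) (1 + log (2 Λ)) ≤ K C0 N0 ^ (ε / 2) * 2 (1 + log Λ)`, and
`N0 ≤ M N1 ^ 2 N2 ≤ (M N1 N2) ^ 2`. -/
theorem codegree (ε : ℝ) (hε : 0 < ε) : ∃ C : ℝ, 1 ≤ C ∧ ∀ {k j l : Fin 3}, k ≠ j → l ≠ k → l ≠ j →
    ∀ (X M N1 N2 Λ : ℝ), 4096 ≤ X → 1 ≤ M → 1 ≤ N1 → 1 ≤ N2 → 1 ≤ Λ → ∀ S : Finset (ℕ × ℕ),
    (∀ t ∈ S, Cop t ∧ X < c t ∧ Real.log (c t) ≤ Λ ∧ (rad (ent t k) : ℝ) ≤ M ∧
      (rad (ent t j) : ℝ) ≤ N1 ∧ (rad (ent t l) : ℝ) ≤ N2) →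
    (∀ t ∈ S, ∀ s ∈ S, key X (ent t k) = key X (ent s k)) →
    ∀ (v v' : ℕ →₀ ℕ), v ≠ v' → ∀ W : Finset (ℕ →₀ ℕ),
    (∀ w ∈ W, (∃ t ∈ S, key X (ent t j) = v ∧ key X (ent t l) = w) ∧
      (∃ t ∈ S, key X (ent t j) = v' ∧ key X (ent t l) = w)) →
    (W.card : ℝ) ≤ C * (M * N1 * N2) ^ ε * (1 + Real.log Λ) := by
  classical
  obtain ⟨K, hK, hKs⟩ := gp_total_delta
  obtain ⟨C0, hC0, hC0s⟩ := pow_omega K (ε / 2) hK (by positivity)
  refine ⟨K * C0 * 2, ?_, ?_⟩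
  · have := one_le_mul_of_one_le_of_one_le hK hC0
    linarith
  intro k j l h1 h2 h3 X M N1 N2 Λ hX hM hN1 hN2 hΛ S hS hkey v v' hv W hW
  have hlogΛ := Real.log_nonneg hΛ
  have hKC : 1 ≤ K * C0 := one_le_mul_of_one_le_of_one_le hK hC0
  rcases W.eq_empty_or_nonempty with hWe | ⟨w1, hw1⟩
  · rw [hWe]
    have : 0 < M * N1 * N2 := by positivity
    simp only [Finset.card_empty, Nat.cast_zero]
    positivity
  have hA : ∀ w : ℕ →₀ ℕ, ∃ t : ℕ × ℕ, w ∈ W → t ∈ S ∧ key X (ent t j) = v ∧ key X (ent t l) = w := by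
    intro w
    by_cases hw : w ∈ W
    · obtain ⟨⟨t, ht, ht1, ht2⟩, _⟩ := hW w hw
      exact ⟨t, fun _ => ⟨ht, ht1, ht2⟩⟩
    · exact ⟨(0, 0), fun h => absurd h hw⟩
  have hB : ∀ w : ℕ →₀ ℕ, ∃ t : ℕ × ℕ, w ∈ W → t ∈ S ∧ key X (ent t j) = v' ∧ key X (ent t l) = w := by
    intro w
    by_cases hw : w ∈ W
    · obtain ⟨_, ⟨t, ht, ht1, ht2⟩⟩ := hW w hw
      exact ⟨t, fun _ => ⟨ht, ht1, ht2⟩⟩
    · exact ⟨(0, 0), fun h => absurd h hw⟩
  choose A hA using hA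
  choose B hB using hB
  have cA : ∀ w ∈ W, Cop (A w) := fun w hw => (hS _ (hA w hw).1).1
  have cB : ∀ w ∈ W, Cop (B w) := fun w hw => (hS _ (hB w hw).1).1
  set P : ℕ := ent (A w1) j * ent (B w1) l with hP
  set Q : ℕ := ent (A w1) l * ent (B w1) j with hQ
  have hP0 : P ≠ 0 := mul_ne_zero (ent_ne (cA w1 hw1) j) (ent_ne (cB w1 hw1) l)
  have hQ0 : Q ≠ 0 := mul_ne_zero (ent_ne (cA w1 hw1) l) (ent_ne (cB w1 hw1) j)
  have hPQ : P ≠ Q := by
    intro h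
    have h4 : A w1 = B w1 := eq_of_ratio h1 h2 h3 (cA w1 hw1) (cB w1 hw1) h
    apply hv
    rw [← (hA w1 hw1).2.1, ← (hB w1 hw1).2.1, h4]
  have hfour : ∀ w ∈ W, ent (A w) j * ent (B w) l * Q = ent (A w) l * ent (B w) j * P := by
    intro w hw
    have h := four_cycle h1 h2 h3 hX (cA w hw) (cA w1 hw1) (cB w hw) (cB w1 hw1)
      (hS _ (hA w hw).1).2.1 (hS _ (hA w1 hw1).1).2.1 (hS _ (hB w hw).1).2.1 (hS _ (hB w1 hw1).1).2.1
      (hkey _ (hA w1 hw1).1 _ (hA w hw).1) (hkey _ (hB w hw).1 _ (hA w hw).1)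
      (hkey _ (hB w1 hw1).1 _ (hA w hw).1)
      ((hA w hw).2.1.trans (hA w1 hw1).2.1.symm) ((hB w hw).2.1.trans (hB w1 hw1).2.1.symm)
      ((hA w hw).2.2.trans (hB w hw).2.2.symm) ((hA w1 hw1).2.2.trans (hB w1 hw1).2.2.symm)
    rw [hP, hQ]
    calc ent (A w) j * ent (B w) l * (ent (A w1) l * ent (B w1) j)
        = ent (A w) j * ent (B w1) j * (ent (A w1) l * ent (B w) l) := by ring
      _ = ent (A w1) j * ent (B w) j * (ent (A w) l * ent (B w1) l) := h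
      _ = ent (A w) l * ent (B w) j * (ent (A w1) j * ent (B w1) l) := by ring
  set N0 : ℕ := rad (ent (A w1) k) * rad (ent (A w1) j) * rad (ent (B w1) j) * rad (ent (A w1) l)
    with hN0def
  have hN0 : N0 ≠ 0 := by
    have := rad_pos (ent (A w1) k)
    have := rad_pos (ent (A w1) j)
    have := rad_pos (ent (B w1) j)
    have := rad_pos (ent (A w1) l)
    positivity
  have sk : (ent (A w1) k).primeFactors ⊆ N0.primeFactors :=
    D4_sub (by rw [hN0def, mul_assoc, mul_assoc]; exact Dvd.intro _ rfl) hN0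
  have sj : (ent (A w1) j).primeFactors ⊆ N0.primeFactors :=
    D4_sub ⟨rad (ent (A w1) k) * rad (ent (B w1) j) * rad (ent (A w1) l), by rw [hN0def]; ring⟩ hN0
  have sj' : (ent (B w1) j).primeFactors ⊆ N0.primeFactors :=
    D4_sub ⟨rad (ent (A w1) k) * rad (ent (A w1) j) * rad (ent (A w1) l), by rw [hN0def]; ring⟩ hN0
  have sl : (ent (A w1) l).primeFactors ⊆ N0.primeFactors :=
    D4_sub ⟨rad (ent (A w1) k) * rad (ent (A w1) j) * rad (ent (B w1) j), by rw [hN0def]; ring⟩ hN0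
  have sl' : (ent (B w1) l).primeFactors ⊆ N0.primeFactors := by
    rw [primeFactors_of_key ((hB w1 hw1).2.2.trans (hA w1 hw1).2.2.symm)]
    exact sl
  have sP : P.primeFactors ⊆ N0.primeFactors :=
    D4_sub_mul (ent_ne (cA w1 hw1) j) (ent_ne (cB w1 hw1) l) sj sl'
  have sQ : Q.primeFactors ⊆ N0.primeFactors :=
    D4_sub_mul (ent_ne (cA w1 hw1) l) (ent_ne (cB w1 hw1) j) sl sj'
  have hpr : ∀ w ∈ W, Cop (tau k l (A w) (B w)) ∧
      freep N0 ((P : ℤ) - Q).natAbs ∣ (tau k l (A w) (B w)).2 ∧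
      T (tau k l (A w) (B w)) =
        freep N0 ((P : ℤ) - Q).natAbs * part N0 (T (tau k l (A w) (B w))) ∧
      c (tau k l (A w) (B w)) ≤ c (A w) * c (B w) := by
    intro w hw
    refine tau_props h1 h2 h3 (cA w hw) (cB w hw) hP0 hQ0 hPQ (hfour w hw) N0 hN0 ?_ ?_ ?_ ?_ sP sQ
    · rw [primeFactors_of_key (hkey _ (hA w hw).1 _ (hA w1 hw1).1)]
      exact sk
    · rw [primeFactors_of_key (hkey _ (hB w hw).1 _ (hA w1 hw1).1)]
      exact sk
    · rw [primeFactors_of_key ((hA w hw).2.1.trans (hA w1 hw1).2.1.symm)]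
      exact sj
    · rw [primeFactors_of_key ((hB w hw).2.1.trans (hB w1 hw1).2.1.symm)]
      exact sj'
  have hinj : Set.InjOn (fun w => tau k l (A w) (B w)) W := by
    intro w hw z hz hwz
    have h4 : B w = B z := tau_inj h1 h2 h3 (cA w hw) (cB w hw) (cA z hz) (cB z hz) hQ0 hPQ
      (hfour w hw) (hfour z hz) hwz
    rw [← (hB w hw).2.2, ← (hB z hz).2.2, h4]
  have hΔ0 : ((P : ℤ) - Q).natAbs ≠ 0 := by
    rw [Ne, Int.natAbs_eq_zero, sub_eq_zero]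
    intro h
    exact hPQ (by exact_mod_cast h)
  have hmain := hKs N0 (freep N0 ((P : ℤ) - Q).natAbs) (2 * Λ) (by linarith)
    (freep_coprime hN0 hΔ0) (W.image fun w => tau k l (A w) (B w)) (by
      intro t ht
      obtain ⟨w, hw, rfl⟩ := Finset.mem_image.1 ht
      obtain ⟨q1, q2, q3, q4⟩ := hpr w hw
      refine ⟨q1, ?_, q2, q3⟩
      have q5 := Real.log_le_log q1.c_pos q4
      rw [Real.log_mul (cA w hw).c_pos.ne' (cB w hw).c_pos.ne'] at q5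
      have q6 := (hS _ (hA w hw).1).2.2.1
      have q7 := (hS _ (hB w hw).1).2.2.1
      linarith)
  rw [Finset.card_image_of_injOn hinj] at hmain
  have hN0r : (N0 : ℝ) ≤ M * N1 * N1 * N2 := by
    have r1 := (hS _ (hA w1 hw1).1).2.2.2.1
    have r2 := (hS _ (hA w1 hw1).1).2.2.2.2.1
    have r3 := (hS _ (hB w1 hw1).1).2.2.2.2.1
    have r4 := (hS _ (hA w1 hw1).1).2.2.2.2.2
    rw [hN0def]
    push_cast
    gcongr
  have hnum := D4_num hε hM hN1 hN2 (Nat.cast_nonneg N0) hN0r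
  have hω := hC0s N0 hN0
  have hlog2 := D4_log hΛ
  have hK0 : 0 < K := by linarith
  have hpos : 0 < (M * N1 * N2) ^ ε := by positivity
  calc (W.card : ℝ) ≤ K ^ (N0.primeFactors.card + 1) * (1 + Real.log (2 * Λ)) := hmain
    _ = K * K ^ N0.primeFactors.card * (1 + Real.log (2 * Λ)) := by ring
    _ ≤ K * (C0 * (N0 : ℝ) ^ (ε / 2)) * (2 * (1 + Real.log Λ)) := by
        have : 0 ≤ 1 + Real.log (2 * Λ) := by
          have := Real.log_nonneg (show (1 : ℝ) ≤ 2 * Λ by linarith)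
          linarith
        gcongr
    _ ≤ K * (C0 * (M * N1 * N2) ^ ε) * (2 * (1 + Real.log Λ)) := by gcongr
    _ = K * C0 * 2 * (M * N1 * N2) ^ ε * (1 + Real.log Λ) := by ring

end Pool.Agent.Helper42.RT
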