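import Mathlib
import Pool.Agent.Helper42.RT.Defs

set_option autoImplicit false

open Finset
open Pool.Agent.Helper42.RO Pool.Agent.Helper44.RO2

namespace Pool.Agent.Helper42.RT

/-- RT-E1. Kovari-Sos-Turan for codegrees at most `n0`.
PROOF. `e = Ed.card = ∑ w ∈ V2, d(w)`, `d(w) = (V1.filter fun v => (v, w) ∈ Ed).card`, `V1 = Ed.image Prod.fst`,
`V2 = Ed.image Prod.snd`. Double counting: `∑ w ∈ V2, d(w) ^ 2 = ∑ v, v' ∈ V1, #{w ∈ V2 : (v, w), (v', w) ∈ Ed}`;
the diagonal terms sum to `e`, the others are at most `n0` each: `≤ e + J ^ 2 n0`, `J = V1.card`,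
`J' = V2.card`. Cauchy-Schwarz (`sq_sum_le_card_mul_sum_sq`): `e ^ 2 ≤ J' (e + J ^ 2 n0)`. If `e ≤ 2 J'` done;
otherwise `J' e ≤ e ^ 2 / 2`, so `e ^ 2 ≤ 2 J' J ^ 2 n0`, `e ≤ J (2 n0 J') ^ (1 / 2)`. -/
theorem kst {α β : Type*} [DecidableEq α] [DecidableEq β] (Ed : Finset (α × β)) (n0 : ℝ)
    (hn : 1 ≤ n0)
    (h : ∀ v v' : α, v ≠ v' → ∀ W : Finset β, (∀ w ∈ W, (v, w) ∈ Ed ∧ (v', w) ∈ Ed) →
      (W.card : ℝ) ≤ n0) :
    (Ed.card : ℝ) ≤ 2 * (Ed.image Prod.snd).card +
      (Ed.image Prod.fst).card * (2 * n0 * (Ed.image Prod.snd).card) ^ (1 / 2 : ℝ) := by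
  classical
  set V1 := Ed.image Prod.fst with hV1
  set V2 := Ed.image Prod.snd with hV2
  set Q : Finset ((α × β) × (α × β)) := (Ed ×ˢ Ed).filter fun z => z.1.2 = z.2.2 with hQ
  -- double counting
  have hsum : ∑ w ∈ V2, ((Ed.filter fun x => x.2 = w).card : ℝ) = Ed.card := by
    have h1 : Ed.card = ∑ w ∈ V2, (Ed.filter fun x => x.2 = w).card :=
      Finset.card_eq_sum_card_image Prod.snd Ed
    rw [h1]
    push_cast
    rfl
  have hsq : ∑ w ∈ V2, ((Ed.filter fun x => x.2 = w).card : ℝ) ^ 2 = Q.card := by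
    have h1 : Q.card = ∑ w ∈ V2, (Q.filter fun z => z.1.2 = w).card := by
      refine Finset.card_eq_sum_card_fiberwise fun z hz => ?_
      have hz' := (Finset.mem_filter.1 hz).1
      exact Finset.mem_image_of_mem _ (Finset.mem_product.1 hz').1
    rw [h1]
    push_cast
    refine Finset.sum_congr rfl fun w _ => ?_
    have h2 : (Q.filter fun z => z.1.2 = w) =
        (Ed.filter fun x => x.2 = w) ×ˢ (Ed.filter fun x => x.2 = w) := by
      ext z
      simp only [hQ, Finset.mem_filter, Finset.mem_product]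
      constructor
      · rintro ⟨⟨⟨h3, h4⟩, h5⟩, h6⟩
        exact ⟨⟨h3, h6⟩, h4, h5.symm.trans h6⟩
      · rintro ⟨⟨h3, h6⟩, h4, h5⟩
        exact ⟨⟨⟨h3, h4⟩, h6.trans h5.symm⟩, h6⟩
    rw [h2, Finset.card_product]
    push_cast
    ring
  have hdiag : ((Q.filter fun z => z.1.1 = z.2.1).card : ℝ) ≤ Ed.card := by
    have h1 : (Q.filter fun z => z.1.1 = z.2.1).card ≤ Ed.card := by
      refine Finset.card_le_card_of_injOn Prod.fst ?_ ?_
      · intro z hz
        exact (Finset.mem_product.1 (Finset.mem_filter.1 (Finset.mem_filter.1 hz).1).1).1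
      · intro z hz z' hz' hzz
        have h2 := Finset.mem_filter.1 hz
        have h3 := Finset.mem_filter.1 hz'
        have h4 := (Finset.mem_filter.1 h2.1).2
        have h5 := (Finset.mem_filter.1 h3.1).2
        refine Prod.ext hzz (Prod.ext ?_ ?_)
        · rw [← h2.2, ← h3.2, hzz]
        · rw [← h4, ← h5, hzz]
    exact_mod_cast h1
  have hoff : ((Q.filter fun z => ¬ z.1.1 = z.2.1).card : ℝ) ≤ (V1.card : ℝ) ^ 2 * n0 := by
    have h1 : (Q.filter fun z => ¬ z.1.1 = z.2.1).card = ∑ v ∈ V1 ×ˢ V1,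
        ((Q.filter fun z => ¬ z.1.1 = z.2.1).filter fun z => (z.1.1, z.2.1) = v).card := by
      refine Finset.card_eq_sum_card_fiberwise fun z hz => ?_
      have hz' := Finset.mem_product.1 (Finset.mem_filter.1 (Finset.mem_filter.1 hz).1).1
      exact Finset.mem_product.2 ⟨Finset.mem_image_of_mem _ hz'.1, Finset.mem_image_of_mem _ hz'.2⟩
    have h2 : ∀ v ∈ V1 ×ˢ V1,
        (((Q.filter fun z => ¬ z.1.1 = z.2.1).filter fun z => (z.1.1, z.2.1) = v).card : ℝ) ≤
          n0 := by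
      intro v _
      set F := (Q.filter fun z => ¬ z.1.1 = z.2.1).filter fun z => (z.1.1, z.2.1) = v with hF
      rcases F.eq_empty_or_nonempty with h0 | ⟨z₀, hz₀⟩
      · rw [h0, Finset.card_empty, Nat.cast_zero]
        linarith
      · have h3 : v.1 ≠ v.2 := by
          have h4 := Finset.mem_filter.1 hz₀
          have h5 := (Finset.mem_filter.1 h4.1).2
          rw [← h4.2]
          exact h5
        have h4 : (F.image fun z => z.1.2).card = F.card := by
          refine Finset.card_image_of_injOn fun z hz z' hz' hzz => ?_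
          have e1 := Finset.mem_filter.1 hz
          have e2 := Finset.mem_filter.1 hz'
          have e3 := (Finset.mem_filter.1 (Finset.mem_filter.1 e1.1).1).2
          have e4 := (Finset.mem_filter.1 (Finset.mem_filter.1 e2.1).1).2
          have e5 := e1.2.trans e2.2.symm
          have e6 := congrArg Prod.fst e5
          have e7 := congrArg Prod.snd e5
          have e8 : z.1.2 = z'.1.2 := hzz
          exact Prod.ext (Prod.ext e6 e8) (Prod.ext e7 (e3.symm.trans (e8.trans e4)))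
        rw [← h4]
        refine h v.1 v.2 h3 _ fun w hw => ?_
        obtain ⟨z, hz, rfl⟩ := Finset.mem_image.1 hw
        have e1 := Finset.mem_filter.1 hz
        have e2 := Finset.mem_filter.1 (Finset.mem_filter.1 e1.1).1
        have e3 := Finset.mem_product.1 e2.1
        have e4 := e2.2
        rw [← e1.2]
        refine ⟨e3.1, ?_⟩
        rw [e4]
        exact e3.2
    rw [h1]
    push_cast
    refine (Finset.sum_le_sum h2).trans ?_
    rw [Finset.sum_const, Finset.card_product, nsmul_eq_mul]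
    push_cast
    rw [pow_two]
  have hQle : (Q.card : ℝ) ≤ Ed.card + (V1.card : ℝ) ^ 2 * n0 := by
    have h1 := Finset.card_filter_add_card_filter_not (s := Q)
      (fun z : (α × β) × (α × β) => z.1.1 = z.2.1)
    have h2 : (Q.card : ℝ) = ((Q.filter fun z => z.1.1 = z.2.1).card : ℝ) +
        ((Q.filter fun z => ¬ z.1.1 = z.2.1).card : ℝ) := by
      rw [← h1]
      push_cast
      ring
    rw [h2]
    exact add_le_add hdiag hoff
  have hcs : (Ed.card : ℝ) ^ 2 ≤ V2.card * (Ed.card + (V1.card : ℝ) ^ 2 * n0) := by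
    have h1 := sq_sum_le_card_mul_sum_sq (s := V2)
      (f := fun w => ((Ed.filter fun x => x.2 = w).card : ℝ))
    rw [hsum, hsq] at h1
    exact h1.trans (mul_le_mul_of_nonneg_left hQle (Nat.cast_nonneg _))
  have hJ : (0 : ℝ) ≤ V1.card := Nat.cast_nonneg _
  have hJ' : (0 : ℝ) ≤ V2.card := Nat.cast_nonneg _
  have he : (0 : ℝ) ≤ Ed.card := Nat.cast_nonneg _
  have hr : 0 ≤ 2 * n0 * (V2.card : ℝ) := by positivity
  rw [← Real.sqrt_eq_rpow]
  rcases le_or_gt (Ed.card : ℝ) (2 * V2.card) with hle | hlt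
  · have := mul_nonneg hJ (Real.sqrt_nonneg (2 * n0 * (V2.card : ℝ)))
    linarith
  · have h1 : (Ed.card : ℝ) ^ 2 ≤ ((V1.card : ℝ) * √(2 * n0 * V2.card)) ^ 2 := by
      rw [mul_pow, Real.sq_sqrt hr]
      nlinarith
    have h2 : (Ed.card : ℝ) ≤ (V1.card : ℝ) * √(2 * n0 * V2.card) :=
      le_of_sq_le_sq h1 (by positivity)
    linarith

end Pool.Agent.Helper42.RT
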