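import Mathlib
import Pool.Agent.Helper42.RT.Defs

set_option autoImplicit false

open Finset
open Pool.Agent.Helper42.RO Pool.Agent.Helper44.RO2

namespace Pool.Agent.Helper42.RT

/-- The coordinate sum of a key is at most `65` times the number of prime divisors. -/
private lemma key_sum_le {X : ℝ} (hX : 1 < X) {x : ℕ} (hx : x ≠ 0) (hx2 : (x : ℝ) ≤ X ^ 2) :
    ∑ p ∈ x.primeFactors, key X x p ≤ 65 * x.primeFactors.card := by
  have hL : 0 < Real.log X := Real.log_pos hX
  have hxpos : (0 : ℝ) < x := by exact_mod_cast Nat.pos_of_ne_zero hx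
  have hlog : Real.log x ≤ 2 * Real.log X := by
    have h1 := Real.log_le_log hxpos hx2
    rw [Real.log_pow] at h1
    exact_mod_cast h1
  set s : ℝ := (x.primeFactors.card : ℝ) with hs
  have hs0 : 0 ≤ s := Nat.cast_nonneg _
  have hterm : ∀ p ∈ x.primeFactors, (key X x p : ℝ) ≤
      1 + (x.factorization p : ℝ) * Real.log p * (s / (Real.log X / 32)) := by
    intro p hp
    rw [key_apply, if_pos hp]
    push_cast
    have h0 : 0 ≤ (x.factorization p : ℝ) * Real.log p * x.primeFactors.card /
        (Real.log X / 32) := by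
      have := Real.log_natCast_nonneg p
      positivity
    have h1 := Nat.floor_le h0
    rw [mul_div_assoc] at h1 ⊢
    linarith
  have hsum : ((∑ p ∈ x.primeFactors, key X x p : ℕ) : ℝ) ≤ 65 * s := by
    push_cast
    refine (Finset.sum_le_sum hterm).trans ?_
    rw [Finset.sum_add_distrib, Finset.sum_const, nsmul_eq_mul, mul_one, ← Finset.sum_mul]
    have h2 : ∑ p ∈ x.primeFactors, (x.factorization p : ℝ) * Real.log p = Real.log x := by
      rw [Real.log_nat_eq_sum_factorization]
      rfl
    rw [h2]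
    have h3 : Real.log x * (s / (Real.log X / 32)) ≤ 64 * s := by
      have h4 : Real.log x * (s / (Real.log X / 32)) ≤ 2 * Real.log X * (s / (Real.log X / 32)) :=
        mul_le_mul_of_nonneg_right hlog (by positivity)
      have h5 : 2 * Real.log X * (s / (Real.log X / 32)) = 64 * s := by
        field_simp
        ring
      linarith
    linarith
  rw [hs] at hsum
  exact_mod_cast hsum

/-- RT-K3. The number of keys of numbers with radical at most `N`.
PROOF. `S.image (key X) ⊆ ⋃ n ∈ [1, ⌊N⌋], (S.filter (rad x = n)).image (key X)`. For fixed `n` and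
`x ∈ S` with `rad x = n`: `x.primeFactors = n.primeFactors` (`rad_primeFactors`), put
`s = n.primeFactors.card`; the sum over `p ∣ n` of `key X x p` is at most
`s + ∑ v_p(x) log p * s * 32 / log X ≤ s + log x * 32 * s / log X ≤ 65 * s` (`log x ≤ 2 log X`;
`∑ p, v_p(x) log p = log x`). By `Pool.Agent.Helper42.RO.card_le_of_sum_le` (with `F = n.primeFactors`,
`K = 65 * s`, the family = the image set itself, `k κ p = κ p`; two keys with support `n.primeFactors`
that agree there are equal) the fibre has at most `2 ^ (66 * s) = (2 ^ 66) ^ s` elements, and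
`pow_omega (2 ^ 66) ε` gives `≤ C' n ^ ε ≤ C' N ^ ε`. Sum over `n ≤ N`: `≤ C' N ^ (1 + ε)`. -/
theorem card_keys (ε : ℝ) (hε : 0 < ε) : ∃ C : ℝ, 1 ≤ C ∧ ∀ (X N : ℝ), 1 < X → 1 ≤ N →
    ∀ S : Finset ℕ, (∀ x ∈ S, x ≠ 0 ∧ (x : ℝ) ≤ X ^ 2 ∧ (rad x : ℝ) ≤ N) →
    ((S.image (key X)).card : ℝ) ≤ C * N ^ (1 + ε) := by
  classical
  obtain ⟨C, hC1, hC⟩ := pow_omega (2 ^ 66) ε (by norm_num) hε
  refine ⟨C, hC1, fun X N hX hN S hS => ?_⟩
  have hN0 : 0 < N := lt_of_lt_of_le one_pos hN
  have hsub : S.image (key X) ⊆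
      (Finset.Icc 1 ⌊N⌋₊).biUnion fun n => (S.filter fun x => rad x = n).image (key X) := by
    intro κ hκ
    obtain ⟨x, hx, rfl⟩ := Finset.mem_image.1 hκ
    refine Finset.mem_biUnion.2 ⟨rad x, Finset.mem_Icc.2 ⟨rad_pos x, Nat.le_floor (hS x hx).2.2⟩,
      Finset.mem_image.2 ⟨x, Finset.mem_filter.2 ⟨hx, rfl⟩, rfl⟩⟩
  have hfib : ∀ n ∈ Finset.Icc 1 ⌊N⌋₊,
      (((S.filter fun x => rad x = n).image (key X)).card : ℝ) ≤ C * N ^ ε := by
    intro n hn
    rw [Finset.mem_Icc] at hn
    have hpf : ∀ x ∈ S.filter (fun x => rad x = n), x.primeFactors = n.primeFactors := by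
      intro x hx
      rw [← (Finset.mem_filter.1 hx).2, rad_primeFactors]
    have h1 := card_le_of_sum_le n.primeFactors (65 * n.primeFactors.card)
      ((S.filter fun x => rad x = n).image (key X)) (fun κ p => κ p) (by
        intro κ hκ
        obtain ⟨x, hx, rfl⟩ := Finset.mem_image.1 hκ
        have h2 := hpf x hx
        have h3 := hS x (Finset.mem_filter.1 hx).1
        rw [← h2]
        exact key_sum_le hX h3.1 h3.2.1) (by
        intro κ hκ κ' hκ' hag
        obtain ⟨x, hx, rfl⟩ := Finset.mem_image.1 hκ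
        obtain ⟨y, hy, rfl⟩ := Finset.mem_image.1 hκ'
        refine DFunLike.ext _ _ fun p => ?_
        by_cases hp : p ∈ n.primeFactors
        · exact hag p hp
        · have e1 : key X x p = 0 := by
            rw [key_apply, if_neg]
            rw [hpf x hx]
            exact hp
          have e2 : key X y p = 0 := by
            rw [key_apply, if_neg]
            rw [hpf y hy]
            exact hp
          rw [e1, e2])
    have h2 : (((S.filter fun x => rad x = n).image (key X)).card : ℝ) ≤
        (2 ^ 66 : ℝ) ^ n.primeFactors.card := by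
      have h3 : (((S.filter fun x => rad x = n).image (key X)).card : ℝ) ≤
          ((2 ^ (65 * n.primeFactors.card + n.primeFactors.card) : ℕ) : ℝ) := by
        exact_mod_cast h1
      refine h3.trans (le_of_eq ?_)
      push_cast
      rw [← pow_mul]
      congr 1
      ring
    refine h2.trans ((hC n (by omega)).trans ?_)
    have h4 : (n : ℝ) ≤ N := (Nat.le_floor_iff hN0.le).1 hn.2
    exact mul_le_mul_of_nonneg_left (Real.rpow_le_rpow (Nat.cast_nonneg _) h4 hε.le)
      (by linarith)
  have h1 : ((S.image (key X)).card : ℝ) ≤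
      ∑ n ∈ Finset.Icc 1 ⌊N⌋₊, (((S.filter fun x => rad x = n).image (key X)).card : ℝ) := by
    have h2 := (Finset.card_le_card hsub).trans Finset.card_biUnion_le
    exact_mod_cast h2
  refine h1.trans ((Finset.sum_le_sum hfib).trans ?_)
  rw [Finset.sum_const, Nat.card_Icc, nsmul_eq_mul, Nat.add_sub_cancel]
  have h5 : ((⌊N⌋₊ : ℕ) : ℝ) ≤ N := Nat.floor_le hN0.le
  have h6 : 0 ≤ C * N ^ ε := by
    have := Real.rpow_nonneg hN0.le ε
    have : 0 ≤ C := by linarith
    positivity
  refine (mul_le_mul_of_nonneg_right h5 h6).trans (le_of_eq ?_)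
  rw [Real.rpow_add hN0, Real.rpow_one]
  ring

end Pool.Agent.Helper42.RT
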