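import Mathlib
import Pool.Agent.Helper42.RT.D4
import Pool.Agent.Helper42.RT.E1
import Pool.Agent.Helper42.RT.K3

set_option autoImplicit false

open Finset
open Pool.Agent.Helper42.RO Pool.Agent.Helper44.RO2

namespace Pool.Agent.Helper42.RT

/-- RT-F1. The count for one key of the entry `k` and one range of `c`.
PROOF. `Ed = S.image fun t => (key X (ent t j), key X (ent t l))`; the map is injective on `S` by
`key_unique`, so `S.card = Ed.card`. Apply `kst` with `n0 = C0 (M N1 N2) ^ (ε / 2) (1 + log Λ)` from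
`codegree (ε / 2)`. `Ed.image Prod.fst = (S.image fun t => ent t j).image (key X)` has at most
`C1 N1 ^ (1 + ε / 4)` elements and `Ed.image Prod.snd` at most `C1 N2 ^ (1 + ε / 4)` by `card_keys (ε / 4)`
(`ent t i ≤ c t ≤ X ^ 2`). So `S.card ≤ 2 C1 N2 ^ (1 + ε / 4) + C1 N1 ^ (1 + ε / 4) (2 n0 C1 N2 ^ (1 + ε / 4)) ^ (1 / 2)`,
and everything is at most `C (M N1 N2) ^ ε (1 + log Λ) (N2 + N1 N2 ^ (1 / 2))`
(`M, N1, N2 ≥ 1`, `(1 + log Λ) ^ (1 / 2) ≤ 1 + log Λ`). -/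
theorem one_key (ε : ℝ) (hε : 0 < ε) : ∃ C : ℝ, 1 ≤ C ∧ ∀ {k j l : Fin 3}, k ≠ j → l ≠ k → l ≠ j →
    ∀ (X M N1 N2 Λ : ℝ), 4096 ≤ X → 1 ≤ M → 1 ≤ N1 → 1 ≤ N2 → 1 ≤ Λ → ∀ S : Finset (ℕ × ℕ),
    (∀ t ∈ S, Cop t ∧ X < c t ∧ c t ≤ X ^ 2 ∧ Real.log (c t) ≤ Λ ∧ (rad (ent t k) : ℝ) ≤ M ∧
      (rad (ent t j) : ℝ) ≤ N1 ∧ (rad (ent t l) : ℝ) ≤ N2) →
    (∀ t ∈ S, ∀ s ∈ S, key X (ent t k) = key X (ent s k)) →
    (S.card : ℝ) ≤ C * (M * N1 * N2) ^ ε * (1 + Real.log Λ) * (N2 + N1 * N2 ^ (1 / 2 : ℝ)) := by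
  classical
  obtain ⟨C0, hC0, hcod⟩ := codegree (ε / 2) (by positivity)
  obtain ⟨C1, hC1, hkeys⟩ := card_keys (ε / 4) (by positivity)
  refine ⟨2 * C1 + 2 * C0 * C1 ^ 2, by nlinarith, ?_⟩
  intro k j l h1 h2 h3 X M N1 N2 Λ hX hM hN1 hN2 hΛ S hS hkey
  have hX1 : 1 < X := by linarith
  set U : ℝ := M * N1 * N2 with hU
  have hMN : 1 ≤ M * N1 := one_le_mul_of_one_le_of_one_le hM hN1
  have hU1 : 1 ≤ U := one_le_mul_of_one_le_of_one_le hMN hN2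
  have hU0 : 0 < U := by linarith
  have hN1U : N1 ≤ U := by
    have e1 : N1 ≤ M * N1 := by nlinarith
    have e2 : M * N1 ≤ U := by rw [hU]; nlinarith
    linarith
  have hN2U : N2 ≤ U := by rw [hU]; nlinarith
  have hlog : 0 ≤ Real.log Λ := Real.log_nonneg hΛ
  set La : ℝ := 1 + Real.log Λ with hLa
  have hLa1 : 1 ≤ La := by linarith
  set Ed : Finset ((ℕ →₀ ℕ) × (ℕ →₀ ℕ)) :=
    S.image fun t => (key X (ent t j), key X (ent t l)) with hEd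
  have hinj : Set.InjOn (fun t => (key X (ent t j), key X (ent t l))) (S : Set (ℕ × ℕ)) := by
    intro t ht s hs hts
    have e1 := congrArg Prod.fst hts
    have e2 := congrArg Prod.snd hts
    obtain ⟨a1, a2, -⟩ := hS t ht
    obtain ⟨b1, b2, -⟩ := hS s hs
    exact key_unique h1 h2 h3 hX a1 b1 a2 b2 (hkey t ht s hs) e1 e2
  have hcard : S.card = Ed.card := (Finset.card_image_of_injOn hinj).symm
  set n0 : ℝ := C0 * U ^ (ε / 2) * La with hn0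
  have hUe : ∀ x : ℝ, 0 ≤ x → 1 ≤ U ^ x := fun x hx => Real.one_le_rpow hU1 hx
  have hn01 : 1 ≤ n0 :=
    one_le_mul_of_one_le_of_one_le
      (one_le_mul_of_one_le_of_one_le hC0 (hUe _ (by positivity))) hLa1
  have hk := kst Ed n0 hn01 (fun v v' hvv W hW => by
    refine hcod h1 h2 h3 X M N1 N2 Λ hX hM hN1 hN2 hΛ S ?_ hkey v v' hvv W ?_
    · intro t ht
      obtain ⟨a1, a2, -, a4, a5, a6, a7⟩ := hS t ht
      exact ⟨a1, a2, a4, a5, a6, a7⟩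
    · intro w hw
      obtain ⟨b1, b2⟩ := hW w hw
      rw [hEd, Finset.mem_image] at b1 b2
      obtain ⟨t, ht, e1⟩ := b1
      obtain ⟨t', ht', e2⟩ := b2
      exact ⟨⟨t, ht, congrArg Prod.fst e1, congrArg Prod.snd e1⟩,
        ⟨t', ht', congrArg Prod.fst e2, congrArg Prod.snd e2⟩⟩)
  have hJ : ((Ed.image Prod.fst).card : ℝ) ≤ C1 * N1 ^ (1 + ε / 4) := by
    have e1 : Ed.image Prod.fst = (S.image fun t => ent t j).image (key X) := by
      rw [hEd, Finset.image_image, Finset.image_image]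
      rfl
    rw [e1]
    refine hkeys X N1 hX1 hN1 _ ?_
    intro x hx
    obtain ⟨t, ht, rfl⟩ := Finset.mem_image.1 hx
    obtain ⟨a1, a2, a3, -, -, a6, -⟩ := hS t ht
    exact ⟨ent_ne a1 j, (ent_le_c t j).trans a3, a6⟩
  have hJ' : ((Ed.image Prod.snd).card : ℝ) ≤ C1 * N2 ^ (1 + ε / 4) := by
    have e1 : Ed.image Prod.snd = (S.image fun t => ent t l).image (key X) := by
      rw [hEd, Finset.image_image, Finset.image_image]
      rfl
    rw [e1]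
    refine hkeys X N2 hX1 hN2 _ ?_
    intro x hx
    obtain ⟨t, ht, rfl⟩ := Finset.mem_image.1 hx
    obtain ⟨a1, a2, a3, -, -, -, a7⟩ := hS t ht
    exact ⟨ent_ne a1 l, (ent_le_c t l).trans a3, a7⟩
  have hpow : ∀ N : ℝ, 1 ≤ N → N ≤ U → C1 * N ^ (1 + ε / 4) ≤ C1 * N * U ^ (ε / 4) := by
    intro N hN hNU
    have hN0 : 0 < N := by linarith
    rw [Real.rpow_add hN0, Real.rpow_one, ← mul_assoc]
    exact mul_le_mul_of_nonneg_left (Real.rpow_le_rpow hN0.le hNU (by positivity)) (by positivity)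
  have hJ1 := hJ.trans (hpow N1 hN1 hN1U)
  have hJ1' := hJ'.trans (hpow N2 hN2 hN2U)
  -- the square root
  set Y : ℝ := 2 * C0 * C1 * La * U ^ (3 * ε / 4) with hY
  have hY1 : 1 ≤ Y := by
    have e1 : 1 ≤ 2 * C0 := by linarith
    have e2 := one_le_mul_of_one_le_of_one_le (one_le_mul_of_one_le_of_one_le
      (one_le_mul_of_one_le_of_one_le e1 hC1) hLa1) (hUe (3 * ε / 4) (by positivity))
    exact e2
  have hUU : U ^ (ε / 2) * U ^ (ε / 4) = U ^ (3 * ε / 4) := by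
    rw [← Real.rpow_add hU0]
    congr 1
    ring
  have hUU' : U ^ (ε / 4) * U ^ (3 * ε / 4) = U ^ ε := by
    rw [← Real.rpow_add hU0]
    congr 1
    ring
  have hsq : (2 * n0 * (Ed.image Prod.snd).card) ^ (1 / 2 : ℝ) ≤ Y * N2 ^ (1 / 2 : ℝ) := by
    have e1 : 2 * n0 * ((Ed.image Prod.snd).card : ℝ) ≤ Y * N2 := by
      have e2 : 2 * n0 * ((Ed.image Prod.snd).card : ℝ) ≤ 2 * n0 * (C1 * N2 * U ^ (ε / 4)) :=
        mul_le_mul_of_nonneg_left hJ1' (by positivity)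
      refine e2.trans (le_of_eq ?_)
      rw [hn0, hY, ← hUU]
      ring
    have e3 : (2 * n0 * ((Ed.image Prod.snd).card : ℝ)) ^ (1 / 2 : ℝ) ≤
        (Y * N2) ^ (1 / 2 : ℝ) := by
      apply Real.rpow_le_rpow (by positivity) e1 (by norm_num)
    refine e3.trans ?_
    rw [Real.mul_rpow (by positivity) (by positivity)]
    apply mul_le_mul_of_nonneg_right _ (by positivity)
    calc Y ^ (1 / 2 : ℝ) ≤ Y ^ (1 : ℝ) := Real.rpow_le_rpow_of_exponent_le hY1 (by norm_num)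
      _ = Y := Real.rpow_one Y
  have hU4 : U ^ (ε / 4) ≤ U ^ ε := Real.rpow_le_rpow_of_exponent_le hU1 (by linarith)
  have t1 : 2 * ((Ed.image Prod.snd).card : ℝ) ≤ 2 * C1 * U ^ ε * La * N2 := by
    have e1 : C1 * N2 * U ^ (ε / 4) ≤ C1 * N2 * U ^ ε :=
      mul_le_mul_of_nonneg_left hU4 (by positivity)
    have e2 : C1 * N2 * U ^ ε ≤ C1 * N2 * U ^ ε * La := le_mul_of_one_le_right (by positivity) hLa1
    calc 2 * ((Ed.image Prod.snd).card : ℝ) ≤ 2 * (C1 * N2 * U ^ ε * La) := by linarith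
      _ = 2 * C1 * U ^ ε * La * N2 := by ring
  have t2 : ((Ed.image Prod.fst).card : ℝ) *
      (2 * n0 * (Ed.image Prod.snd).card) ^ (1 / 2 : ℝ) ≤
      2 * C0 * C1 ^ 2 * U ^ ε * La * (N1 * N2 ^ (1 / 2 : ℝ)) := by
    have e1 := mul_le_mul hJ1 hsq (by positivity) (by positivity)
    refine e1.trans (le_of_eq ?_)
    rw [hY, ← hUU']
    ring
  rw [hcard]
  have hpos1 : 0 ≤ 2 * C1 * U ^ ε * La * (N1 * N2 ^ (1 / 2 : ℝ)) := by positivity
  have hpos2 : 0 ≤ 2 * C0 * C1 ^ 2 * U ^ ε * La * N2 := by positivity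
  calc (Ed.card : ℝ) ≤ 2 * C1 * U ^ ε * La * N2 +
        2 * C0 * C1 ^ 2 * U ^ ε * La * (N1 * N2 ^ (1 / 2 : ℝ)) := by linarith
    _ ≤ (2 * C1 + 2 * C0 * C1 ^ 2) * U ^ ε * La * (N2 + N1 * N2 ^ (1 / 2 : ℝ)) := by
        have : (2 * C1 + 2 * C0 * C1 ^ 2) * U ^ ε * La * (N2 + N1 * N2 ^ (1 / 2 : ℝ)) =
          2 * C1 * U ^ ε * La * N2 + 2 * C0 * C1 ^ 2 * U ^ ε * La * (N1 * N2 ^ (1 / 2 : ℝ)) +
          (2 * C1 * U ^ ε * La * (N1 * N2 ^ (1 / 2 : ℝ)) +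
            2 * C0 * C1 ^ 2 * U ^ ε * La * N2) := by ring
        rw [this]
        linarith

end Pool.Agent.Helper42.RT
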