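import Mathlib
import Pool.Agent.Helper42.RT.F1
import Pool.Agent.Helper44.RO2.TypeAB

set_option autoImplicit false

open Finset
open Pool.Agent.Helper42.RO Pool.Agent.Helper44.RO2

namespace Pool.Agent.Helper42.RT

private theorem scale_exists (n : ℕ) (hn : 4096 < (n : ℝ)) : ∃ i : ℕ,
    (4096 : ℝ) ^ (2 ^ i) < n ∧ (n : ℝ) ≤ ((4096 : ℝ) ^ (2 ^ i)) ^ 2 := by
  classical
  have hex : ∃ i : ℕ, (n : ℝ) ≤ ((4096 : ℝ) ^ (2 ^ i)) ^ 2 := by
    refine ⟨n, ?_⟩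
    have h1 : (n : ℝ) < 2 ^ n := by exact_mod_cast Nat.lt_two_pow_self
    have h2 : (2 : ℝ) ^ n ≤ 4096 ^ n := pow_le_pow_left₀ (by norm_num) (by norm_num) n
    have h3 : (4096 : ℝ) ^ n ≤ 4096 ^ (2 ^ n * 2) := by
      apply pow_le_pow_right₀ (by norm_num)
      have := Nat.lt_two_pow_self (n := n)
      omega
    rw [← pow_mul]
    linarith
  refine ⟨Nat.find hex, ?_, Nat.find_spec hex⟩
  rcases Nat.eq_zero_or_pos (Nat.find hex) with h0 | h0
  · rw [h0]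
    simpa using hn
  · have h1 := Nat.find_min hex (m := Nat.find hex - 1) (by omega)
    have h2 : ((4096 : ℝ) ^ (2 ^ (Nat.find hex - 1))) ^ 2 = 4096 ^ (2 ^ Nat.find hex) := by
      rw [← pow_mul, ← pow_succ, Nat.sub_add_cancel h0]
    rw [h2] at h1
    exact lt_of_not_ge h1

private theorem scale_index {i : ℕ} {x Λ : ℝ} (h1 : (4096 : ℝ) ^ (2 ^ i) < x)
    (h2 : Real.log x ≤ Λ) : i ∈ Finset.range (⌊Real.log Λ / Real.log 2⌋₊ + 1) := by
  have h3 : Real.log ((4096 : ℝ) ^ (2 ^ i)) < Real.log x := Real.log_lt_log (by positivity) h1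
  rw [Real.log_pow] at h3
  have h4 : 1 ≤ Real.log 4096 := by
    rw [Real.le_log_iff_exp_le (by norm_num)]
    have := Real.exp_one_lt_d9
    linarith
  have h5 : (2 : ℝ) ^ i ≤ Λ := by
    push_cast at h3
    have h6 : (2 : ℝ) ^ i * 1 ≤ 2 ^ i * Real.log 4096 :=
      mul_le_mul_of_nonneg_left h4 (by positivity)
    linarith
  have h6 : i * Real.log 2 ≤ Real.log Λ := by
    rw [← Real.log_pow]
    exact Real.log_le_log (by positivity) h5
  rw [Finset.mem_range, Nat.lt_succ_iff]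
  apply Nat.le_floor
  rw [le_div_iff₀ (Real.log_pos one_lt_two)]
  exact h6

private theorem small_count (S : Finset (ℕ × ℕ)) (hS : ∀ t ∈ S, c t ≤ 4096) :
    (S.card : ℝ) ≤ 4097 ^ 2 := by
  have h1 : S ⊆ Finset.range 4097 ×ˢ Finset.range 4097 := by
    intro t ht
    have h2 := hS t ht
    unfold c at h2
    have h3 : t.1 + t.2 ≤ 4096 := by exact_mod_cast h2
    rw [Finset.mem_product, Finset.mem_range, Finset.mem_range]
    omega
  have h2 := Finset.card_le_card h1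
  rw [Finset.card_product, Finset.card_range] at h2
  have h3 : (S.card : ℝ) ≤ ((4097 * 4097 : ℕ) : ℝ) := by exact_mod_cast h2
  refine h3.trans (by norm_num)

private theorem fibre_count {ι : Type*} [DecidableEq ι] (S : Finset (ℕ × ℕ)) (f : ℕ × ℕ → ι)
    (B : ℝ) (hB : ∀ κ, ((S.filter fun t => f t = κ).card : ℝ) ≤ B) :
    (S.card : ℝ) ≤ (S.image f).card * B := by
  have h1 := Finset.card_eq_sum_card_image f S
  have h2 : (S.card : ℝ) = ∑ κ ∈ S.image f, ((S.filter fun t => f t = κ).card : ℝ) := by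
    exact_mod_cast h1
  rw [h2]
  calc ∑ κ ∈ S.image f, ((S.filter fun t => f t = κ).card : ℝ) ≤ ∑ _κ ∈ S.image f, B :=
        Finset.sum_le_sum fun κ _ => hB κ
    _ = (S.image f).card * B := by rw [Finset.sum_const, nsmul_eq_mul]

/-- RT-F2. The unconditional count (U).
PROOF. Pairs with `c t ≤ 4096`: at most `4096 ^ 2` (both entries are at most `4096`); the right side is at
least `C`. The others: put `X_i = 4096 ^ (2 ^ i)`; there is exactly one `i` with `X_i < c t ≤ X_i ^ 2 = X_(i+1)`, and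
`2 ^ i log 4096 < Λ`, so `i ≤ log Λ / log 2` (and `Λ > 1`): at most `2 (1 + log Λ)` values of `i`. For each `i`
fibre over the key `key X_i (ent t k)`: at most `C1 M ^ (1 + ε / 2)` keys by `card_keys (ε / 2)`
(`Finset.card_eq_sum_card_image` for the map `t ↦ key X_i (ent t k)`), each fibre is bounded by
`one_key (ε / 2)`. Total `C (M N1 N2) ^ ε (1 + log Λ) ^ 2 M (N2 + N1 N2 ^ (1 / 2))`, and
`(1 + log Λ) ^ 2 ≤ C' Λ ^ ε` (`one_add_log_le_rpow (ε / 2)` of file `Helper44/RO2/TypeAB`). -/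
theorem U_count (ε : ℝ) (hε : 0 < ε) : ∃ C : ℝ, 1 ≤ C ∧ ∀ {k j l : Fin 3}, k ≠ j → l ≠ k → l ≠ j →
    ∀ (M N1 N2 Λ : ℝ), 1 ≤ M → 1 ≤ N1 → 1 ≤ N2 → 1 ≤ Λ → ∀ S : Finset (ℕ × ℕ),
    (∀ t ∈ S, Cop t ∧ Real.log (c t) ≤ Λ ∧ (rad (ent t k) : ℝ) ≤ M ∧
      (rad (ent t j) : ℝ) ≤ N1 ∧ (rad (ent t l) : ℝ) ≤ N2) →
    (S.card : ℝ) ≤ C * (M * N1 * N2) ^ ε * Λ ^ ε * (M * (N2 + N1 * N2 ^ (1 / 2 : ℝ))) := by
  classical
  obtain ⟨C0, hC0, hone⟩ := one_key (ε / 2) (by positivity)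
  obtain ⟨C1, hC1, hkeys⟩ := card_keys (ε / 2) (by positivity)
  obtain ⟨C2, hC2, hlog⟩ := one_add_log_le_rpow (ε / 2) (by positivity)
  refine ⟨4097 ^ 2 + 2 * C0 * C1 * C2 ^ 2, ?_, ?_⟩
  · have : 0 ≤ 2 * C0 * C1 * C2 ^ 2 := by positivity
    linarith [this, show (1 : ℝ) ≤ 4097 ^ 2 by norm_num]
  intro k j l h1 h2 h3 M N1 N2 Λ hM hN1 hN2 hΛ S hS
  set F : ℝ := N2 + N1 * N2 ^ (1 / 2 : ℝ) with hF
  have hN2r : 1 ≤ N2 ^ (1 / 2 : ℝ) := Real.one_le_rpow hN2 (by norm_num)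
  have hF1 : 1 ≤ F := by
    have : 0 ≤ N1 * N2 ^ (1 / 2 : ℝ) := by positivity
    linarith
  have hF0 : 0 ≤ F := by linarith
  have hP1 : 1 ≤ M * N1 * N2 :=
    one_le_mul_of_one_le_of_one_le (one_le_mul_of_one_le_of_one_le hM hN1) hN2
  have hP0 : 0 < M * N1 * N2 := lt_of_lt_of_le one_pos hP1
  have hM0 : 0 < M := lt_of_lt_of_le one_pos hM
  have hL0 : 0 ≤ Real.log Λ := Real.log_nonneg hΛ
  have hL1 : 0 ≤ 1 + Real.log Λ := by linarith
  set B : ℝ := C0 * (M * N1 * N2) ^ (ε / 2) * (1 + Real.log Λ) * F with hB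
  have hB0 : 0 ≤ B := by positivity
  -- one scale
  have hscale : ∀ i : ℕ, ((S.filter fun t => (4096 : ℝ) ^ (2 ^ i) < c t ∧
      c t ≤ ((4096 : ℝ) ^ (2 ^ i)) ^ 2).card : ℝ) ≤ C1 * M ^ (1 + ε / 2) * B := by
    intro i
    set X : ℝ := (4096 : ℝ) ^ (2 ^ i) with hX
    have hX4 : 4096 ≤ X := by
      have h4 : (4096 : ℝ) ^ 1 ≤ 4096 ^ (2 ^ i) :=
        pow_le_pow_right₀ (by norm_num) Nat.one_le_two_pow
      rwa [pow_one] at h4
    set Si := S.filter fun t => X < c t ∧ c t ≤ X ^ 2 with hSi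
    have hSiS : ∀ t ∈ Si, t ∈ S ∧ X < c t ∧ c t ≤ X ^ 2 := fun t ht => Finset.mem_filter.mp ht
    have hfib : ∀ κ, ((Si.filter fun t => key X (ent t k) = κ).card : ℝ) ≤ B := by
      intro κ
      refine hone h1 h2 h3 X M N1 N2 Λ hX4 hM hN1 hN2 hΛ _ ?_ ?_
      · intro t ht
        obtain ⟨ht1, -⟩ := Finset.mem_filter.mp ht
        obtain ⟨ht2, ht3, ht4⟩ := hSiS t ht1
        obtain ⟨a1, a2, a3, a4, a5⟩ := hS t ht2
        exact ⟨a1, ht3, ht4, a2, a3, a4, a5⟩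
      · intro t ht s hs
        rw [(Finset.mem_filter.mp ht).2, (Finset.mem_filter.mp hs).2]
    have h4 := fibre_count Si (fun t => key X (ent t k)) B hfib
    have h5 : ((Si.image fun t => key X (ent t k)).card : ℝ) ≤ C1 * M ^ (1 + ε / 2) := by
      have h6 := hkeys X M (by linarith) hM (Si.image fun t => ent t k) (by
        intro x hx
        obtain ⟨t, ht, rfl⟩ := Finset.mem_image.mp hx
        obtain ⟨ht2, ht3, ht4⟩ := hSiS t ht
        obtain ⟨a1, a2, a3, a4, a5⟩ := hS t ht2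
        exact ⟨ent_ne a1 k, (ent_le_c t k).trans ht4, a3⟩)
      rw [Finset.image_image] at h6
      exact h6
    exact h4.trans (mul_le_mul_of_nonneg_right h5 hB0)
  -- the decomposition
  set I : ℕ := ⌊Real.log Λ / Real.log 2⌋₊ + 1 with hI
  have hsub : S ⊆ (S.filter fun t => c t ≤ 4096) ∪ (Finset.range I).biUnion fun i =>
      S.filter fun t => (4096 : ℝ) ^ (2 ^ i) < c t ∧ c t ≤ ((4096 : ℝ) ^ (2 ^ i)) ^ 2 := by
    intro t ht
    rcases le_or_gt (c t) 4096 with h4 | h4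
    · exact Finset.mem_union_left _ (Finset.mem_filter.mpr ⟨ht, h4⟩)
    · obtain ⟨i, hi1, hi2⟩ := scale_exists (t.1 + t.2) h4
      refine Finset.mem_union_right _ (Finset.mem_biUnion.mpr ⟨i, ?_, ?_⟩)
      · exact scale_index hi1 (hS t ht).2.1
      · exact Finset.mem_filter.mpr ⟨ht, hi1, hi2⟩
  have hI2 : (I : ℝ) ≤ 2 * (1 + Real.log Λ) := by
    have hl2 : (0.6931471803 : ℝ) < Real.log 2 := Real.log_two_gt_d9
    have h4 : ((⌊Real.log Λ / Real.log 2⌋₊ : ℕ) : ℝ) ≤ Real.log Λ / Real.log 2 :=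
      Nat.floor_le (by positivity)
    have h5 : Real.log Λ / Real.log 2 ≤ 2 * Real.log Λ := by
      rw [div_le_iff₀ (by linarith)]
      nlinarith
    rw [hI]
    push_cast
    linarith
  have hcard : (S.card : ℝ) ≤ 4097 ^ 2 + 2 * (1 + Real.log Λ) * (C1 * M ^ (1 + ε / 2) * B) := by
    have h4 : (S.card : ℝ) ≤ ((S.filter fun t => c t ≤ 4096).card : ℝ) +
        ∑ i ∈ Finset.range I, ((S.filter fun t => (4096 : ℝ) ^ (2 ^ i) < c t ∧
          c t ≤ ((4096 : ℝ) ^ (2 ^ i)) ^ 2).card : ℝ) := by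
      have h5 := (Finset.card_le_card hsub).trans (Finset.card_union_le _ _)
      have h6 := h5.trans (Nat.add_le_add_left Finset.card_biUnion_le _)
      exact_mod_cast h6
    have h5 : ((S.filter fun t => c t ≤ 4096).card : ℝ) ≤ 4097 ^ 2 :=
      small_count _ fun t ht => (Finset.mem_filter.mp ht).2
    have h6 : ∑ i ∈ Finset.range I, ((S.filter fun t => (4096 : ℝ) ^ (2 ^ i) < c t ∧
          c t ≤ ((4096 : ℝ) ^ (2 ^ i)) ^ 2).card : ℝ) ≤ I * (C1 * M ^ (1 + ε / 2) * B) := by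
      calc _ ≤ ∑ _i ∈ Finset.range I, (C1 * M ^ (1 + ε / 2) * B) :=
            Finset.sum_le_sum fun i _ => hscale i
        _ = I * (C1 * M ^ (1 + ε / 2) * B) := by
            rw [Finset.sum_const, Finset.card_range, nsmul_eq_mul]
    have h7 : (I : ℝ) * (C1 * M ^ (1 + ε / 2) * B) ≤
        2 * (1 + Real.log Λ) * (C1 * M ^ (1 + ε / 2) * B) :=
      mul_le_mul_of_nonneg_right hI2 (by positivity)
    linarith
  -- final estimate
  have hPe : 1 ≤ (M * N1 * N2) ^ ε := Real.one_le_rpow hP1 hε.le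
  have hΛe : 1 ≤ Λ ^ ε := Real.one_le_rpow hΛ hε.le
  have hMF : 1 ≤ M * F := one_le_mul_of_one_le_of_one_le hM hF1
  have hT1 : 1 ≤ (M * N1 * N2) ^ ε * Λ ^ ε * (M * F) :=
    one_le_mul_of_one_le_of_one_le (one_le_mul_of_one_le_of_one_le hPe hΛe) hMF
  have hMe : M ^ (1 + ε / 2) ≤ M * (M * N1 * N2) ^ (ε / 2) := by
    rw [Real.rpow_add hM0, Real.rpow_one]
    apply mul_le_mul_of_nonneg_left _ hM0.le
    apply Real.rpow_le_rpow hM0.le _ (by positivity)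
    rw [mul_assoc]
    exact le_mul_of_one_le_right hM0.le (one_le_mul_of_one_le_of_one_le hN1 hN2)
  have hlog2 : (1 + Real.log Λ) ^ 2 ≤ C2 ^ 2 * Λ ^ ε := by
    have h4 : (1 + Real.log Λ) ^ 2 ≤ (C2 * Λ ^ (ε / 2)) ^ 2 :=
      pow_le_pow_left₀ hL1 (hlog Λ hΛ) 2
    have h5 : (Λ ^ (ε / 2)) ^ 2 = Λ ^ ε := by
      rw [← Real.rpow_natCast, ← Real.rpow_mul (by linarith)]
      congr 1
      push_cast
      ring
    rwa [mul_pow, h5] at h4
  have hPP : (M * N1 * N2) ^ (ε / 2) * (M * N1 * N2) ^ (ε / 2) = (M * N1 * N2) ^ ε := by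
    rw [← Real.rpow_add hP0]
    congr 1
    ring
  have hmain : 2 * (1 + Real.log Λ) * (C1 * M ^ (1 + ε / 2) * B) ≤
      2 * C0 * C1 * C2 ^ 2 * ((M * N1 * N2) ^ ε * Λ ^ ε * (M * F)) := by
    calc 2 * (1 + Real.log Λ) * (C1 * M ^ (1 + ε / 2) * B)
        ≤ 2 * (1 + Real.log Λ) * (C1 * (M * (M * N1 * N2) ^ (ε / 2)) * B) := by
          apply mul_le_mul_of_nonneg_left _ (by positivity)
          apply mul_le_mul_of_nonneg_right _ hB0
          exact mul_le_mul_of_nonneg_left hMe (by positivity)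
      _ = (2 * C0 * C1 * ((M * N1 * N2) ^ (ε / 2) * (M * N1 * N2) ^ (ε / 2)) * (M * F)) *
            (1 + Real.log Λ) ^ 2 := by
          rw [hB]
          ring
      _ = (2 * C0 * C1 * (M * N1 * N2) ^ ε * (M * F)) * (1 + Real.log Λ) ^ 2 := by
          rw [hPP]
      _ ≤ (2 * C0 * C1 * (M * N1 * N2) ^ ε * (M * F)) * (C2 ^ 2 * Λ ^ ε) :=
          mul_le_mul_of_nonneg_left hlog2 (by positivity)
      _ = 2 * C0 * C1 * C2 ^ 2 * ((M * N1 * N2) ^ ε * Λ ^ ε * (M * F)) := by ring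
  calc (S.card : ℝ) ≤ 4097 ^ 2 + 2 * (1 + Real.log Λ) * (C1 * M ^ (1 + ε / 2) * B) := hcard
    _ ≤ 4097 ^ 2 * ((M * N1 * N2) ^ ε * Λ ^ ε * (M * F)) +
          2 * C0 * C1 * C2 ^ 2 * ((M * N1 * N2) ^ ε * Λ ^ ε * (M * F)) := by
        apply add_le_add _ hmain
        exact le_mul_of_one_le_right (by norm_num) hT1
    _ = (4097 ^ 2 + 2 * C0 * C1 * C2 ^ 2) * (M * N1 * N2) ^ ε * Λ ^ ε * (M * F) := by ring

end Pool.Agent.Helper42.RT
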