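import Mathlib
import Pool.Agent.Helper42.RT.F2

set_option autoImplicit false

open Finset
open Pool.Agent.Helper42.RO Pool.Agent.Helper44.RO2

namespace Pool.Agent.Helper42.RT

private lemma g2_order (f : Fin 3 → ℕ) : ∃ k j l : Fin 3, k ≠ j ∧ l ≠ k ∧ l ≠ j ∧
    f k ≤ f j ∧ f j ≤ f l := by
  rcases le_total (f 0) (f 1) with h1 | h1
  · rcases le_total (f 1) (f 2) with h2 | h2
    · exact ⟨0, 1, 2, by decide, by decide, by decide, h1, h2⟩
    · rcases le_total (f 0) (f 2) with h3 | h3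
      · exact ⟨0, 2, 1, by decide, by decide, by decide, h3, h2⟩
      · exact ⟨2, 0, 1, by decide, by decide, by decide, h3, h1⟩
  · rcases le_total (f 1) (f 2) with h2 | h2
    · rcases le_total (f 0) (f 2) with h3 | h3
      · exact ⟨1, 0, 2, by decide, by decide, by decide, h1, h3⟩
      · exact ⟨1, 2, 0, by decide, by decide, by decide, h2, h3⟩
    · exact ⟨2, 1, 0, by decide, by decide, by decide, h2, h1⟩

private lemma g2_clog {r : ℕ} (hr : 1 ≤ r) : 2 ^ Nat.clog 2 r ≤ 2 * r := by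
  rcases Nat.eq_or_lt_of_le hr with h | h
  · rw [← h]
    simp
  · have h1 : 2 ^ (Nat.clog 2 r).pred < r := Nat.pow_pred_clog_lt_self (by norm_num) h
    have h2 : 0 < Nat.clog 2 r := Nat.clog_pos (by norm_num) h
    obtain ⟨n, hn⟩ : ∃ n, Nat.clog 2 r = n + 1 := ⟨Nat.clog 2 r - 1, by omega⟩
    rw [hn] at h1 ⊢
    rw [Nat.pred_succ] at h1
    rw [pow_succ]
    omega

private lemma g2_log {Z : ℕ} (hZ : 1 ≤ Z) :
    ((Nat.clog 2 Z : ℕ) : ℝ) + 1 ≤ 2 * (1 + Real.log Z) := by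
  have h1 : (2 : ℝ) ^ Nat.clog 2 Z ≤ 2 * Z := by exact_mod_cast g2_clog hZ
  have hZ0 : (0 : ℝ) < Z := by exact_mod_cast hZ
  have h2 := Real.log_le_log (by positivity) h1
  rw [Real.log_pow, Real.log_mul (by norm_num) hZ0.ne'] at h2
  have h3 : (1 : ℝ) / 2 ≤ Real.log 2 := by
    have := Real.log_two_gt_d9
    linarith only [this]
  have h4 : 0 ≤ Real.log Z := Real.log_natCast_nonneg Z
  have h5 : Real.log 2 * (((Nat.clog 2 Z : ℕ) : ℝ) - 1) ≤ Real.log Z := by linarith only [h2]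
  by_cases h6 : ((Nat.clog 2 Z : ℕ) : ℝ) - 1 ≤ 0
  · linarith only [h6, h4]
  · push Not at h6
    nlinarith only [h5, h6, h3]

private lemma g2_cases {k j l : Fin 3} (h1 : k ≠ j) (h2 : l ≠ k) (h3 : l ≠ j) (i : Fin 3) :
    i = k ∨ i = j ∨ i = l := by
  revert k j l i
  decide

private lemma g2_core {M N1 N2 Z V : ℝ} (hM : 1 ≤ M) (h1 : M ≤ N1) (h2 : N1 ≤ N2) (hZ : 1 ≤ Z)
    (hV : M * N1 * N2 ≤ 8 * Z) (hV1 : 1 ≤ V) (hN : V ≤ N1) :
    M * (N2 + N1 * N2 ^ (1 / 2 : ℝ)) ≤ 8 * (Z ^ (5 / 6 : ℝ) + Z / V) := by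
  have hZ0 : (0 : ℝ) < Z := by linarith only [hZ]
  have hN1 : 1 ≤ N1 := hM.trans h1
  have hN2 : 1 ≤ N2 := hN1.trans h2
  have hM0 : 0 < M := by linarith only [hM]
  have hN10 : 0 < N1 := by linarith only [hN1]
  have hN20 : 0 < N2 := by linarith only [hN2]
  have hV0 : 0 < V := by linarith only [hV1]
  set w : ℝ := Z ^ (1 / 6 : ℝ) with hw
  have hw0 : 0 < w := Real.rpow_pos_of_pos hZ0 _
  have hw5 : Z ^ (5 / 6 : ℝ) = w ^ 5 := by
    rw [hw, ← Real.rpow_natCast, ← Real.rpow_mul hZ0.le]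
    norm_num
  have hw6 : Z = w ^ 6 := by
    rw [hw, ← Real.rpow_natCast, ← Real.rpow_mul hZ0.le]
    norm_num
  set s : ℝ := N2 ^ (1 / 2 : ℝ) with hs
  have hs0 : 0 < s := Real.rpow_pos_of_pos hN20 _
  have hs2 : s ^ 2 = N2 := by
    rw [hs, ← Real.rpow_natCast, ← Real.rpow_mul hN20.le]
    norm_num
  have hA : M * N2 ≤ 8 * (Z / V) := by
    have h3 : M * N2 * V ≤ 8 * Z := by
      refine le_trans ?_ hV
      calc M * N2 * V ≤ M * N2 * N1 := mul_le_mul_of_nonneg_left hN (by positivity)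
        _ = M * N1 * N2 := by ring
    rw [← mul_div_assoc, le_div_iff₀ hV0]
    exact h3
  have hB : M * N1 * s ≤ 8 * w ^ 5 := by
    have h3 : (M * N1 * s) ^ 6 ≤ (8 * w ^ 5) ^ 6 := by
      have e1 : (M * N1 * s) ^ 6 = (M * N1) ^ 5 * (M * N1) * (s ^ 2) ^ 3 := by ring
      have h4 : M * N1 ≤ N2 ^ 2 := by
        rw [pow_two]
        exact mul_le_mul (h1.trans h2) h2 hN10.le hN20.le
      rw [e1, hs2]
      calc (M * N1) ^ 5 * (M * N1) * N2 ^ 3 ≤ (M * N1) ^ 5 * N2 ^ 2 * N2 ^ 3 :=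
            mul_le_mul_of_nonneg_right (mul_le_mul_of_nonneg_left h4 (by positivity))
              (by positivity)
        _ = (M * N1 * N2) ^ 5 := by ring
        _ ≤ (8 * Z) ^ 5 := pow_le_pow_left₀ (by positivity) hV 5
        _ = 8 ^ 5 * w ^ 30 := by rw [hw6]; ring
        _ ≤ 8 ^ 6 * w ^ 30 := mul_le_mul_of_nonneg_right (by norm_num) (by positivity)
        _ = (8 * w ^ 5) ^ 6 := by ring
    exact (pow_le_pow_iff_left₀ (by positivity) (by positivity) (by norm_num)).1 h3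
  rw [hw5]
  calc M * (N2 + N1 * s) = M * N2 + M * N1 * s := by ring
    _ ≤ 8 * (Z / V) + 8 * w ^ 5 := add_le_add hA hB
    _ = 8 * (w ^ 5 + Z / V) := by ring

/-- RT-G2. Triples two of whose radicals are at least `V`.
PROOF. As `balanced_count` (file `G1.lean`): for `t ∈ S` choose an order `(k, j, l)` of the indices with
`rad (ent t k) ≤ rad (ent t j) ≤ rad (ent t l)` and powers of two `M = 2 ^ α`, `N1 = 2 ^ β`, `N2 = 2 ^ γ` with
`rad (ent t k) ≤ M < 2 rad (ent t k)` and so on (`Nat.clog 2`), so `α ≤ β ≤ γ ≤ clog 2 Z`, `M N1 N2 ≤ 8 rad (T t) ≤ 8 Z`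
(`rad_T`). Since two radicals are at least `V`, the middle one is: `V ≤ rad (ent t j) ≤ N1`. So `S` is covered by at most
`27 * (clog 2 Z + 1) ^ 3` classes (indices `k, j, l` and `α, β, γ`), each bounded by `U_count (ε / 4)`:
`C (8 Z) ^ (ε / 4) Λ ^ (ε / 4) (M N2 + M N1 N2 ^ (1 / 2))`. Here `M N2 = (M N1 N2) / N1 ≤ 8 Z / V` and, with
`V0 = M N1 N2 ≤ 8 Z`, `M ≤ N1 ≤ N2`: `(M N1) ^ 3 ≤ (M N1) ^ 2 N2 ^ 2`, so `M N1 ≤ V0 ^ (2 / 3)` and
`M N1 N2 ^ (1 / 2) = V0 ^ (1 / 2) (M N1) ^ (1 / 2) ≤ V0 ^ (5 / 6) ≤ 8 Z ^ (5 / 6)`. Finally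
`(clog 2 Z + 1) ^ 3 ≤ C' Z ^ (ε / 2)`. -/
theorem middle_count (ε : ℝ) (hε : 0 < ε) : ∃ C : ℝ, 1 ≤ C ∧
    ∀ (Z : ℕ) (V Λ : ℝ), 1 ≤ Z → 1 ≤ V → 1 ≤ Λ → ∀ S : Finset (ℕ × ℕ),
    (∀ t ∈ S, Cop t ∧ rad (T t) ≤ Z ∧ Real.log (c t) ≤ Λ ∧
      ∃ i j : Fin 3, i ≠ j ∧ V ≤ rad (ent t i) ∧ V ≤ rad (ent t j)) →
    (S.card : ℝ) ≤ C * (Z : ℝ) ^ ε * Λ ^ ε * ((Z : ℝ) ^ (5 / 6 : ℝ) + Z / V) := by
  classical
  obtain ⟨C, hC, hU⟩ := U_count (ε / 4) (by positivity)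
  obtain ⟨C2, hC2, hlog⟩ := one_add_log_le_rpow (ε / 6) (by positivity)
  have h8 : (1 : ℝ) ≤ (8 : ℝ) ^ (ε / 4) := Real.one_le_rpow (by norm_num) (by positivity)
  refine ⟨27 * (8 * C2 ^ 3) * (C * (8 : ℝ) ^ (ε / 4) * 8), ?_, ?_⟩
  · have h1 : (1 : ℝ) ≤ C2 ^ 3 := one_le_pow₀ hC2
    have h2 : (1 : ℝ) ≤ C * (8 : ℝ) ^ (ε / 4) := one_le_mul_of_one_le_of_one_le hC h8
    have h3 : (1 : ℝ) ≤ 27 * (8 * C2 ^ 3) := by linarith only [h1]
    have h4 : (1 : ℝ) ≤ C * (8 : ℝ) ^ (ε / 4) * 8 := by linarith only [h2]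
    exact one_le_mul_of_one_le_of_one_le h3 h4
  intro Z V Λ hZ hV1 hΛ S hS
  have hZr : (1 : ℝ) ≤ (Z : ℝ) := by exact_mod_cast hZ
  have hZ0 : (0 : ℝ) < (Z : ℝ) := by linarith only [hZr]
  have hΛ0 : (0 : ℝ) < Λ := by linarith only [hΛ]
  have hV0 : (0 : ℝ) < V := by linarith only [hV1]
  have hord : ∀ t : ℕ × ℕ, ∃ q : Fin 3 × Fin 3 × Fin 3, q.1 ≠ q.2.1 ∧ q.2.2 ≠ q.1 ∧
      q.2.2 ≠ q.2.1 ∧ rad (ent t q.1) ≤ rad (ent t q.2.1) ∧
      rad (ent t q.2.1) ≤ rad (ent t q.2.2) := fun t => by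
    obtain ⟨k, j, l, h1, h2, h3, h4, h5⟩ := g2_order (fun i => rad (ent t i))
    exact ⟨(k, j, l), h1, h2, h3, h4, h5⟩
  choose q hq1 hq2 hq3 hq4 hq5 using hord
  set f : ℕ × ℕ → (Fin 3 × Fin 3 × Fin 3) × (ℕ × ℕ × ℕ) := fun t =>
    (q t, (Nat.clog 2 (rad (ent t (q t).1)), Nat.clog 2 (rad (ent t (q t).2.1)),
      Nat.clog 2 (rad (ent t (q t).2.2)))) with hf
  set B : ℝ := C * (8 * (Z : ℝ)) ^ (ε / 4) * Λ ^ (ε / 4) * (8 * ((Z : ℝ) ^ (5 / 6 : ℝ) + Z / V)) with hB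
  have hB0 : 0 ≤ B := by positivity
  -- the radicals are at most Z
  have hle : ∀ t ∈ S, ∀ i : Fin 3, rad (ent t i) ≤ Z := by
    intro t ht i
    refine le_trans (Nat.le_of_dvd (rad_pos _) ?_) (hS t ht).2.1
    obtain ⟨j, hj⟩ := exists_other i
    obtain ⟨l, hl1, hl2⟩ := exists_third i j hj
    rw [rad_T (hS t ht).1 hj hl1 hl2]
    exact Dvd.intro _ (mul_assoc _ _ _).symm
  set L := Nat.clog 2 Z with hL
  have himg : S.image f ⊆ (Finset.univ : Finset (Fin 3 × Fin 3 × Fin 3)) ×ˢ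
      (range (L + 1) ×ˢ (range (L + 1) ×ˢ range (L + 1))) := by
    intro b hb
    obtain ⟨t, ht, rfl⟩ := mem_image.1 hb
    have hcl : ∀ i : Fin 3, Nat.clog 2 (rad (ent t i)) < L + 1 := fun i =>
      Nat.lt_succ_of_le (Nat.clog_mono_right 2 (hle t ht i))
    simp only [hf, mem_product, mem_univ, mem_range, true_and]
    exact ⟨hcl _, hcl _, hcl _⟩
  have hcard : ((S.image f).card : ℝ) ≤ 27 * ((L : ℝ) + 1) ^ 3 := by
    have h1 := card_le_card himg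
    rw [card_product, card_product, card_product, card_range] at h1
    have h2 : (Finset.univ : Finset (Fin 3 × Fin 3 × Fin 3)).card = 27 := by
      simp [Fintype.card_prod]
    rw [h2] at h1
    have h3 : ((S.image f).card : ℝ) ≤ ((27 * ((L + 1) * ((L + 1) * (L + 1))) : ℕ) : ℝ) := by
      exact_mod_cast h1
    refine h3.trans (le_of_eq ?_)
    push_cast
    ring
  -- one class
  have hcls : ∀ b ∈ S.image f, ((S.filter (fun t => f t = b)).card : ℝ) ≤ B := by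
    intro b hb
    obtain ⟨t0, ht0, rfl⟩ := mem_image.1 hb
    have hr1 : ∀ i : Fin 3, 1 ≤ rad (ent t0 i) := fun i => rad_pos _
    have hM1 : ∀ n : ℕ, (1 : ℝ) ≤ 2 ^ n := fun n => one_le_pow₀ (by norm_num)
    have hup : ∀ i : Fin 3, (2 : ℝ) ^ Nat.clog 2 (rad (ent t0 i)) ≤ 2 * rad (ent t0 i) := fun i => by
      exact_mod_cast g2_clog (hr1 i)
    have hlo : ∀ (t : ℕ × ℕ) (i : Fin 3), (rad (ent t i) : ℝ) ≤
        2 ^ Nat.clog 2 (rad (ent t i)) := fun t i => by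
      exact_mod_cast Nat.le_pow_clog (by norm_num) _
    set α := Nat.clog 2 (rad (ent t0 (q t0).1)) with hα
    set β := Nat.clog 2 (rad (ent t0 (q t0).2.1)) with hβ
    set γ := Nat.clog 2 (rad (ent t0 (q t0).2.2)) with hγ
    have hαβ : (2 : ℝ) ^ α ≤ 2 ^ β :=
      pow_le_pow_right₀ (by norm_num) (Nat.clog_mono_right 2 (hq4 t0))
    have hβγ : (2 : ℝ) ^ β ≤ 2 ^ γ :=
      pow_le_pow_right₀ (by norm_num) (Nat.clog_mono_right 2 (hq5 t0))
    have hV : (2 : ℝ) ^ α * 2 ^ β * 2 ^ γ ≤ 8 * Z := by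
      have h1 : (2 : ℝ) ^ α * 2 ^ β * 2 ^ γ ≤ (2 * rad (ent t0 (q t0).1)) *
          (2 * rad (ent t0 (q t0).2.1)) * (2 * rad (ent t0 (q t0).2.2)) := by
        have := hup (q t0).1
        have := hup (q t0).2.1
        have := hup (q t0).2.2
        gcongr
      refine h1.trans ?_
      have h2 : ((rad (T t0) : ℕ) : ℝ) ≤ Z := by exact_mod_cast (hS t0 ht0).2.1
      rw [rad_T (hS t0 ht0).1 (hq1 t0) (hq2 t0) (hq3 t0)] at h2
      push_cast at h2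
      linarith only [h2]
    have hN : V ≤ (2 : ℝ) ^ β := by
      obtain ⟨i, j, hij, hi, hj⟩ := (hS t0 ht0).2.2.2
      have hmid : V ≤ (rad (ent t0 (q t0).2.1) : ℝ) := by
        have hkm : (rad (ent t0 (q t0).1) : ℝ) ≤ rad (ent t0 (q t0).2.1) := by
          exact_mod_cast hq4 t0
        by_cases hil : i = (q t0).2.2
        · have hjl : j ≠ (q t0).2.2 := fun h => hij (hil.trans h.symm)
          rcases g2_cases (hq1 t0) (hq2 t0) (hq3 t0) j with h | h | h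
          · rw [h] at hj
            exact hj.trans hkm
          · rw [h] at hj
            exact hj
          · exact absurd h hjl
        · rcases g2_cases (hq1 t0) (hq2 t0) (hq3 t0) i with h | h | h
          · rw [h] at hi
            exact hi.trans hkm
          · rw [h] at hi
            exact hi
          · exact absurd h hil
      exact hmid.trans (hlo _ _)
    have hfib : ∀ t ∈ S.filter (fun t => f t = f t0), Cop t ∧ Real.log (c t) ≤ Λ ∧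
        (rad (ent t (q t0).1) : ℝ) ≤ 2 ^ α ∧ (rad (ent t (q t0).2.1) : ℝ) ≤ 2 ^ β ∧
        (rad (ent t (q t0).2.2) : ℝ) ≤ 2 ^ γ := by
      intro t ht
      obtain ⟨htS, hft⟩ := mem_filter.1 ht
      have e1 : q t = q t0 := congrArg Prod.fst hft
      have e2 : Nat.clog 2 (rad (ent t (q t).1)) = α := congrArg (fun x => x.2.1) hft
      have e3 : Nat.clog 2 (rad (ent t (q t).2.1)) = β := congrArg (fun x => x.2.2.1) hft
      have e4 : Nat.clog 2 (rad (ent t (q t).2.2)) = γ := congrArg (fun x => x.2.2.2) hft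
      rw [e1] at e2 e3 e4
      refine ⟨(hS t htS).1, (hS t htS).2.2.1, ?_, ?_, ?_⟩
      · rw [← e2]; exact hlo _ _
      · rw [← e3]; exact hlo _ _
      · rw [← e4]; exact hlo _ _
    have h1 := hU (hq1 t0) (hq2 t0) (hq3 t0) (2 ^ α) (2 ^ β) (2 ^ γ) Λ (hM1 _) (hM1 _) (hM1 _) hΛ
      _ hfib
    refine h1.trans ?_
    have h2 := g2_core (hM1 α) hαβ hβγ hZr hV hV1 hN
    have h3 : ((2 : ℝ) ^ α * 2 ^ β * 2 ^ γ) ^ (ε / 4) ≤ (8 * (Z : ℝ)) ^ (ε / 4) :=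
      Real.rpow_le_rpow (by positivity) hV (by positivity)
    rw [hB]
    have h5 : 0 ≤ Λ ^ (ε / 4) := by positivity
    have h6 : (0 : ℝ) ≤ C := by linarith only [hC]
    refine mul_le_mul (mul_le_mul_of_nonneg_right (mul_le_mul_of_nonneg_left h3 h6) h5) h2
      (by positivity) (by positivity)
  -- the sum
  have hsum : (S.card : ℝ) ≤ ((S.image f).card : ℝ) * B := by
    rw [card_eq_sum_card_image f S]
    push_cast
    calc ∑ b ∈ S.image f, ((S.filter (fun t => f t = b)).card : ℝ)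
        ≤ ∑ _b ∈ S.image f, B := sum_le_sum hcls
      _ = ((S.image f).card : ℝ) * B := by rw [sum_const, nsmul_eq_mul]
  have hL3 : ((L : ℝ) + 1) ^ 3 ≤ 8 * C2 ^ 3 * (Z : ℝ) ^ (ε / 2) := by
    have h1 : (L : ℝ) + 1 ≤ 2 * (C2 * (Z : ℝ) ^ (ε / 6)) :=
      (g2_log hZ).trans (mul_le_mul_of_nonneg_left (hlog Z hZr) (by norm_num))
    have h2 := pow_le_pow_left₀ (by positivity) h1 3
    refine h2.trans (le_of_eq ?_)
    have h3 : (Z : ℝ) ^ (ε / 2) = ((Z : ℝ) ^ (ε / 6)) ^ 3 := by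
      rw [← Real.rpow_natCast, ← Real.rpow_mul hZ0.le]
      congr 1
      push_cast
      ring
    rw [h3]
    ring
  have hC0 : (0 : ℝ) < C := by linarith only [hC]
  have hC20 : (0 : ℝ) < C2 := by linarith only [hC2]
  have hW0 : 0 ≤ (Z : ℝ) ^ (5 / 6 : ℝ) + Z / V := by positivity
  calc (S.card : ℝ) ≤ ((S.image f).card : ℝ) * B := hsum
    _ ≤ (27 * ((L : ℝ) + 1) ^ 3) * B := mul_le_mul_of_nonneg_right hcard hB0
    _ ≤ (27 * (8 * C2 ^ 3 * (Z : ℝ) ^ (ε / 2))) * B :=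
        mul_le_mul_of_nonneg_right (mul_le_mul_of_nonneg_left hL3 (by norm_num)) hB0
    _ = 27 * (8 * C2 ^ 3) * (C * (8 : ℝ) ^ (ε / 4) * 8) *
        ((Z : ℝ) ^ (ε / 2) * (Z : ℝ) ^ (ε / 4)) * Λ ^ (ε / 4) *
        ((Z : ℝ) ^ (5 / 6 : ℝ) + Z / V) := by
        rw [hB, Real.mul_rpow (by norm_num) hZ0.le]
        ring
    _ ≤ 27 * (8 * C2 ^ 3) * (C * (8 : ℝ) ^ (ε / 4) * 8) * (Z : ℝ) ^ ε * Λ ^ ε *
        ((Z : ℝ) ^ (5 / 6 : ℝ) + Z / V) := by
        have h1 : (Z : ℝ) ^ (ε / 2) * (Z : ℝ) ^ (ε / 4) ≤ (Z : ℝ) ^ ε := by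
          rw [← Real.rpow_add hZ0]
          exact Real.rpow_le_rpow_of_exponent_le hZr (by linarith only [hε])
        have h2 : Λ ^ (ε / 4) ≤ Λ ^ ε :=
          Real.rpow_le_rpow_of_exponent_le hΛ (by linarith only [hε])
        have h3 : 0 ≤ 27 * (8 * C2 ^ 3) * (C * (8 : ℝ) ^ (ε / 4) * 8) := by positivity
        exact mul_le_mul_of_nonneg_right (mul_le_mul (mul_le_mul_of_nonneg_left h1 h3) h2
          (by positivity) (by positivity)) hW0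

end Pool.Agent.Helper42.RT
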