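import Mathlib
import Pool.Agent.Helper42.RT.H3
import Pool.Agent.Helper44.RO2.TypeAB
import Pool.Agent.Helper44.RO2.Small

set_option autoImplicit false

open Finset
open Pool.Agent.Helper42.RO Pool.Agent.Helper44.RO2

namespace Pool.Agent.Helper42.RT

/-- RT-H4. As `oneside_count` (file `H2.lean`; adapt its proof). `W = (Z Λ / U) ^ (1 / 2) ≥ 1`; left alternative
of `thin_cases`: `typeA_count` with `M0 = U Z ^ (4 η) W = Z ^ (4 η) (U Z Λ) ^ (1 / 2)`; right alternative: `typeB_count` with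
`M0 = Z / W`, `M0 Λ = (U Z Λ) ^ (1 / 2)`. Pairs with `log c ≤ C1 (log Z) ^ 2`: `small_range`, `C Z ^ (2 / 3 + ε)`;
`Z < max Z0 5`: `smallRad`, and `1 + log Λ ≤ 3 Λ ^ (1 / 2) ≤ 3 (U Z Λ) ^ (1 / 2)`. -/
theorem thin_count (ε : ℝ) (hε : 0 < ε) : ∃ C : ℝ, 1 ≤ C ∧
    ∀ (Z : ℕ) (U Λ : ℝ), 1 ≤ Z → 1 ≤ U → U ≤ Z → 1 ≤ Λ → ∀ S : Finset (ℕ × ℕ),
    (∀ t ∈ S, Cop t ∧ rad (T t) ≤ Z ∧ Real.log (c t) ≤ Λ ∧
      ∃ i : Fin 3, (rad (T t) : ℝ) ≤ U * rad (ent t i)) →
    (S.card : ℝ) ≤ C * (Z : ℝ) ^ ε * Λ ^ ε *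
      ((Z : ℝ) ^ (2 / 3 : ℝ) + (U * Z * Λ) ^ (1 / 2 : ℝ)) := by
  classical
  set η : ℝ := min (1 / 4) (ε / 16) with hη
  have hη0 : 0 < η := lt_min (by norm_num) (by positivity)
  have hη1 : η ≤ 1 / 4 := min_le_left _ _
  have hη2 : η ≤ ε / 16 := min_le_right _ _
  obtain ⟨CA, hCA, hA⟩ := typeA_count η (ε / 4) hη0 (by linarith) (by positivity)
  obtain ⟨CB, C1, Z0, hCB, hC1, hB⟩ := typeB_count η (ε / 4) hη0 (by linarith) (by positivity)
  obtain ⟨CS, hCS, hS⟩ := small_range C1 ε hC1 hε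
  obtain ⟨CR, hCR, hR⟩ := smallRad 1 one_pos
  set Z1 : ℕ := max Z0 5 with hZ1
  have hZ1pos : (1 : ℝ) ≤ (Z1 : ℝ) := by
    have : 1 ≤ Z1 := le_trans (by norm_num) (le_max_right Z0 5)
    exact_mod_cast this
  have hP1 : (1 : ℝ) ≤ (Z1 : ℝ) ^ ((1 : ℝ) + 1) := Real.one_le_rpow hZ1pos (by norm_num)
  set K : ℝ := CR * (Z1 : ℝ) ^ ((1 : ℝ) + 1) with hK
  have hK1 : 1 ≤ K := one_le_mul_of_one_le_of_one_le hCR hP1
  refine ⟨K * 3 + CS + CA + CB, by linarith, ?_⟩
  intro Z U Λ hZ hU hUZ hΛ S hSt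
  have hZr : (1 : ℝ) ≤ (Z : ℝ) := by exact_mod_cast hZ
  have hZ0r : (0 : ℝ) < (Z : ℝ) := by linarith
  have hΛ0 : (0 : ℝ) < Λ := by linarith
  have hU0 : (0 : ℝ) < U := by linarith
  have hA1 : (1 : ℝ) ≤ (Z : ℝ) ^ ε := Real.one_le_rpow hZr hε.le
  have hA2 : (1 : ℝ) ≤ Λ ^ ε := Real.one_le_rpow hΛ hε.le
  set A : ℝ := (Z : ℝ) ^ ε * Λ ^ ε with hAdef
  have hA3 : 1 ≤ A := one_le_mul_of_one_le_of_one_le hA1 hA2
  set Q : ℝ := (U * Z * Λ) ^ (1 / 2 : ℝ) with hQ
  have hQ0 : 0 < Q := by positivity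
  set Y : ℝ := (Z : ℝ) ^ (2 / 3 : ℝ) with hY
  have hY0 : 0 < Y := by positivity
  have hlogΛ : 1 + Real.log Λ ≤ 3 * Q := by
    have h1 := Real.log_le_rpow_div hΛ0.le (by norm_num : (0 : ℝ) < 1 / 2)
    have h2 : Λ ^ (1 / 2 : ℝ) ≤ Q := by
      rw [hQ]
      apply Real.rpow_le_rpow hΛ0.le _ (by norm_num)
      exact le_mul_of_one_le_left hΛ0.le (one_le_mul_of_one_le_of_one_le hU hZr)
    have h3 : Λ ^ (1 / 2 : ℝ) / (1 / 2) = 2 * Λ ^ (1 / 2 : ℝ) := by ring
    have h4 : (1 : ℝ) ≤ Λ ^ (1 / 2 : ℝ) := Real.one_le_rpow hΛ (by norm_num)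
    rw [h3] at h1
    linarith
  have hAY : 0 ≤ A * Y := by positivity
  have hAQ : 0 ≤ A * Q := by positivity
  have hgoal : (K * 3 + CS + CA + CB) * (Z : ℝ) ^ ε * Λ ^ ε * (Y + Q) =
      (K * 3 + CS + CA + CB) * (A * Y) + (K * 3 + CS + CA + CB) * (A * Q) := by
    rw [hAdef]
    ring
  rw [hgoal]
  rcases Nat.lt_or_ge Z Z1 with hlt | hge
  · have h1 := hR (Z1 : ℝ) Λ hZ1pos hΛ S (fun t ht => by
      obtain ⟨h1, h2, h3, -⟩ := hSt t ht
      refine ⟨h1, h3, ?_⟩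
      have : rad (T t) ≤ Z1 := h2.trans hlt.le
      exact_mod_cast this)
    rw [← hK] at h1
    have h2 : K * (1 + Real.log Λ) ≤ K * (3 * (A * Q)) := by
      apply mul_le_mul_of_nonneg_left _ (by linarith)
      have h3 : Q ≤ A * Q := le_mul_of_one_le_left hQ0.le hA3
      linarith
    have h3 : 0 ≤ (K * 3 + CS + CA + CB) * (A * Y) := mul_nonneg (by linarith) hAY
    have h4 : 0 ≤ (CS + CA + CB) * (A * Q) := mul_nonneg (by linarith) hAQ
    calc (S.card : ℝ) ≤ K * (1 + Real.log Λ) := h1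
      _ ≤ K * (3 * (A * Q)) := h2
      _ ≤ _ := by linarith
  · have hZ5 : 5 ≤ Z := (le_max_right Z0 5).trans hge
    have hZZ0 : Z0 ≤ Z := (le_max_left Z0 5).trans hge
    have hlogZ : 1.6 ≤ Real.log Z := by
      have h1 : Real.log 5 ≤ Real.log Z := Real.log_le_log (by norm_num) (by exact_mod_cast hZ5)
      have h2 : (1.6 : ℝ) ≤ Real.log 5 := by
        have := Real.log_five_gt_d9
        linarith
      linarith
    set V : ℝ := (Z * Λ / U) ^ (1 / 2 : ℝ) with hV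
    have hV0 : 0 < V := by positivity
    have hV1 : 1 ≤ V := by
      apply Real.one_le_rpow _ (by norm_num)
      rw [one_le_div hU0]
      exact hUZ.trans (le_mul_of_one_le_right hZ0r.le hΛ)
    have hUV : U * V = Q := by
      have h1 : U = U ^ (1 / 2 : ℝ) * U ^ (1 / 2 : ℝ) := by
        rw [← Real.rpow_add hU0]
        norm_num
      have h2 : V = ((Z : ℝ) * Λ) ^ (1 / 2 : ℝ) / U ^ (1 / 2 : ℝ) := by
        rw [hV, Real.div_rpow (by positivity) hU0.le]
      have h3 : Q = U ^ (1 / 2 : ℝ) * ((Z : ℝ) * Λ) ^ (1 / 2 : ℝ) := by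
        rw [hQ, mul_assoc, Real.mul_rpow hU0.le (by positivity)]
      have h4 : (0 : ℝ) < U ^ (1 / 2 : ℝ) := by positivity
      rw [h2, h3]
      nth_rewrite 1 [h1]
      field_simp
    have hVV : V * V = Z * Λ / U := by
      rw [hV, ← Real.rpow_add (by positivity)]
      norm_num
    have hZV : (Z : ℝ) * Λ = Q * V := by
      rw [← hUV, mul_assoc, hVV]
      field_simp
    set MA : ℝ := U * (Z : ℝ) ^ (4 * η) * V with hMA
    set MB : ℝ := (Z : ℝ) / V with hMB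
    have hMA0 : 0 ≤ MA := by positivity
    have hMB0 : 0 ≤ MB := by positivity
    set S1 := S.filter (fun t => Real.log (c t) ≤ C1 * (Real.log Z) ^ 2) with hS1
    set S2 := S.filter (fun t => ∃ m n1 : ℕ, rad (T t) = m * n1 ∧
      (m : ℝ) ≤ MA ∧ (part n1 (T t) : ℝ) ≤ (c t) ^ (1 - η)) with hS2
    set S3 := S.filter (fun t => C1 * (Real.log Z) ^ 2 ≤ Real.log (c t) ∧
      ∃ (k j : Fin 3) (m q : ℕ), m ≠ 0 ∧ (m : ℝ) ≤ MB ∧ TyB η k j m q t) with hS3
    have hsub : S ⊆ S1 ∪ (S2 ∪ S3) := by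
      intro t ht
      obtain ⟨hc, hr, hl, i, hi⟩ := hSt t ht
      rw [mem_union, mem_union]
      by_cases h1 : Real.log (c t) ≤ C1 * (Real.log Z) ^ 2
      · left
        exact mem_filter.2 ⟨ht, h1⟩
      · right
        push Not at h1
        have h3 : 3 ≤ t.1 + t.2 := by
          by_contra hcon
          have h4 : t.1 + t.2 ≤ 2 := by omega
          have h5 : c t ≤ 2 := by
            unfold c
            exact_mod_cast h4
          have h6 : Real.log (c t) ≤ Real.log 2 := Real.log_le_log hc.c_pos h5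
          have h7 := Real.log_two_lt_d9
          have h8 : (1 : ℝ) ≤ C1 * (Real.log Z) ^ 2 := by nlinarith
          linarith
        rcases thin_cases η hη0 hη1 hc h3 hr U hi V hV1 with h | h
        · left
          exact mem_filter.2 ⟨ht, h⟩
        · right
          exact mem_filter.2 ⟨ht, h1.le, h⟩
    have hcard : (S.card : ℝ) ≤ S1.card + (S2.card + S3.card) := by
      have h1 : S.card ≤ S1.card + (S2.card + S3.card) := by
        refine (card_le_card hsub).trans ((card_union_le _ _).trans ?_)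
        exact Nat.add_le_add_left (card_union_le _ _) _
      exact_mod_cast h1
    have b1 : (S1.card : ℝ) ≤ CS * (A * Y) := by
      have h1 := hS Z hZ S1 (fun t ht => by
        rw [hS1, mem_filter] at ht
        obtain ⟨h1, h2, -⟩ := hSt t ht.1
        exact ⟨h1, h2, ht.2⟩)
      refine h1.trans ?_
      apply mul_le_mul_of_nonneg_left _ (by linarith)
      rw [Real.rpow_add hZ0r, ← hY, hAdef, mul_comm]
      apply mul_le_mul_of_nonneg_right _ hY0.le
      exact le_mul_of_one_le_right (by linarith) hA2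
    have b2 : (S2.card : ℝ) ≤ CA * (A * Q) := by
      have h1 := hA Z MA Λ hZ hMA0 hΛ S2 (fun t ht => by
        rw [hS2, mem_filter] at ht
        obtain ⟨h1, h2, h3, -⟩ := hSt t ht.1
        exact ⟨h1, h2, h3, ht.2⟩)
      refine h1.trans ?_
      have h2 : CA * MA * (Z : ℝ) ^ (ε / 4) * Λ ^ (ε / 4) =
          CA * (((Z : ℝ) ^ (4 * η) * (Z : ℝ) ^ (ε / 4)) * Λ ^ (ε / 4) * Q) := by
        rw [hMA, ← hUV]
        ring
      rw [h2, ← Real.rpow_add hZ0r, hAdef]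
      apply mul_le_mul_of_nonneg_left _ (by linarith)
      apply mul_le_mul_of_nonneg_right _ hQ0.le
      apply mul_le_mul
      · exact Real.rpow_le_rpow_of_exponent_le hZr (by linarith)
      · exact Real.rpow_le_rpow_of_exponent_le hΛ (by linarith)
      · positivity
      · positivity
    have b3 : (S3.card : ℝ) ≤ CB * (A * Q) := by
      have h1 := hB Z MB Λ hZZ0 hMB0 hΛ S3 (fun t ht => by
        rw [hS3, mem_filter] at ht
        obtain ⟨h1, h2, h3, -⟩ := hSt t ht.1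
        exact ⟨h1, h2, ht.2.1, h3, ht.2.2⟩)
      refine h1.trans ?_
      have e1 : MB * Λ = Q := by
        rw [hMB, div_mul_eq_mul_div, hZV, mul_div_assoc, div_self hV0.ne', mul_one]
      have h2 : CB * MB * (Z : ℝ) ^ (ε / 4) * Λ ^ (1 + ε / 4) =
          CB * ((Z : ℝ) ^ (ε / 4) * Λ ^ (ε / 4) * Q) := by
        rw [← e1, Real.rpow_add hΛ0, Real.rpow_one]
        ring
      rw [h2, hAdef]
      apply mul_le_mul_of_nonneg_left _ (by linarith)
      apply mul_le_mul_of_nonneg_right _ hQ0.le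
      apply mul_le_mul
      · exact Real.rpow_le_rpow_of_exponent_le hZr (by linarith)
      · exact Real.rpow_le_rpow_of_exponent_le hΛ (by linarith)
      · positivity
      · positivity
    have h4 : 0 ≤ (K * 3 + CA + CB) * (A * Y) := mul_nonneg (by linarith) hAY
    have h5 : 0 ≤ (K * 3 + CS) * (A * Q) := mul_nonneg (by linarith) hAQ
    linarith

end Pool.Agent.Helper42.RT
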