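import Mathlib
import Pool.Agent.Helper42.RT.G2
import Pool.Agent.Helper42.RT.H4
import Pool.Agent.Helper44.RO2.Final
import Pool.Agent.Helper44.RO2.TypeAB

set_option autoImplicit false

open Finset
open Pool.Agent.Helper42.RO Pool.Agent.Helper44.RO2

namespace Pool.Agent.Helper42.RT

/-- The count without the first term. -/
theorem second_bound (ε : ℝ) (hε : 0 < ε) : ∃ C : ℝ, 1 ≤ C ∧
    ∀ (Z : ℕ) (Λ : ℝ), 1 ≤ Z → 1 ≤ Λ → ∀ S : Finset (ℕ × ℕ),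
    (∀ t ∈ S, Cop t ∧ rad (T t) ≤ Z ∧ Real.log (c t) ≤ Λ) →
    (S.card : ℝ) ≤ C * ((Z : ℝ) * Λ) ^ ε *
      ((Z : ℝ) ^ (5 / 6 : ℝ) + (Z : ℝ) ^ (3 / 4 : ℝ) * Λ ^ (1 / 4 : ℝ)) := by
  classical
  obtain ⟨C2, hC2, h2⟩ := middle_count ε hε
  obtain ⟨C3, hC3, h3⟩ := thin_count ε hε
  obtain ⟨C4, hC4, h4⟩ := smallRad ε hε
  obtain ⟨C5, hC5, h5⟩ := one_add_log_le_rpow ε hε
  have hC45 : 0 < C4 * C5 := mul_pos (by linarith) (by linarith)
  refine ⟨2 * C2 + 2 * C3 + C4 * C5, by linarith, ?_⟩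
  intro Z Λ hZ hΛ S hS
  have hZr : (1 : ℝ) ≤ (Z : ℝ) := by exact_mod_cast hZ
  have hZ0 : (0 : ℝ) < (Z : ℝ) := by linarith
  have hΛ0 : (0 : ℝ) < Λ := by linarith
  set A : ℝ := ((Z : ℝ) * Λ) ^ ε with hA
  have hA' : A = (Z : ℝ) ^ ε * Λ ^ ε := Real.mul_rpow hZ0.le hΛ0.le
  have hA0 : 0 < A := Real.rpow_pos_of_pos (mul_pos hZ0 hΛ0) _
  set B2 : ℝ := (Z : ℝ) ^ (5 / 6 : ℝ) with hB2
  set B3 : ℝ := (Z : ℝ) ^ (3 / 4 : ℝ) * Λ ^ (1 / 4 : ℝ) with hB3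
  have pB2 : 0 < B2 := by positivity
  have pB3 : 0 < B3 := by positivity
  -- the common part: a threshold `V`
  have main : ∀ V : ℝ, 1 ≤ V → V ^ 2 ≤ Z → (S.card : ℝ) ≤ C2 * A * (B2 + Z / V) +
      C3 * A * ((Z : ℝ) ^ (2 / 3 : ℝ) + (V ^ 2 * Z * Λ) ^ (1 / 2 : ℝ)) := by
    intro V hV hVZ
    have hV0 : 0 < V := by linarith
    have hV2 : 1 ≤ V ^ 2 := one_le_pow₀ hV
    set Sa := S.filter (fun t => ∃ i j : Fin 3, i ≠ j ∧ V ≤ rad (ent t i) ∧ V ≤ rad (ent t j)) with hSa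
    set Sb := S.filter (fun t => ¬ ∃ i j : Fin 3, i ≠ j ∧ V ≤ rad (ent t i) ∧
      V ≤ rad (ent t j)) with hSb
    have hsum : (S.card : ℝ) = Sa.card + Sb.card := by
      have := Finset.card_filter_add_card_filter_not (s := S)
        (fun t => ∃ i j : Fin 3, i ≠ j ∧ V ≤ rad (ent t i) ∧ V ≤ rad (ent t j))
      exact_mod_cast this.symm
    have ca := h2 Z V Λ hZ hV hΛ Sa (fun t ht => by
      rw [hSa, mem_filter] at ht
      obtain ⟨x1, x2, x3⟩ := hS t ht.1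
      exact ⟨x1, x2, x3, ht.2⟩)
    have cb := h3 Z (V ^ 2) Λ hZ hV2 hVZ hΛ Sb (fun t ht => by
      rw [hSb, mem_filter] at ht
      obtain ⟨x1, x2, x3⟩ := hS t ht.1
      refine ⟨x1, x2, x3, ?_⟩
      have hn := ht.2
      push Not at hn
      have key : ∀ {i j l : Fin 3}, i ≠ j → l ≠ i → l ≠ j → (rad (ent t j) : ℝ) < V →
          (rad (ent t l) : ℝ) < V → (rad (T t) : ℝ) ≤ V ^ 2 * rad (ent t i) := by
        intro i j l e1 e2 e3 hj hl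
        rw [rad_T x1 e1 e2 e3]
        push_cast
        have p1 : (0 : ℝ) ≤ rad (ent t i) := Nat.cast_nonneg _
        have p2 : (0 : ℝ) ≤ rad (ent t j) := Nat.cast_nonneg _
        have p3 : (0 : ℝ) ≤ rad (ent t l) := Nat.cast_nonneg _
        have p4 : (rad (ent t j) : ℝ) * rad (ent t l) ≤ V * V :=
          mul_le_mul hj.le hl.le p3 hV0.le
        calc (rad (ent t i) : ℝ) * rad (ent t j) * rad (ent t l)
            = (rad (ent t j) : ℝ) * rad (ent t l) * rad (ent t i) := by ring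
          _ ≤ V * V * rad (ent t i) := mul_le_mul_of_nonneg_right p4 p1
          _ = V ^ 2 * rad (ent t i) := by ring
      by_cases a0 : V ≤ rad (ent t 0)
      · exact ⟨0, key (i := 0) (j := 1) (l := 2) (by decide) (by decide) (by decide)
          (hn 0 1 (by decide) a0) (hn 0 2 (by decide) a0)⟩
      · push Not at a0
        by_cases a1 : V ≤ rad (ent t 1)
        · exact ⟨1, key (i := 1) (j := 0) (l := 2) (by decide) (by decide) (by decide)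
            a0 (hn 1 2 (by decide) a1)⟩
        · push Not at a1
          exact ⟨2, key (i := 2) (j := 0) (l := 1) (by decide) (by decide) (by decide) a0 a1⟩)
    rw [mul_assoc C2, ← hA'] at ca
    rw [mul_assoc C3, ← hA'] at cb
    rw [hsum]
    exact add_le_add ca cb
  have hZ23 : (Z : ℝ) ^ (2 / 3 : ℝ) ≤ B2 := Real.rpow_le_rpow_of_exponent_le hZr (by norm_num)
  have fin : ∀ V : ℝ, 1 ≤ V → V ^ 2 ≤ Z → Z / V ≤ B2 + B3 →
      (V ^ 2 * Z * Λ) ^ (1 / 2 : ℝ) ≤ B2 + B3 →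
      (S.card : ℝ) ≤ (2 * C2 + 2 * C3 + C4 * C5) * A * (B2 + B3) := by
    intro V hV hVZ y1 y2
    refine (main V hV hVZ).trans ?_
    have z1 : C2 * A * (B2 + Z / V) ≤ C2 * A * (2 * (B2 + B3)) := by
      apply mul_le_mul_of_nonneg_left _ (by positivity)
      linarith
    have z2 : C3 * A * ((Z : ℝ) ^ (2 / 3 : ℝ) + (V ^ 2 * Z * Λ) ^ (1 / 2 : ℝ)) ≤
        C3 * A * (2 * (B2 + B3)) := by
      apply mul_le_mul_of_nonneg_left _ (by positivity)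
      linarith
    have z3 : 0 ≤ C4 * C5 * A * (B2 + B3) := by positivity
    nlinarith
  rcases le_or_gt Λ ((Z : ℝ) ^ (1 / 3 : ℝ)) with hcase | hcase
  · -- small range
    refine fin ((Z : ℝ) ^ (1 / 6 : ℝ)) (Real.one_le_rpow hZr (by norm_num)) ?_ ?_ ?_
    · rw [← Real.rpow_natCast, ← Real.rpow_mul hZ0.le]
      conv_rhs => rw [← Real.rpow_one (Z : ℝ)]
      exact Real.rpow_le_rpow_of_exponent_le hZr (by norm_num)
    · have : (Z : ℝ) / (Z : ℝ) ^ (1 / 6 : ℝ) = B2 := by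
        rw [hB2]
        nth_rewrite 1 [← Real.rpow_one (Z : ℝ)]
        rw [← Real.rpow_sub hZ0]
        norm_num
      rw [this]
      linarith
    · have e1 : (((Z : ℝ) ^ (1 / 6 : ℝ)) ^ 2 * Z * Λ) ≤ (Z : ℝ) ^ (5 / 3 : ℝ) := by
        have e2 : ((Z : ℝ) ^ (1 / 6 : ℝ)) ^ 2 * Z * (Z : ℝ) ^ (1 / 3 : ℝ) =
            (Z : ℝ) ^ (5 / 3 : ℝ) := by
          rw [← Real.rpow_natCast, ← Real.rpow_mul hZ0.le]
          nth_rewrite 2 [← Real.rpow_one (Z : ℝ)]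
          rw [← Real.rpow_add hZ0, ← Real.rpow_add hZ0]
          norm_num
        rw [← e2]
        exact mul_le_mul_of_nonneg_left hcase (by positivity)
      have e3 : ((Z : ℝ) ^ (5 / 3 : ℝ)) ^ (1 / 2 : ℝ) = B2 := by
        rw [← Real.rpow_mul hZ0.le, hB2]
        norm_num
      have e4 := Real.rpow_le_rpow (by positivity) e1 (by norm_num : (0 : ℝ) ≤ 1 / 2)
      rw [e3] at e4
      linarith
  · rcases le_or_gt Λ (Z : ℝ) with hcase2 | hcase2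
    · -- middle range
      have hq1 : 1 ≤ (Z : ℝ) / Λ := (one_le_div hΛ0).2 hcase2
      have hq0 : 0 < (Z : ℝ) / Λ := by linarith
      refine fin (((Z : ℝ) / Λ) ^ (1 / 4 : ℝ)) (Real.one_le_rpow hq1 (by norm_num)) ?_ ?_ ?_
      · rw [← Real.rpow_natCast, ← Real.rpow_mul hq0.le]
        have e1 : ((Z : ℝ) / Λ) ^ ((1 / 4 : ℝ) * ((2 : ℕ) : ℝ)) ≤ (Z : ℝ) / Λ := by
          conv_rhs => rw [← Real.rpow_one ((Z : ℝ) / Λ)]
          exact Real.rpow_le_rpow_of_exponent_le hq1 (by norm_num)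
        refine e1.trans ?_
        exact div_le_self hZ0.le hΛ
      · have : (Z : ℝ) / ((Z : ℝ) / Λ) ^ (1 / 4 : ℝ) = B3 := by
          rw [hB3, Real.div_rpow hZ0.le hΛ0.le]
          have e1 : (Z : ℝ) = (Z : ℝ) ^ (3 / 4 : ℝ) * (Z : ℝ) ^ (1 / 4 : ℝ) := by
            rw [← Real.rpow_add hZ0]
            norm_num
          have p1 : (Z : ℝ) ^ (1 / 4 : ℝ) ≠ 0 := (Real.rpow_pos_of_pos hZ0 _).ne'
          have p2 : Λ ^ (1 / 4 : ℝ) ≠ 0 := (Real.rpow_pos_of_pos hΛ0 _).ne'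
          rw [div_div_eq_mul_div, div_eq_iff p1]
          nth_rewrite 1 [e1]
          ring
        rw [this]
        linarith
      · have e1 : ((((Z : ℝ) / Λ) ^ (1 / 4 : ℝ)) ^ 2 * Z * Λ) ^ (1 / 2 : ℝ) = B3 := by
          rw [← Real.rpow_natCast, ← Real.rpow_mul hq0.le, hB3]
          have e2 : ((1 / 4 : ℝ) * ((2 : ℕ) : ℝ)) = 1 / 2 := by norm_num
          rw [e2, Real.div_rpow hZ0.le hΛ0.le]
          have e3 : (Z : ℝ) ^ (1 / 2 : ℝ) / Λ ^ (1 / 2 : ℝ) * Z * Λ =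
              ((Z : ℝ) ^ (3 / 4 : ℝ) * Λ ^ (1 / 4 : ℝ)) ^ 2 := by
            have p2 : Λ ^ (1 / 2 : ℝ) ≠ 0 := (Real.rpow_pos_of_pos hΛ0 _).ne'
            have f1 : Λ = Λ ^ (1 / 2 : ℝ) * Λ ^ (1 / 2 : ℝ) := by
              rw [← Real.rpow_add hΛ0]
              norm_num
            have f2 : (Z : ℝ) ^ (1 / 2 : ℝ) * Z = ((Z : ℝ) ^ (3 / 4 : ℝ)) ^ 2 := by
              rw [← Real.rpow_natCast, ← Real.rpow_mul hZ0.le]
              nth_rewrite 2 [← Real.rpow_one (Z : ℝ)]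
              rw [← Real.rpow_add hZ0]
              norm_num
            have f3 : (Λ ^ (1 / 4 : ℝ)) ^ 2 = Λ ^ (1 / 2 : ℝ) := by
              rw [← Real.rpow_natCast, ← Real.rpow_mul hΛ0.le]
              norm_num
            rw [mul_pow, f3, ← f2]
            nth_rewrite 2 [f1]
            field_simp
          rw [e3, ← Real.sqrt_eq_rpow, Real.sqrt_sq (by positivity)]
        rw [e1]
        linarith
    · -- large range
      have x1 := h4 (Z : ℝ) Λ hZr hΛ S (fun t ht => by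
        obtain ⟨y1, y2, y3⟩ := hS t ht
        exact ⟨y1, y3, by exact_mod_cast y2⟩)
      have e1 : (Z : ℝ) ≤ B3 := by
        rw [hB3]
        have e2 : (Z : ℝ) = (Z : ℝ) ^ (3 / 4 : ℝ) * (Z : ℝ) ^ (1 / 4 : ℝ) := by
          rw [← Real.rpow_add hZ0]
          norm_num
        nth_rewrite 1 [e2]
        exact mul_le_mul_of_nonneg_left (Real.rpow_le_rpow hZ0.le hcase2.le (by norm_num))
          (by positivity)
      have e2 : (Z : ℝ) ^ (1 + ε) * (1 + Real.log Λ) ≤ C5 * A * B3 := by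
        rw [Real.rpow_add hZ0, Real.rpow_one, hA']
        calc (Z : ℝ) * (Z : ℝ) ^ ε * (1 + Real.log Λ) ≤ B3 * (Z : ℝ) ^ ε * (C5 * Λ ^ ε) := by
              apply mul_le_mul _ (h5 Λ hΛ) _ (by positivity)
              · exact mul_le_mul_of_nonneg_right e1 (by positivity)
              · have := Real.log_nonneg hΛ
                linarith
          _ = C5 * ((Z : ℝ) ^ ε * Λ ^ ε) * B3 := by ring
      have e3 : C4 * (Z : ℝ) ^ (1 + ε) * (1 + Real.log Λ) ≤ C4 * (C5 * A * B3) := by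
        rw [mul_assoc]
        exact mul_le_mul_of_nonneg_left e2 (by linarith)
      have e4 : 0 ≤ C4 * C5 * A * B2 := by positivity
      have e5 : 0 ≤ (2 * C2 + 2 * C3) * A * (B2 + B3) := by positivity
      nlinarith

/-- The final bound for finite families. -/
theorem main_bound2 (ε : ℝ) (hε : 0 < ε) : ∃ C : ℝ, 1 ≤ C ∧
    ∀ (Z : ℕ) (Λ : ℝ), 1 ≤ Z → 1 ≤ Λ → ∀ S : Finset (ℕ × ℕ),
    (∀ t ∈ S, Cop t ∧ rad (T t) ≤ Z ∧ Real.log (c t) ≤ Λ) →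
    (S.card : ℝ) ≤ C * ((Z : ℝ) * Λ) ^ ε *
      min ((Z : ℝ) ^ (2 / 3 : ℝ) * Λ)
        ((Z : ℝ) ^ (5 / 6 : ℝ) + (Z : ℝ) ^ (3 / 4 : ℝ) * Λ ^ (1 / 4 : ℝ)) := by
  classical
  obtain ⟨C1, hC1, h1⟩ := uniform_bound ε hε
  obtain ⟨C2, hC2, h2⟩ := second_bound ε hε
  refine ⟨C1 + C2, by linarith, ?_⟩
  intro Z Λ hZ hΛ S hS
  have hZr : (1 : ℝ) ≤ (Z : ℝ) := by exact_mod_cast hZ
  have hZ0 : (0 : ℝ) < (Z : ℝ) := by linarith
  have hΛ0 : (0 : ℝ) < Λ := by linarith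
  set A : ℝ := ((Z : ℝ) * Λ) ^ ε with hA
  have hA' : A = (Z : ℝ) ^ ε * Λ ^ ε := Real.mul_rpow hZ0.le hΛ0.le
  have hA0 : 0 < A := Real.rpow_pos_of_pos (mul_pos hZ0 hΛ0) _
  set B1 : ℝ := (Z : ℝ) ^ (2 / 3 : ℝ) * Λ with hB1
  set B4 : ℝ := (Z : ℝ) ^ (5 / 6 : ℝ) + (Z : ℝ) ^ (3 / 4 : ℝ) * Λ ^ (1 / 4 : ℝ) with hB4
  have pB1 : 0 < B1 := by positivity
  have pB4 : 0 < B4 := by positivity
  have b1 : (S.card : ℝ) ≤ C1 * A * B1 := by
    have := h1 Z Λ hZ hΛ S hS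
    have e : C1 * (Z : ℝ) ^ (2 / 3 + ε) * Λ ^ (1 + ε) = C1 * A * B1 := by
      rw [Real.rpow_add hZ0, Real.rpow_add hΛ0, Real.rpow_one, hA', hB1]
      ring
    linarith
  have b2 : (S.card : ℝ) ≤ C2 * A * B4 := h2 Z Λ hZ hΛ S hS
  rcases min_choice B1 B4 with h | h
  · rw [h]
    refine b1.trans ?_
    have x1 : 0 ≤ C2 * A * B1 := by positivity
    nlinarith
  · rw [h]
    refine b2.trans ?_
    have x1 : 0 ≤ C1 * A * B4 := by positivity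
    nlinarith

/-- The final bound for the set of all pairs. -/
theorem main_set2 (ε : ℝ) (hε : 0 < ε) : ∃ C : ℝ, ∀ (Z : ℕ) (Λ : ℝ), 1 ≤ Z → 1 ≤ Λ →
    ∀ V : Set (ℕ × ℕ), (∀ t ∈ V, Cop t ∧ rad (T t) ≤ Z ∧ Real.log (c t) ≤ Λ) →
    V.Finite ∧ (V.ncard : ℝ) ≤ C * ((Z : ℝ) * Λ) ^ ε *
      min ((Z : ℝ) ^ (2 / 3 : ℝ) * Λ)
        ((Z : ℝ) ^ (5 / 6 : ℝ) + (Z : ℝ) ^ (3 / 4 : ℝ) * Λ ^ (1 / 4 : ℝ)) := by
  classical
  obtain ⟨C, _, hC⟩ := main_bound2 ε hε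
  refine ⟨C, ?_⟩
  intro Z Λ hZ hΛ V hV
  have hfin : V.Finite := by
    set N : ℕ := ⌈Real.exp Λ⌉₊ with hN
    refine Set.Finite.subset (((Finset.range (N + 1)) ×ˢ (Finset.range (N + 1)) : Finset (ℕ × ℕ)).finite_toSet) ?_
    intro t ht
    obtain ⟨hc, _, hl⟩ := hV t ht
    have h1 : c t ≤ Real.exp Λ := by
      rw [← Real.exp_log hc.c_pos]
      exact Real.exp_le_exp.2 hl
    have h2 : ((t.1 + t.2 : ℕ) : ℝ) ≤ N := by
      have : c t = ((t.1 + t.2 : ℕ) : ℝ) := rfl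
      rw [← this]
      exact h1.trans (Nat.le_ceil _)
    have h3 : t.1 + t.2 ≤ N := by exact_mod_cast h2
    simp only [Finset.coe_product, Finset.coe_range, Set.mem_prod, Set.mem_Iio]
    omega
  refine ⟨hfin, ?_⟩
  have h1 := hC Z Λ hZ hΛ hfin.toFinset (fun t ht => hV t (by simpa using ht))
  rwa [Set.ncard_eq_toFinset_card V hfin]

end Pool.Agent.Helper42.RT
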