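import Mathlib
import Pool.Agent.Helper42.RT.Defs
import Pool.Agent.Helper44.RO2.RLem

set_option autoImplicit false

open Finset
open Pool.Agent.Helper42.RO Pool.Agent.Helper44.RO2

namespace Pool.Agent.Helper42.RT

/-- The part of `T t` on a set of primes of one entry. -/
private lemma h1_part {t : ℕ × ℕ} (ht : Cop t) (i : Fin 3) {A : Finset ℕ}
    (hA : A ⊆ (ent t i).primeFactors) :
    part (∏ p ∈ A, p) (T t) = ∏ p ∈ A, p ^ (ent t i).factorization p := by
  have hA' : ∀ p ∈ A, p.Prime := fun p hp => Nat.prime_of_mem_primeFactors (hA hp)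
  rw [part_prod hA']
  refine Finset.prod_congr rfl fun p hp => ?_
  rw [fact_T ht (hA' p hp) (Nat.dvd_of_mem_primeFactors (hA hp))]

/-- The part of `E` on a number divisible by all primes of `E`. -/
private lemma h1_part_all {m E : ℕ} (hE : E ≠ 0) (h : E.primeFactors ⊆ m.primeFactors) :
    part m E = E := by
  unfold part
  rw [← Finset.prod_subset h]
  · exact Nat.prod_factorization_pow_eq_self hE
  · intro p _ hp2
    have : E.factorization p = 0 := by
      rw [← Finsupp.notMem_support_iff, Nat.support_factorization]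
      exact hp2
    rw [this, pow_zero]

/-- RT-H1. Structure of the triples with an entry of radical larger than `Z ^ (2 / 3)`.
PROOF. Let `C = ent t i`, `r = rad C`, `N = rad (T t) ≤ Z`, so `N / r ≤ Z ^ (1 / 3)` (`rad_T`: `N = r * r'`, `r'` the product
of the two other radicals). Case 1: `C < c ^ (1 / 2)`. Left alternative with `n1 = r`, `m = r'`: `part r (T t) = C`
(the primes of `r` divide only the entry `i`: `fact_T`, `part_self`), and `c ^ (1 / 2) ≤ c ^ (1 - η)`. Case 2: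
`C ≥ c ^ (1 / 2)`, so `C > 1`. `rlemma` (file `Helper44/RO2/RLem.lean`) gives `R ⊆ C.primeFactors`, `p0 ∈ R` with
`∏ R p ^ v_p ≥ c ^ η`, `∏ R p ≤ p0 Z ^ (4 η)`. If `p0 ≤ W`: left alternative with
`n1 = ∏ p ∈ C.primeFactors \ R, p`, `m = r' * ∏ p ∈ R, p ≤ Z ^ (1 / 3) * W * Z ^ (4 η)`;
`part n1 (T t) = C / ∏ R p ^ v_p ≤ c / c ^ η`. If `p0 > W`: right alternative with `j = i`, `q = p0`, `m = N / p0 ≤ Z / W`,
`n' = 1`, and `k ≠ i` an index with `ent t k ≥ c ^ (1 / 2)` (`allowed_of_small`: of the two other entries at most one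
is smaller); all primes of `ent t k` divide `m`, so `part m (ent t k) = ent t k ≥ c ^ (1 / 2) ≥ c ^ η`. -/
theorem oneside_cases (η : ℝ) (h0 : 0 < η) (hη : η ≤ 1 / 4) {t : ℕ × ℕ} (ht : Cop t)
    (hc : 3 ≤ t.1 + t.2) {Z : ℕ} (hZ : rad (T t) ≤ Z) {i : Fin 3}
    (hi : (Z : ℝ) ^ (2 / 3 : ℝ) < rad (ent t i)) (W : ℝ) (hW : 1 ≤ W) :
    (∃ m n1 : ℕ, rad (T t) = m * n1 ∧ (m : ℝ) ≤ (Z : ℝ) ^ (1 / 3 + 4 * η) * W ∧
      (part n1 (T t) : ℝ) ≤ (c t) ^ (1 - η)) ∨
    (∃ (k j : Fin 3) (m q : ℕ), m ≠ 0 ∧ (m : ℝ) ≤ Z / W ∧ TyB η k j m q t) := by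
  classical
  obtain ⟨j, hj⟩ := exists_other i
  obtain ⟨l, hl1, hl2⟩ := exists_third i j hj
  have hc3 : (3 : ℝ) ≤ c t := by unfold c; exact_mod_cast hc
  have hc1 : (1 : ℝ) ≤ c t := by linarith
  have hc0 : 0 < c t := by linarith
  have hW0 : 0 < W := by linarith
  have hN : rad (T t) = rad (ent t i) * (rad (ent t j) * rad (ent t l)) := by
    rw [rad_T ht hj hl1 hl2, mul_assoc]
  have hNpos : 0 < rad (T t) := rad_pos _
  have hZ1 : (1 : ℝ) ≤ Z := by
    have : 1 ≤ Z := by omega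
    exact_mod_cast this
  have hZ0 : (0 : ℝ) < Z := by linarith
  set r : ℕ := rad (ent t i) with hr
  set r' : ℕ := rad (ent t j) * rad (ent t l) with hr'
  have hrpos : (0 : ℝ) < r := by exact_mod_cast rad_pos (ent t i)
  have hr'b : (r' : ℝ) ≤ (Z : ℝ) ^ (1 / 3 : ℝ) := by
    by_contra hcon
    push Not at hcon
    have h1 : ((Z : ℝ) ^ (2 / 3 : ℝ)) * ((Z : ℝ) ^ (1 / 3 : ℝ)) < r * r' :=
      mul_lt_mul'' hi hcon (by positivity) (by positivity)
    rw [← Real.rpow_add hZ0] at h1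
    have h2 : ((2 / 3 : ℝ) + 1 / 3) = 1 := by norm_num
    rw [h2, Real.rpow_one] at h1
    have h3 : ((rad (T t) : ℕ) : ℝ) ≤ Z := by exact_mod_cast hZ
    rw [hN] at h3
    rw [Nat.cast_mul] at h3
    linarith
  have hexp : (Z : ℝ) ^ (1 / 3 + 4 * η) = (Z : ℝ) ^ (1 / 3 : ℝ) * (Z : ℝ) ^ (4 * η) :=
    Real.rpow_add hZ0 _ _
  have hZη : (1 : ℝ) ≤ (Z : ℝ) ^ (4 * η) := Real.one_le_rpow hZ1 (by linarith)
  have hZ3 : (0 : ℝ) < (Z : ℝ) ^ (1 / 3 : ℝ) := by positivity
  have hprodC : (∏ p ∈ (ent t i).primeFactors, p ^ (ent t i).factorization p) = ent t i :=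
    Nat.prod_factorization_pow_eq_self (ent_ne ht i)
  rcases lt_or_ge (ent t i : ℝ) ((c t) ^ (1 / 2 : ℝ)) with hC | hC
  · left
    refine ⟨r', r, by rw [hN, mul_comm], ?_, ?_⟩
    · calc (r' : ℝ) ≤ (Z : ℝ) ^ (1 / 3 : ℝ) := hr'b
        _ = (Z : ℝ) ^ (1 / 3 : ℝ) * 1 * 1 := by ring
        _ ≤ (Z : ℝ) ^ (1 / 3 : ℝ) * (Z : ℝ) ^ (4 * η) * W := by gcongr
        _ = _ := by rw [hexp]
    · have h1 : part r (T t) = ent t i := by
        have h2 : r = ∏ p ∈ (ent t i).primeFactors, p := rfl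
        rw [h2, h1_part ht i (Finset.Subset.refl _), hprodC]
      rw [h1]
      refine hC.le.trans ?_
      exact Real.rpow_le_rpow_of_exponent_le hc1 (by linarith)
  · have hC1 : 1 < ent t i := by
      have h1 : (1 : ℝ) < (c t) ^ (1 / 2 : ℝ) := Real.one_lt_rpow (by linarith) (by norm_num)
      have h2 : (1 : ℝ) < (ent t i : ℝ) := lt_of_lt_of_le h1 hC
      exact_mod_cast h2
    have hrN : (rad (ent t i) : ℝ) ≤ (Z : ℝ) := by
      have h1 : rad (ent t i) ≤ rad (T t) := by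
        apply Nat.le_of_dvd hNpos
        rw [hN]
        exact Dvd.intro _ rfl
      exact_mod_cast h1.trans hZ
    obtain ⟨R, hR, p0, hp0, hbig, hsm⟩ := rlemma (ent t i) hC1 (c t) (by linarith) η h0 hη hC
      (Z : ℝ) hrN
    have hp0P : p0.Prime := Nat.prime_of_mem_primeFactors (hR hp0)
    have hp0C : p0 ∣ ent t i := Nat.dvd_of_mem_primeFactors (hR hp0)
    rcases le_or_gt (p0 : ℝ) W with hpW | hpW
    · left
      have hrsplit : r = (∏ p ∈ (ent t i).primeFactors \ R, p) * ∏ p ∈ R, p :=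
        (Finset.prod_sdiff hR).symm
      refine ⟨r' * ∏ p ∈ R, p, ∏ p ∈ (ent t i).primeFactors \ R, p, ?_, ?_, ?_⟩
      · rw [hN, hrsplit]
        ring
      · have h1 : ((r' * ∏ p ∈ R, p : ℕ) : ℝ) = (r' : ℝ) * ((∏ p ∈ R, p : ℕ) : ℝ) := by
          push_cast
          rfl
        rw [h1]
        have h2 : ((∏ p ∈ R, p : ℕ) : ℝ) ≤ W * (Z : ℝ) ^ (4 * η) :=
          hsm.trans (mul_le_mul_of_nonneg_right hpW (by positivity))
        calc (r' : ℝ) * ((∏ p ∈ R, p : ℕ) : ℝ) ≤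
            (Z : ℝ) ^ (1 / 3 : ℝ) * (W * (Z : ℝ) ^ (4 * η)) :=
              mul_le_mul hr'b h2 (by positivity) hZ3.le
          _ = (Z : ℝ) ^ (1 / 3 : ℝ) * (Z : ℝ) ^ (4 * η) * W := by ring
          _ = _ := by rw [hexp]
      · rw [h1_part ht i Finset.sdiff_subset]
        have h1 : (∏ p ∈ (ent t i).primeFactors \ R, p ^ (ent t i).factorization p) *
            (∏ p ∈ R, p ^ (ent t i).factorization p) = ent t i := by
          rw [Finset.prod_sdiff hR, hprodC]
        set Q : ℕ := ∏ p ∈ (ent t i).primeFactors \ R, p ^ (ent t i).factorization p with hQ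
        set S : ℕ := ∏ p ∈ R, p ^ (ent t i).factorization p with hS
        have h2 : (Q : ℝ) * (S : ℝ) ≤ c t := by
          have h3 : ((Q * S : ℕ) : ℝ) = (ent t i : ℝ) := by rw [h1]
          push_cast at h3
          rw [h3]
          exact ent_le_c t i
        have h4 : (Q : ℝ) * (c t) ^ η ≤ c t := by
          refine le_trans ?_ h2
          exact mul_le_mul_of_nonneg_left hbig (Nat.cast_nonneg _)
        have h5 : (c t) ^ (1 - η) = c t / (c t) ^ η := by
          rw [Real.rpow_sub hc0, Real.rpow_one]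
        rw [h5, le_div_iff₀ (by positivity)]
        exact h4
    · right
      obtain ⟨k, hki, hk⟩ : ∃ k : Fin 3, k ≠ i ∧ (c t) ^ (1 / 2 : ℝ) ≤ (ent t k : ℝ) := by
        rcases lt_or_ge (ent t j : ℝ) ((c t) ^ (1 / 2 : ℝ)) with hJ | hJ
        · exact ⟨l, hl1, allowed_of_small ht hc (Ne.symm hl2) hJ⟩
        · exact ⟨j, Ne.symm hj, hJ⟩
      have hp0N : p0 ∣ rad (T t) := by
        have h1 : p0 ∣ rad (ent t i) := Finset.dvd_prod_of_mem (fun p => p) (hR hp0)
        rw [hN]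
        exact Dvd.dvd.mul_right h1 _
      obtain ⟨m, hm⟩ := hp0N
      have hm0 : m ≠ 0 := by
        rintro rfl
        omega
      refine ⟨k, i, m, p0, hm0, ?_, hki, hp0P, hp0C, ⟨1, ?_, one_dvd _⟩, ?_⟩
      · rw [le_div_iff₀ hW0]
        have h1 : (m : ℝ) * W ≤ m * p0 := mul_le_mul_of_nonneg_left hpW.le (Nat.cast_nonneg _)
        have h2 : (m : ℝ) * p0 = ((rad (T t) : ℕ) : ℝ) := by
          rw [hm]
          push_cast
          ring
        have h3 : ((rad (T t) : ℕ) : ℝ) ≤ Z := by exact_mod_cast hZ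
        linarith
      · rw [hm]
        ring
      · have h1 : (ent t k).primeFactors ⊆ m.primeFactors := by
          intro p hp
          have hpP := Nat.prime_of_mem_primeFactors hp
          have hpk := Nat.dvd_of_mem_primeFactors hp
          have h2 : p ∣ rad (T t) := by
            have h3 : p ∈ (T t).primeFactors := by
              rw [Nat.mem_primeFactors]
              exact ⟨hpP, hpk.trans (ent_dvd_T t k), ht.T_ne⟩
            exact Finset.dvd_prod_of_mem (fun p => p) h3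
          rw [hm] at h2
          rw [Nat.mem_primeFactors]
          refine ⟨hpP, ?_, hm0⟩
          rcases (Nat.Prime.dvd_mul hpP).1 h2 with h4 | h4
          · exfalso
            have h5 : p = p0 := (Nat.prime_dvd_prime_iff_eq hpP hp0P).1 h4
            rw [h5] at hpk
            exact not_dvd_ent ht hki hp0P hpk hp0C
          · exact h4
        rw [h1_part_all (ent_ne ht k) h1]
        refine le_trans ?_ hk
        exact Real.rpow_le_rpow_of_exponent_le hc1 (by linarith)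

end Pool.Agent.Helper42.RT
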