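import Mathlib
import Pool.Agent.Helper42.RT.H1
import Pool.Agent.Helper44.RO2.TypeAB
import Pool.Agent.Helper44.RO2.Small

set_option autoImplicit false

open Finset
open Pool.Agent.Helper42.RO Pool.Agent.Helper44.RO2

namespace Pool.Agent.Helper42.RT

/-- RT-H2. The count of the triples with an entry of radical larger than `Z ^ (2 / 3)`.
PROOF. `η = min (1 / 4) (ε / 16)`; constants of `typeA_count η (ε / 4)`, `typeB_count η (ε / 4)` (gives `C1`, `Z0`),
`small_range C1 ε`, `smallRad 1`. `Z < max Z0 5`: `smallRad` (the number of pairs is `≤ C (1 + log Λ) ≤ C' Λ ^ (1 / 2 + ε)`).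
Otherwise: pairs with `log c ≤ C1 (log Z) ^ 2`: `small_range`. The others have `t.1 + t.2 ≥ 3`; put
`W = Z ^ (1 / 3) Λ ^ (1 / 2) ≥ 1` and apply `oneside_cases`. Left: `typeA_count` with
`M0 = Z ^ (1 / 3 + 4 η) W = Z ^ (2 / 3 + 4 η) Λ ^ (1 / 2)`. Right: `typeB_count` with `M0 = Z / W = Z ^ (2 / 3) Λ ^ (- 1 / 2)`, total
`C Z ^ (2 / 3 + ε / 4) Λ ^ (1 + ε / 4 - 1 / 2)`. Compare `Pool.Agent.Helper44.RO2.uniform_bound` (file `Final.lean`), the same
structure. -/
theorem oneside_count (ε : ℝ) (hε : 0 < ε) : ∃ C : ℝ, 1 ≤ C ∧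
    ∀ (Z : ℕ) (Λ : ℝ), 1 ≤ Z → 1 ≤ Λ → ∀ S : Finset (ℕ × ℕ),
    (∀ t ∈ S, Cop t ∧ rad (T t) ≤ Z ∧ Real.log (c t) ≤ Λ ∧
      ∃ i : Fin 3, (Z : ℝ) ^ (2 / 3 : ℝ) < rad (ent t i)) →
    (S.card : ℝ) ≤ C * (Z : ℝ) ^ (2 / 3 + ε) * Λ ^ (1 / 2 + ε) := by
  classical
  set η : ℝ := min (1 / 4) (ε / 16) with hη
  have hη0 : 0 < η := lt_min (by norm_num) (by positivity)
  have hη1 : η ≤ 1 / 4 := min_le_left _ _
  have hη2 : η ≤ ε / 16 := min_le_right _ _
  obtain ⟨CA, hCA, hA⟩ := typeA_count η (ε / 4) hη0 (by linarith) (by positivity)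
  obtain ⟨CB, C1, Z0, hCB, hC1, hB⟩ := typeB_count η (ε / 4) hη0 (by linarith) (by positivity)
  obtain ⟨CS, hCS, hS⟩ := small_range C1 ε hC1 hε
  obtain ⟨CR, hCR, hR⟩ := smallRad 1 one_pos
  set Z1 : ℕ := max Z0 5 with hZ1
  have hZ1pos : (1 : ℝ) ≤ (Z1 : ℝ) := by
    have : 1 ≤ Z1 := le_trans (by norm_num) (le_max_right Z0 5)
    exact_mod_cast this
  have hP1 : (1 : ℝ) ≤ (Z1 : ℝ) ^ ((1 : ℝ) + 1) := Real.one_le_rpow hZ1pos (by norm_num)
  set K : ℝ := CR * (Z1 : ℝ) ^ ((1 : ℝ) + 1) with hK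
  have hK1 : 1 ≤ K := one_le_mul_of_one_le_of_one_le hCR hP1
  refine ⟨K * 3 + CS + CA + CB, by linarith, ?_⟩
  intro Z Λ hZ hΛ S hSt
  have hZr : (1 : ℝ) ≤ (Z : ℝ) := by exact_mod_cast hZ
  have hZ0r : (0 : ℝ) < (Z : ℝ) := by linarith
  have hΛ0 : (0 : ℝ) < Λ := by linarith
  have hA1 : (1 : ℝ) ≤ (Z : ℝ) ^ (2 / 3 + ε) := Real.one_le_rpow hZr (by linarith)
  have hA2 : (1 : ℝ) ≤ Λ ^ (1 / 2 + ε) := Real.one_le_rpow hΛ (by linarith)
  have hlogΛ : 1 + Real.log Λ ≤ 3 * Λ ^ (1 / 2 + ε) := by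
    have h1 := Real.log_le_rpow_div hΛ0.le (by norm_num : (0 : ℝ) < 1 / 2)
    have h2 : Λ ^ (1 / 2 : ℝ) ≤ Λ ^ (1 / 2 + ε) :=
      Real.rpow_le_rpow_of_exponent_le hΛ (by linarith)
    have h3 : Λ ^ (1 / 2 : ℝ) / (1 / 2) = 2 * Λ ^ (1 / 2 : ℝ) := by ring
    rw [h3] at h1
    linarith
  set W : ℝ := (Z : ℝ) ^ (2 / 3 + ε) * Λ ^ (1 / 2 + ε) with hW
  have hW1 : 1 ≤ W := one_le_mul_of_one_le_of_one_le hA1 hA2
  have hW0 : 0 ≤ W := by linarith
  rw [mul_assoc, ← hW]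
  rcases Nat.lt_or_ge Z Z1 with hlt | hge
  · have h1 := hR (Z1 : ℝ) Λ hZ1pos hΛ S (fun t ht => by
      obtain ⟨h1, h2, h3, -⟩ := hSt t ht
      refine ⟨h1, h3, ?_⟩
      have : rad (T t) ≤ Z1 := h2.trans hlt.le
      exact_mod_cast this)
    rw [← hK] at h1
    have h2 : K * (1 + Real.log Λ) ≤ K * (3 * W) := by
      apply mul_le_mul_of_nonneg_left _ (by linarith)
      have h3 : Λ ^ (1 / 2 + ε) ≤ W := by
        rw [hW]
        exact le_mul_of_one_le_left (by positivity) hA1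
      linarith
    have h3 : 0 ≤ (CS + CA + CB) * W := by
      apply mul_nonneg _ hW0
      linarith
    calc (S.card : ℝ) ≤ K * (1 + Real.log Λ) := h1
      _ ≤ K * (3 * W) := h2
      _ ≤ K * (3 * W) + (CS + CA + CB) * W := by linarith
      _ = (K * 3 + CS + CA + CB) * W := by ring
  · have hZ5 : 5 ≤ Z := (le_max_right Z0 5).trans hge
    have hZZ0 : Z0 ≤ Z := (le_max_left Z0 5).trans hge
    have hlogZ : 1.6 ≤ Real.log Z := by
      have h1 : Real.log 5 ≤ Real.log Z := Real.log_le_log (by norm_num) (by exact_mod_cast hZ5)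
      have h2 : (1.6 : ℝ) ≤ Real.log 5 := by
        have := Real.log_five_gt_d9
        linarith
      linarith
    set V : ℝ := (Z : ℝ) ^ (1 / 3 : ℝ) * Λ ^ (1 / 2 : ℝ) with hV
    have hV1 : 1 ≤ V := one_le_mul_of_one_le_of_one_le (Real.one_le_rpow hZr (by norm_num))
      (Real.one_le_rpow hΛ (by norm_num))
    set MA : ℝ := (Z : ℝ) ^ (1 / 3 + 4 * η) * V with hMA
    set MB : ℝ := (Z : ℝ) / V with hMB
    have hMA0 : 0 ≤ MA := by positivity
    have hMB0 : 0 ≤ MB := by positivity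
    set S1 := S.filter (fun t => Real.log (c t) ≤ C1 * (Real.log Z) ^ 2) with hS1
    set S2 := S.filter (fun t => ∃ m n1 : ℕ, rad (T t) = m * n1 ∧
      (m : ℝ) ≤ MA ∧ (part n1 (T t) : ℝ) ≤ (c t) ^ (1 - η)) with hS2
    set S3 := S.filter (fun t => C1 * (Real.log Z) ^ 2 ≤ Real.log (c t) ∧
      ∃ (k j : Fin 3) (m q : ℕ), m ≠ 0 ∧ (m : ℝ) ≤ MB ∧ TyB η k j m q t) with hS3
    have hsub : S ⊆ S1 ∪ (S2 ∪ S3) := by
      intro t ht
      obtain ⟨hc, hr, hl, i, hi⟩ := hSt t ht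
      rw [mem_union, mem_union]
      by_cases h1 : Real.log (c t) ≤ C1 * (Real.log Z) ^ 2
      · left
        exact mem_filter.2 ⟨ht, h1⟩
      · right
        push Not at h1
        have h3 : 3 ≤ t.1 + t.2 := by
          by_contra hcon
          have h4 : t.1 + t.2 ≤ 2 := by omega
          have h5 : c t ≤ 2 := by
            unfold c
            exact_mod_cast h4
          have h6 : Real.log (c t) ≤ Real.log 2 := Real.log_le_log hc.c_pos h5
          have h7 := Real.log_two_lt_d9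
          have h8 : (1 : ℝ) ≤ C1 * (Real.log Z) ^ 2 := by nlinarith
          linarith
        rcases oneside_cases η hη0 hη1 hc h3 hr hi V hV1 with h | h
        · left
          exact mem_filter.2 ⟨ht, h⟩
        · right
          exact mem_filter.2 ⟨ht, h1.le, h⟩
    have hcard : (S.card : ℝ) ≤ S1.card + (S2.card + S3.card) := by
      have h1 : S.card ≤ S1.card + (S2.card + S3.card) := by
        refine (card_le_card hsub).trans ((card_union_le _ _).trans ?_)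
        exact Nat.add_le_add_left (card_union_le _ _) _
      exact_mod_cast h1
    have b1 : (S1.card : ℝ) ≤ CS * W := by
      have h1 := hS Z hZ S1 (fun t ht => by
        rw [hS1, mem_filter] at ht
        obtain ⟨h1, h2, -⟩ := hSt t ht.1
        exact ⟨h1, h2, ht.2⟩)
      refine h1.trans ?_
      apply mul_le_mul_of_nonneg_left _ (by linarith)
      rw [hW]
      exact le_mul_of_one_le_right (by positivity) hA2
    have b2 : (S2.card : ℝ) ≤ CA * W := by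
      have h1 := hA Z MA Λ hZ hMA0 hΛ S2 (fun t ht => by
        rw [hS2, mem_filter] at ht
        obtain ⟨h1, h2, h3, -⟩ := hSt t ht.1
        exact ⟨h1, h2, h3, ht.2⟩)
      refine h1.trans ?_
      have h2 : CA * MA * (Z : ℝ) ^ (ε / 4) * Λ ^ (ε / 4) =
          CA * (((Z : ℝ) ^ (1 / 3 + 4 * η) * (Z : ℝ) ^ (1 / 3 : ℝ) * (Z : ℝ) ^ (ε / 4)) *
            (Λ ^ (1 / 2 : ℝ) * Λ ^ (ε / 4))) := by
        rw [hMA, hV]
        ring
      rw [h2, ← Real.rpow_add hZ0r, ← Real.rpow_add hZ0r, ← Real.rpow_add hΛ0, hW]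
      apply mul_le_mul_of_nonneg_left _ (by linarith)
      apply mul_le_mul
      · exact Real.rpow_le_rpow_of_exponent_le hZr (by linarith)
      · exact Real.rpow_le_rpow_of_exponent_le hΛ (by linarith)
      · positivity
      · positivity
    have b3 : (S3.card : ℝ) ≤ CB * W := by
      have h1 := hB Z MB Λ hZZ0 hMB0 hΛ S3 (fun t ht => by
        rw [hS3, mem_filter] at ht
        obtain ⟨h1, h2, h3, -⟩ := hSt t ht.1
        exact ⟨h1, h2, ht.2.1, h3, ht.2.2⟩)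
      refine h1.trans ?_
      have e1 : MB = (Z : ℝ) ^ (2 / 3 : ℝ) * Λ ^ (-(1 / 2) : ℝ) := by
        have h3 : (Z : ℝ) = (Z : ℝ) ^ (2 / 3 : ℝ) * (Z : ℝ) ^ (1 / 3 : ℝ) := by
          rw [← Real.rpow_add hZ0r]
          norm_num
        have h4 : (0 : ℝ) < (Z : ℝ) ^ (1 / 3 : ℝ) := by positivity
        have h5 : (0 : ℝ) < Λ ^ (1 / 2 : ℝ) := by positivity
        rw [hMB, hV, Real.rpow_neg hΛ0.le, div_eq_iff (by positivity)]
        field_simp
        exact h3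
      have h2 : CB * MB * (Z : ℝ) ^ (ε / 4) * Λ ^ (1 + ε / 4) =
          CB * (((Z : ℝ) ^ (2 / 3 : ℝ) * (Z : ℝ) ^ (ε / 4)) *
            (Λ ^ (-(1 / 2) : ℝ) * Λ ^ (1 + ε / 4))) := by
        rw [e1]
        ring
      rw [h2, ← Real.rpow_add hZ0r, ← Real.rpow_add hΛ0, hW]
      apply mul_le_mul_of_nonneg_left _ (by linarith)
      apply mul_le_mul
      · exact Real.rpow_le_rpow_of_exponent_le hZr (by linarith)
      · exact Real.rpow_le_rpow_of_exponent_le hΛ (by linarith)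
      · positivity
      · positivity
    have h4 : 0 ≤ K * 3 * W := by positivity
    calc (S.card : ℝ) ≤ S1.card + (S2.card + S3.card) := hcard
      _ ≤ CS * W + (CA * W + CB * W) := by linarith
      _ ≤ (K * 3 + CS + CA + CB) * W := by nlinarith

end Pool.Agent.Helper42.RT
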