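import Mathlib
import Pool.Agent.Helper42.RT.G1
import Pool.Agent.Helper42.RT.H2
import Pool.Agent.Helper44.RO2.Final

set_option autoImplicit false

open Finset
open Pool.Agent.Helper42.RO Pool.Agent.Helper44.RO2

namespace Pool.Agent.Helper42.RT

/-- The final bound for finite families. -/
theorem main_bound (ε : ℝ) (hε : 0 < ε) : ∃ C : ℝ, 1 ≤ C ∧
    ∀ (Z : ℕ) (Λ : ℝ), 1 ≤ Z → 1 ≤ Λ → ∀ S : Finset (ℕ × ℕ),
    (∀ t ∈ S, Cop t ∧ rad (T t) ≤ Z ∧ Real.log (c t) ≤ Λ) →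
    (S.card : ℝ) ≤ C * ((Z : ℝ) * Λ) ^ ε *
      min ((Z : ℝ) ^ (2 / 3 : ℝ) * Λ)
        ((Z : ℝ) ^ (5 / 6 : ℝ) + (Z : ℝ) ^ (2 / 3 : ℝ) * Λ ^ (1 / 2 : ℝ)) := by
  classical
  obtain ⟨C1, hC1, h1⟩ := uniform_bound ε hε
  obtain ⟨C2, hC2, h2⟩ := balanced_count ε hε
  obtain ⟨C3, hC3, h3⟩ := oneside_count ε hε
  refine ⟨C1 + C2 + C3, by linarith, ?_⟩
  intro Z Λ hZ hΛ S hS
  have hZr : (1 : ℝ) ≤ (Z : ℝ) := by exact_mod_cast hZ
  have hZ0 : (0 : ℝ) < (Z : ℝ) := by linarith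
  have hΛ0 : (0 : ℝ) < Λ := by linarith
  set A : ℝ := ((Z : ℝ) * Λ) ^ ε with hA
  have hA' : A = (Z : ℝ) ^ ε * Λ ^ ε := Real.mul_rpow hZ0.le hΛ0.le
  have hA0 : 0 < A := Real.rpow_pos_of_pos (mul_pos hZ0 hΛ0) _
  set B1 : ℝ := (Z : ℝ) ^ (2 / 3 : ℝ) * Λ with hB1
  set B2 : ℝ := (Z : ℝ) ^ (5 / 6 : ℝ) with hB2
  set B3 : ℝ := (Z : ℝ) ^ (2 / 3 : ℝ) * Λ ^ (1 / 2 : ℝ) with hB3
  have pB1 : 0 < B1 := by positivity
  have pB2 : 0 < B2 := by positivity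
  have pB3 : 0 < B3 := by positivity
  have b1 : (S.card : ℝ) ≤ C1 * A * B1 := by
    have := h1 Z Λ hZ hΛ S hS
    have e : C1 * (Z : ℝ) ^ (2 / 3 + ε) * Λ ^ (1 + ε) = C1 * A * B1 := by
      rw [Real.rpow_add hZ0, Real.rpow_add hΛ0, Real.rpow_one, hA', hB1]
      ring
    linarith
  have b2 : (S.card : ℝ) ≤ (C2 + C3) * A * (B2 + B3) := by
    set Sa := S.filter (fun t => ∀ i : Fin 3, (rad (ent t i) : ℝ) ≤ (Z : ℝ) ^ (2 / 3 : ℝ)) with hSa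
    set Sb := S.filter (fun t => ¬ ∀ i : Fin 3, (rad (ent t i) : ℝ) ≤ (Z : ℝ) ^ (2 / 3 : ℝ)) with hSb
    have hsum : (S.card : ℝ) = Sa.card + Sb.card := by
      have := Finset.card_filter_add_card_filter_not (s := S)
        (fun t => ∀ i : Fin 3, (rad (ent t i) : ℝ) ≤ (Z : ℝ) ^ (2 / 3 : ℝ))
      exact_mod_cast this.symm
    have ca := h2 Z Λ hZ hΛ Sa (fun t ht => by
      rw [hSa, mem_filter] at ht
      obtain ⟨x1, x2, x3⟩ := hS t ht.1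
      exact ⟨x1, x2, x3, ht.2⟩)
    have cb := h3 Z Λ hZ hΛ Sb (fun t ht => by
      rw [hSb, mem_filter] at ht
      obtain ⟨x1, x2, x3⟩ := hS t ht.1
      refine ⟨x1, x2, x3, ?_⟩
      have := ht.2
      push Not at this
      exact this)
    have e2 : C2 * (Z : ℝ) ^ (5 / 6 + ε) * Λ ^ ε = C2 * A * B2 := by
      rw [Real.rpow_add hZ0, hA', hB2]
      ring
    have e3 : C3 * (Z : ℝ) ^ (2 / 3 + ε) * Λ ^ (1 / 2 + ε) = C3 * A * B3 := by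
      rw [Real.rpow_add hZ0, Real.rpow_add hΛ0, hA', hB3]
      ring
    rw [e2] at ca
    rw [e3] at cb
    have x1 : 0 ≤ C2 * A * B3 := by positivity
    have x2 : 0 ≤ C3 * A * B2 := by positivity
    calc (S.card : ℝ) = Sa.card + Sb.card := hsum
      _ ≤ C2 * A * B2 + C3 * A * B3 := add_le_add ca cb
      _ ≤ (C2 + C3) * A * (B2 + B3) := by nlinarith
  rcases min_choice B1 (B2 + B3) with h | h
  · rw [h]
    refine b1.trans ?_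
    have x1 : 0 ≤ (C2 + C3) * A * B1 := by positivity
    nlinarith
  · rw [h]
    refine b2.trans ?_
    have x1 : 0 ≤ C1 * A * (B2 + B3) := by positivity
    nlinarith

/-- The final bound for the set of all pairs. -/
theorem main_set (ε : ℝ) (hε : 0 < ε) : ∃ C : ℝ, ∀ (Z : ℕ) (Λ : ℝ), 1 ≤ Z → 1 ≤ Λ →
    ∀ V : Set (ℕ × ℕ), (∀ t ∈ V, Cop t ∧ rad (T t) ≤ Z ∧ Real.log (c t) ≤ Λ) →
    V.Finite ∧ (V.ncard : ℝ) ≤ C * ((Z : ℝ) * Λ) ^ ε *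
      min ((Z : ℝ) ^ (2 / 3 : ℝ) * Λ)
        ((Z : ℝ) ^ (5 / 6 : ℝ) + (Z : ℝ) ^ (2 / 3 : ℝ) * Λ ^ (1 / 2 : ℝ)) := by
  classical
  obtain ⟨C, _, hC⟩ := main_bound ε hε
  refine ⟨C, ?_⟩
  intro Z Λ hZ hΛ V hV
  have hfin : V.Finite := by
    set N : ℕ := ⌈Real.exp Λ⌉₊ with hN
    refine Set.Finite.subset (((Finset.range (N + 1)) ×ˢ (Finset.range (N + 1)) : Finset (ℕ × ℕ)).finite_toSet) ?_
    intro t ht
    obtain ⟨hc, _, hl⟩ := hV t ht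
    have h1 : c t ≤ Real.exp Λ := by
      rw [← Real.exp_log hc.c_pos]
      exact Real.exp_le_exp.2 hl
    have h2 : ((t.1 + t.2 : ℕ) : ℝ) ≤ N := by
      have : c t = ((t.1 + t.2 : ℕ) : ℝ) := rfl
      rw [← this]
      exact h1.trans (Nat.le_ceil _)
    have h3 : t.1 + t.2 ≤ N := by exact_mod_cast h2
    simp only [Finset.coe_product, Finset.coe_range, Set.mem_prod, Set.mem_Iio]
    omega
  refine ⟨hfin, ?_⟩
  have h1 := hC Z Λ hZ hΛ hfin.toFinset (fun t ht => hV t (by simpa using ht))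
  rwa [Set.ncard_eq_toFinset_card V hfin]

end Pool.Agent.Helper42.RT
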